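import Pool.Agent.J6H27.MPH.Num3

/-!
# The numbers for a growing order of the root
-/

set_option autoImplicit false

namespace Pool.Agent.J6H27.MPH

open Filter

/-- the estimates for one `N` -/
theorem est_all' {c b X L B l a : ℕ} (hB2 : 3 ≤ B) (hBb : B ≤ 2 * (b + 1) ^ 2)
    (hl : l = 2 * B * (c + 1) + 2)
    (ha : a = B * c + 1) (hX : 102 * (c + 1) ^ 2 * (b + 1) ^ 6 ≤ X) (hXL : X < B * (L + 1))
    (hLX : L + 1 ≤ 2 ^ (b + 1)) :
    50 * (b + 1) ^ 4 ≤ L ∧ l * (l - 1) ≤ L ∧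
    8 * 2 ^ (B * (c + 1)) * (a ^ l * l.factorial) ^ 2 * (L + 1) ^ (2 * l) ≤ 2 ^ L ∧
    4 * (L + 1) ^ 2 ≤ 2 ^ L ∧
    2 ^ (B + 3) * (3 * (B + 3) + 1) * (L + 1) ≤ 2 ^ L ∧
    2 * (2 ^ (B + 1) * 6) ^ 4 ≤ 2 ^ L := by
  obtain ⟨V, hV⟩ : ∃ V, V = b + 1 := ⟨_, rfl⟩
  obtain ⟨e, he⟩ : ∃ e, e = c + 1 := ⟨_, rfl⟩
  have hV1 : 1 ≤ V := by omega
  have he1 : 1 ≤ e := by omega
  rw [← he] at hl hX
  rw [← hV] at hX hLX hBb
  have hBV : B ≤ 2 * V ^ 2 := hBb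
  have hV2 : V ^ 2 ≤ V ^ 3 := Nat.pow_le_pow_right hV1 (by norm_num)
  have hV3 : V ^ 3 ≤ V ^ 4 := Nat.pow_le_pow_right hV1 (by norm_num)
  have hV0 : 1 ≤ V ^ 2 := Nat.one_le_pow _ _ hV1
  have hVV : V ≤ V ^ 2 := by nlinarith
  have he2 : e ≤ e ^ 2 := by nlinarith
  -- the lower bound for L
  have hL : 50 * V ^ 4 * e ^ 2 < L + 1 := by
    have h1 : B * (50 * V ^ 4 * e ^ 2 + 1) ≤ X := by
      calc B * (50 * V ^ 4 * e ^ 2 + 1) ≤ (2 * V ^ 2) * (50 * V ^ 4 * e ^ 2 + V ^ 4 * e ^ 2) := by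
            refine Nat.mul_le_mul hBV (Nat.add_le_add_left ?_ _)
            have : 1 ≤ V ^ 4 := Nat.one_le_pow _ _ hV1
            have : 1 ≤ e ^ 2 := Nat.one_le_pow _ _ he1
            nlinarith
        _ = 102 * e ^ 2 * V ^ 6 := by ring
        _ ≤ X := hX
    have h2 : B * (50 * V ^ 4 * e ^ 2 + 1) < B * (L + 1) := lt_of_le_of_lt h1 hXL
    have := Nat.lt_of_mul_lt_mul_left h2
    omega
  have hP : 1 ≤ V ^ 4 * e ^ 2 := Nat.mul_pos (by positivity) (by positivity)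
  -- the size of l
  have hl1 : l ≤ 6 * (V ^ 2 * e) := by
    have h1 : B * e ≤ 2 * V ^ 2 * e := Nat.mul_le_mul_right _ hBV
    have h2 : 1 ≤ V ^ 2 * e := Nat.mul_pos (by omega) he1
    have h3 : l = 2 * (B * e) + 2 := by rw [hl]; ring
    have h4 : 2 * V ^ 2 * e = 2 * (V ^ 2 * e) := by ring
    omega
  have hll : l * l ≤ 36 * (V ^ 4 * e ^ 2) := by
    calc l * l ≤ (6 * (V ^ 2 * e)) * (6 * (V ^ 2 * e)) := Nat.mul_le_mul hl1 hl1
      _ = 36 * (V ^ 4 * e ^ 2) := by ring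
  have h50 : 50 * V ^ 4 * e ^ 2 = 50 * (V ^ 4 * e ^ 2) := by ring
  have hV4P : V ^ 4 ≤ V ^ 4 * e ^ 2 := Nat.le_mul_of_pos_right _ (by positivity)
  have hl2 : 2 ≤ l := by omega
  have hlL : l ≤ L + 1 := by
    have : l ≤ l * l := Nat.le_mul_of_pos_left _ (by omega)
    omega
  have hal : a ≤ l := by
    have h3 : l = 2 * (B * e) + 2 := by rw [hl]; ring
    have h4 : B * c ≤ B * e := Nat.mul_le_mul_left _ (by omega)
    omega
  have hV3P : V ^ 3 * e ≤ V ^ 4 * e ^ 2 := Nat.mul_le_mul hV3 he2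
  refine ⟨?_, ?_, ?_, ?_, ?_, ?_⟩
  · rw [← hV]
    omega
  · have h1 : l * (l - 1) ≤ l * l := Nat.mul_le_mul_left _ (by omega)
    omega
  · have h1 : (a ^ l * l.factorial) ^ 2 ≤ (L + 1) ^ (4 * l) := by
      calc (a ^ l * l.factorial) ^ 2 ≤ ((L + 1) ^ l * (L + 1) ^ l) ^ 2 := by
            refine Nat.pow_le_pow_left (Nat.mul_le_mul ?_ ?_) 2
            · exact Nat.pow_le_pow_left (hal.trans hlL) l
            · exact fact_le_pow' hlL
        _ = (L + 1) ^ (4 * l) := by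
            rw [← pow_add, ← pow_mul]
            congr 1
            ring
    calc 8 * 2 ^ (B * (c + 1)) * (a ^ l * l.factorial) ^ 2 * (L + 1) ^ (2 * l) ≤
        8 * 2 ^ (B * (c + 1)) * (L + 1) ^ (4 * l) * (L + 1) ^ (2 * l) :=
          Nat.mul_le_mul_right _ (Nat.mul_le_mul_left _ h1)
      _ = 8 * 2 ^ (B * e) * (L + 1) ^ (6 * l) := by
          rw [mul_assoc, ← pow_add, ← he]
          congr 2
          ring
      _ ≤ 8 * 2 ^ (B * e) * (2 ^ V) ^ (6 * l) :=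
          Nat.mul_le_mul_left _ (Nat.pow_le_pow_left hLX _)
      _ = 2 ^ (3 + B * e + V * (6 * l)) := by
          rw [pow_add, pow_add, pow_mul 2 V]
          norm_num
      _ ≤ 2 ^ L := by
          refine Nat.pow_le_pow_right (by norm_num) ?_
          have h2 : B * e ≤ 2 * V ^ 2 * e := Nat.mul_le_mul_right _ hBV
          have h3 : V * (6 * l) ≤ V * (6 * (6 * (V ^ 2 * e))) :=
            Nat.mul_le_mul_left _ (Nat.mul_le_mul_left _ hl1)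
          have h4 : V * (6 * (6 * (V ^ 2 * e))) = 36 * (V ^ 3 * e) := by ring
          have h5 : 2 * V ^ 2 * e ≤ 2 * (V ^ 3 * e) := by
            rw [mul_assoc]
            exact Nat.mul_le_mul_left _ (Nat.mul_le_mul_right _ hV2)
          omega
  · calc 4 * (L + 1) ^ 2 ≤ 4 * (2 ^ V) ^ 2 := Nat.mul_le_mul_left _ (Nat.pow_le_pow_left hLX _)
      _ = 2 ^ (2 + V * 2) := by rw [pow_add, pow_mul]; norm_num
      _ ≤ 2 ^ L := Nat.pow_le_pow_right (by norm_num) (by omega)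
  · have h1 : 3 * (B + 3) + 1 ≤ 2 ^ (B + 4) := by
      have h2 : ∀ x : ℕ, 3 * (x + 2 + 3) + 1 ≤ 2 ^ (x + 2 + 4) := by
        intro x
        induction x with
        | zero => norm_num
        | succ x ih =>
          have : 2 ^ (x + 1 + 2 + 4) = 2 * 2 ^ (x + 2 + 4) := by ring
          omega
      have h3 := h2 (B - 2)
      have h4 : B - 2 + 2 = B := by omega
      rw [h4] at h3
      exact h3
    calc 2 ^ (B + 3) * (3 * (B + 3) + 1) * (L + 1) ≤ 2 ^ (B + 3) * 2 ^ (B + 4) * 2 ^ V :=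
          Nat.mul_le_mul (Nat.mul_le_mul_left _ h1) hLX
      _ = 2 ^ (B + 3 + (B + 4) + V) := by rw [← pow_add, ← pow_add]
      _ ≤ 2 ^ L := Nat.pow_le_pow_right (by norm_num) (by omega)
  · calc 2 * (2 ^ (B + 1) * 6) ^ 4 ≤ 2 * (2 ^ (B + 1) * 2 ^ 3) ^ 4 := by
          refine Nat.mul_le_mul_left _ (Nat.pow_le_pow_left (Nat.mul_le_mul_left _ ?_) 4)
          norm_num
      _ = 2 ^ (1 + (B + 1 + 3) * 4) := by
          rw [← pow_add 2 (B + 1) 3, ← pow_mul, pow_add 2 1, pow_one]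
      _ ≤ 2 ^ L := Nat.pow_le_pow_right (by norm_num) (by omega)

theorem est_up {k b B L X : ℕ} (hk : B = k + 3) (hBb : B ≤ 2 * (b + 1) ^ 2)
    (hL : 50 * (b + 1) ^ 4 ≤ L) (hLX : L ≤ X) :
    (L + 1) * (k + 1 + (L + 1)) ≤ X ^ 3 ∧ (L + 1) * (L + 1) ≤ X ^ 3 := by
  have h1 : (b + 1) ^ 2 ≤ (b + 1) ^ 4 := Nat.pow_le_pow_right (Nat.succ_pos b) (by norm_num)
  have h2 : 1 ≤ (b + 1) ^ 4 := Nat.one_le_pow _ _ (Nat.succ_pos b)
  exact est_cube (A := k + 1) (by omega) hLX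

/-- **The numbers.** -/
theorem numbers3 (c : ℕ) : ∀ᶠ N : ℕ in atTop, ∀ k b B n L h l a : ℕ,
    b = Nat.log 2 (Nat.log 2 N) → k ≤ b ^ 2 → B = k + 3 → n = root B N →
      L = Nat.log 2 n → h = Nat.log 2 N + 3 → l = 2 * B * (c + 1) + 2 → a = B * c + 1 →
    (n ^ B ≤ N ∧ 1 ≤ L ∧ 2 * (L + 1) ≤ n ∧ l * (l - 1) ≤ L ∧ 2 ≤ a * (L + 1)) ∧
    (2 ^ h * (N ^ c * ((a * (L + 1)) ^ l * l.factorial) ^ 2) ≤ (n / (L + 1)) ^ (l + 1) ∧
    4 * (N ^ c * ((a * (L + 1)) ^ l * l.factorial) ^ 2) ≤ 2 ^ (a * (L + 1))) ∧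
    N < 2 ^ h ∧
    (n ^ (k + 1) * n ^ (L + 1) ≤ 2 ^ (Nat.log 2 N ^ 3) ∧ (L + 1) * (L + 1) ≤ Nat.log 2 N ^ 3) ∧
    (50 * (b + 1) ^ 4 ≤ L ∧ B ≤ 2 * (b + 1) ^ 2 ∧ Nat.log 2 N < 2 ^ (b + 1)) ∧
    ∀ g : ℕ, (g : ℝ) ≤ (N : ℝ) ^ (1 / (4 * (B : ℕ)) : ℝ) → 2 * (3 * (g + h)) ≤ n := by
  have e1 := tendsto_log.eventually (ev_log (102 * (c + 1) ^ 2) 6)
  have e5 := tendsto_log.eventually (eventually_ge_atTop 1)
  have e6 := (tendsto_log.comp tendsto_log).eventually (eventually_ge_atTop 1)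
  filter_upwards [e1, e5, e6, eventually_ge_atTop 1] with N e1 e5 e6 hN1
  intro k b B n L h l a hb hk hB hn hL hh hl ha
  simp only [Function.comp_apply] at e6
  rw [← hb] at e1 e6
  have hBb : B ≤ 2 * (b + 1) ^ 2 := by nlinarith
  have hB0 : 0 < B := by omega
  have hnB : n ^ B ≤ N := by rw [hn]; exact root_pow hB0
  have hNn : N < (n + 1) ^ B := by rw [hn]; exact lt_root hB0
  have hnL : n < 2 ^ (L + 1) := by rw [hL]; exact Nat.lt_pow_succ_log_self (by norm_num) n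
  have hlogN2 := est_logN hnL hNn hN1
  have hn1 : 1 ≤ n := by
    refine Nat.one_le_iff_ne_zero.2 fun h0 => ?_
    rw [h0, zero_add, one_pow] at hNn
    omega
  have hLn : 2 ^ L ≤ n := by rw [hL]; exact Nat.pow_log_le_self 2 (by omega)
  have hlogN : L ≤ Nat.log 2 N := by
    rw [hL]
    exact Nat.log_mono_right (le_trans (Nat.le_self_pow hB0.ne' n) hnB)
  have hXb : Nat.log 2 N < 2 ^ (b + 1) := by
    rw [hb]
    exact Nat.lt_pow_succ_log_self (by norm_num) _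
  have hLX : L + 1 ≤ 2 ^ (b + 1) := by omega
  obtain ⟨f0, f1, f2, f3, f4, f5⟩ := est_all' (by omega) hBb hl ha e1 hlogN2 hLX
  have hN2 : N < 2 ^ B * n ^ B := by
    rw [← mul_pow]
    exact lt_of_lt_of_le hNn (Nat.pow_le_pow_left (by omega) _)
  have hK : 2 ^ h ≤ 8 * N := by rw [hh]; exact est_K hN1
  have hs := est_s hN2 c
  obtain ⟨M, hMdef⟩ : ∃ M, M = ((a * (L + 1)) ^ l * l.factorial) ^ 2 := ⟨_, rfl⟩
  have hM : 8 * 2 ^ (B * (c + 1)) * M ≤ n := by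
    rw [hMdef, est_M, ← mul_assoc]
    exact f2.trans hLn
  have hq := est_q (f3.trans hLn)
  have hq1 : 1 ≤ n / (L + 1) := by
    refine Nat.pos_of_ne_zero fun h0 => ?_
    rw [h0] at hq
    omega
  have hcube := est_up hB hBb f0 hlogN
  have hb4 : 1 ≤ (b + 1) ^ 4 := Nat.one_le_pow _ _ (Nat.succ_pos b)
  rw [← hMdef]
  refine ⟨⟨hnB, by omega, ?_, f1, ?_⟩, ⟨?_, ?_⟩, ?_, ⟨?_, hcube.2⟩, ⟨f0, hBb, hXb⟩, ?_⟩
  · have := f3.trans hLn
    nlinarith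
  · rw [ha]
    have h1 : 1 * (L + 1) ≤ (B * c + 1) * (L + 1) := Nat.mul_le_mul_right _ (by omega)
    omega
  · have := est_iv hs hK hN2 hM hq hq1
    rw [← hl] at this
    exact this
  · have := est_v hs hM hnL.le
    rw [← ha] at this
    exact this
  · rw [hh]
    calc N < 2 ^ (Nat.log 2 N + 1) := Nat.lt_pow_succ_log_self (by norm_num) N
      _ ≤ 2 ^ (Nat.log 2 N + 3) := Nat.pow_le_pow_right (by norm_num) (by omega)
  · calc n ^ (k + 1) * n ^ (L + 1) = n ^ (k + 1 + (L + 1)) := (pow_add _ _ _).symm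
      _ ≤ (2 ^ (L + 1)) ^ (k + 1 + (L + 1)) := Nat.pow_le_pow_left hnL.le _
      _ = 2 ^ ((L + 1) * (k + 1 + (L + 1))) := (pow_mul _ _ _).symm
      _ ≤ _ := Nat.pow_le_pow_right (by norm_num) hcube.1
  · intro g hg
    have hg4 := est_g4 hB0 hN2 hg
    have hg2 : 2 ^ (B + 1) * 6 * g ≤ n := est_g hg4 (f5.trans hLn) hn1
    have hh2 : h ≤ (B + 3) * (L + 1) := by
      have h2 : (B + 3) * (L + 1) = B * (L + 1) + 3 * (L + 1) := by ring
      omega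
    have hr := est_r hh2 (f4.trans hLn) hg2
    have h1 : 2 ≤ 2 ^ B := by
      calc 2 = 2 ^ 1 := by norm_num
        _ ≤ 2 ^ B := Nat.pow_le_pow_right (by norm_num) hB0
    calc 2 * (3 * (g + h)) ≤ 2 ^ B * (3 * (g + h) + 1) := Nat.mul_le_mul h1 (by omega)
      _ ≤ n := hr

end Pool.Agent.J6H27.MPH
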