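import Pool.Agent.J6H27.MPH.Game4
import Pool.Agent.J6H27.MPH.Num4

/-!
# Arthur-Merlin games: a growing number of rounds
-/

set_option autoImplicit false

namespace Pool.Agent.J6H27.MPH

open Filter Pool.Agent.H520R2 Pool.Agent.H520R2.NM

theorem le_x {B N n L y : ℕ} {x : ℝ} (hB : 0 < B) (hx : x = (N : ℝ) ^ (1 / (16 * (B : ℕ)) : ℝ))
    (hnB : n ^ B ≤ N) (hLn : 2 ^ L ≤ n) (hy : y ^ 16 ≤ 2 ^ L) : (y : ℝ) ≤ x := by
  have hB0 : (0 : ℝ) < B := by exact_mod_cast hB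
  have hx0 : 0 ≤ x := by rw [hx]; exact Real.rpow_nonneg (Nat.cast_nonneg N) _
  have h1 : (n : ℝ) ≤ x ^ 16 := by
    have h2 : x ^ 16 = (N : ℝ) ^ (1 / (B : ℕ) : ℝ) := by
      rw [hx, ← Real.rpow_natCast, ← Real.rpow_mul (Nat.cast_nonneg N)]
      congr 1
      push_cast
      field_simp
    rw [h2]
    have h3 : ((n : ℝ) ^ (B : ℕ)) ≤ N := by exact_mod_cast hnB
    calc (n : ℝ) = ((n : ℝ) ^ (B : ℕ)) ^ (1 / (B : ℕ) : ℝ) := by
          rw [← Real.rpow_natCast, ← Real.rpow_mul (Nat.cast_nonneg n), mul_one_div_cancel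
            hB0.ne', Real.rpow_one]
      _ ≤ _ := Real.rpow_le_rpow (by positivity) h3 (by positivity)
  have h2 : (y : ℝ) ^ 16 ≤ x ^ 16 := by
    refine le_trans ?_ h1
    exact_mod_cast hy.trans hLn
  exact le_of_pow_le_pow_left₀ (by norm_num) hx0 h2

theorem est_y {b k L X : ℕ} (hb : 1 ≤ b) (hk : k ≤ b ^ 2) (hL : 50 * (b + 1) ^ 4 ≤ L)
    (hX : X < 2 ^ (b + 1)) : (X + 3) ^ 16 ≤ 2 ^ L ∧ (2 * (3 * k + 5) ^ 2) ^ 16 ≤ 2 ^ L := by
  have h1 : 8 * (b + 1) ≤ (b + 1) ^ 4 := by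
    calc 8 * (b + 1) ≤ (b + 1) ^ 3 * (b + 1) := by
          refine Nat.mul_le_mul_right _ ?_
          calc 8 = 2 ^ 3 := by norm_num
            _ ≤ (b + 1) ^ 3 := Nat.pow_le_pow_left (by omega) 3
      _ = (b + 1) ^ 4 := by ring
  have hb2 : b + 1 ≤ 2 ^ b := Nat.lt_two_pow_self
  constructor
  · calc (X + 3) ^ 16 ≤ (2 ^ (b + 3)) ^ 16 := by
          refine Nat.pow_le_pow_left ?_ _
          have : 2 ^ (b + 3) = 4 * 2 ^ (b + 1) := by ring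
          have : 1 ≤ 2 ^ (b + 1) := Nat.one_le_two_pow
          omega
      _ = 2 ^ ((b + 3) * 16) := (pow_mul _ _ _).symm
      _ ≤ 2 ^ L := Nat.pow_le_pow_right (by norm_num) (by omega)
  · have h2 : 3 * k + 5 ≤ 2 ^ (2 * b + 3) := by
      calc 3 * k + 5 ≤ 5 * (b + 1) ^ 2 := by nlinarith
        _ ≤ 8 * (2 ^ b) ^ 2 := Nat.mul_le_mul (by norm_num) (Nat.pow_le_pow_left hb2 2)
        _ = 2 ^ (2 * b + 3) := by
            rw [pow_add, pow_mul', mul_comm]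
            norm_num
    calc (2 * (3 * k + 5) ^ 2) ^ 16 ≤ (2 * (2 ^ (2 * b + 3)) ^ 2) ^ 16 :=
          Nat.pow_le_pow_left (Nat.mul_le_mul_left _ (Nat.pow_le_pow_left h2 2)) _
      _ = 2 ^ ((1 + (2 * b + 3) * 2) * 16) := by
          rw [← pow_mul, ← pow_succ', ← pow_mul]
          congr 1
          ring
      _ ≤ 2 ^ L := Nat.pow_le_pow_right (by norm_num) (by omega)

/-- **The theorem.** -/
theorem am_rounds (k : ℕ → ℕ)
    (hk : ∀ᶠ N : ℕ in atTop, k N ≤ Nat.log 2 (Nat.log 2 N) ^ 2) :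
    ∃ f : ∀ N : ℕ, (Fin N → Bool) → Prop,
      (∀ᶠ N : ℕ in atTop, Level (Nat.log 2 N ^ 3) (Nat.log 2 N ^ 3) 1 false (f N)) ∧
      ∀ c : ℕ, ∀ᶠ N : ℕ in atTop, ∀ (g : ℕ) (v : (Fin N → Bool) → ℝ),
        (g : ℝ) ≤ (N : ℝ) ^ (1 / (16 * (k N + 3 : ℕ)) : ℝ) → Game g (N ^ c) (k N) v →
        ∀ α : ℝ, ¬ ((∀ x, f N x → α + (N : ℝ) ^ (-(1 / (16 * (k N + 3 : ℕ))) : ℝ) ≤ v x) ∧
          ∀ x, ¬ f N x → v x ≤ α) := by
  refine ⟨fun N => gfam (k N + 3) (k N) N, ?_, ?_⟩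
  · filter_upwards [numbers3 1, hk] with N hN hk
    obtain ⟨⟨h1, h2, h3, _, _⟩, _, _, ⟨h4, h5⟩, _⟩ :=
      hN (k N) _ _ _ _ _ _ _ rfl hk rfl rfl rfl rfl rfl rfl
    exact gfam_upper le_rfl h1 h3 h4 h5
  · intro c
    have e6 := (tendsto_log.comp tendsto_log).eventually (eventually_ge_atTop 1)
    filter_upwards [numbers3 c, hk, e6, eventually_ge_atTop 1] with N hN hk e6 e3
    intro g v hg hv α
    simp only [Function.comp_apply] at e6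
    obtain ⟨m, hm⟩ : ∃ m, m = k N := ⟨_, rfl⟩
    rw [← hm] at hk hg hv ⊢
    obtain ⟨⟨hnB, hL, h2L, hll, hp⟩, ⟨h1, h2⟩, hNh, _, ⟨f0, f1, f2⟩, h3⟩ :=
      hN m _ _ _ _ _ _ _ rfl hk rfl rfl rfl rfl rfl rfl
    have hN0 : (0 : ℝ) < N := by exact_mod_cast e3
    obtain ⟨x, hx⟩ : ∃ x, x = (N : ℝ) ^ (1 / (16 * (m + 3 : ℕ)) : ℝ) := ⟨_, rfl⟩
    have hm0 : (0 : ℝ) ≤ m := Nat.cast_nonneg m
    have hLn : 2 ^ (Nat.log 2 (root (m + 3) N)) ≤ root (m + 3) N :=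
      Nat.pow_log_le_self 2 (by omega)
    obtain ⟨g1, g2⟩ := est_y e6 hk f0 f2
    have e1 := le_x (by omega) hx hnB hLn g1
    have e2 := le_x (by omega) hx hnB hLn g2
    push_cast at e2
    rw [← hx] at hg
    have hx1 : 1 ≤ x := by nlinarith
    obtain ⟨E, hE3, hE1, hE2⟩ := exists_E (m := m) (h := Nat.log 2 N + 3) hx1 hg e1
    have hx4 : x ^ 4 = (N : ℝ) ^ (1 / (4 * (m + 3 : ℕ)) : ℝ) := by
      have : (0 : ℝ) < ((m + 3 : ℕ) : ℝ) := by positivity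
      rw [hx, ← Real.rpow_natCast, ← Real.rpow_mul hN0.le]
      congr 1
      push_cast
      field_simp
      norm_num
    have hbig : ((E ^ 2 * (g + (Nat.log 2 N + 3)) : ℕ) : ℝ) ≤
        (N : ℝ) ^ (1 / (4 * (m + 3 : ℕ)) : ℝ) := by
      refine hE2.trans ?_
      rw [← hx4]
      have h5 : 0 ≤ x ^ 3 := by positivity
      nlinarith
    have hr := h3 _ hbig
    refine gfam_lower le_rfl le_rfl (l := 2 * (m + 3) * (c + 1) + 2) (by omega) hnB hL h2L hll hp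
      h1 h2 hNh hE3 hr hv ?_
    have : (N : ℝ) ^ (-(1 / (16 * (m + 3 : ℕ))) : ℝ) = 1 / x := by
      rw [Real.rpow_neg hN0.le, ← hx, one_div]
    rw [this]
    exact hE1

end Pool.Agent.J6H27.MPH
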