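import Pool.Agent.J6H27.MPH.Num

/-!
# The numbers for an unbounded number of alternations
-/

set_option autoImplicit false

namespace Pool.Agent.J6H27.MPH

open Filter

/-- the order of the root, for `b = log log N` alternations -/
def ord (b : ℕ) : ℕ := b ^ 2 + b + 2

theorem ord_le (b : ℕ) : ord b ≤ 2 * (b + 1) ^ 2 := by
  unfold ord
  nlinarith

theorem fact_le_pow' {l V : ℕ} (h : l ≤ V) : l.factorial ≤ V ^ l :=
  (Nat.factorial_le_pow l).trans (Nat.pow_le_pow_left h l)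

/-- the estimates for one `N` -/
theorem est_all {c b X L B l a : ℕ} (hB : B = ord b) (hl : l = 2 * B * (c + 1) + 2)
    (ha : a = B * c + 1) (hX : 102 * (c + 1) ^ 2 * (b + 1) ^ 6 ≤ X) (hXL : X < B * (L + 1))
    (hLX : L + 1 ≤ 2 ^ (b + 1)) :
    l * (l - 1) + 2 * (b ^ 2 + 2) + 2 ≤ L ∧
    8 * 2 ^ (B * (c + 1)) * (a ^ l * l.factorial) ^ 2 * (L + 1) ^ (2 * l) ≤ 2 ^ L ∧
    4 * (L + 1) ^ 2 ≤ 2 ^ L ∧
    2 ^ (B + 3) * (3 * (B + 3) + 1) * (L + 1) ≤ 2 ^ L ∧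
    2 * (2 ^ (B + 1) * 6) ^ 4 ≤ 2 ^ L := by
  obtain ⟨V, hV⟩ : ∃ V, V = b + 1 := ⟨_, rfl⟩
  obtain ⟨e, he⟩ : ∃ e, e = c + 1 := ⟨_, rfl⟩
  have hV1 : 1 ≤ V := by omega
  have he1 : 1 ≤ e := by omega
  have hBV : B ≤ 2 * V ^ 2 := by rw [hB, hV]; exact ord_le b
  have hB2 : 2 ≤ B := by rw [hB]; unfold ord; omega
  rw [← he] at hl hX
  rw [← hV] at hX hLX
  have hV2 : V ^ 2 ≤ V ^ 3 := Nat.pow_le_pow_right hV1 (by norm_num)
  have hV3 : V ^ 3 ≤ V ^ 4 := Nat.pow_le_pow_right hV1 (by norm_num)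
  have hV0 : 1 ≤ V ^ 2 := Nat.one_le_pow _ _ hV1
  have hVV : V ≤ V ^ 2 := by nlinarith
  have he2 : e ≤ e ^ 2 := by nlinarith
  -- the lower bound for L
  have hL : 50 * V ^ 4 * e ^ 2 < L + 1 := by
    have h1 : B * (50 * V ^ 4 * e ^ 2 + 1) ≤ X := by
      calc B * (50 * V ^ 4 * e ^ 2 + 1) ≤ (2 * V ^ 2) * (50 * V ^ 4 * e ^ 2 + V ^ 4 * e ^ 2) := by
            refine Nat.mul_le_mul hBV (Nat.add_le_add_left ?_ _)
            have : 1 ≤ V ^ 4 := Nat.one_le_pow _ _ hV1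
            have : 1 ≤ e ^ 2 := Nat.one_le_pow _ _ he1
            nlinarith
        _ = 102 * e ^ 2 * V ^ 6 := by ring
        _ ≤ X := hX
    have h2 : B * (50 * V ^ 4 * e ^ 2 + 1) < B * (L + 1) := lt_of_le_of_lt h1 hXL
    have := Nat.lt_of_mul_lt_mul_left h2
    omega
  have hP : 1 ≤ V ^ 4 * e ^ 2 := Nat.mul_pos (by positivity) (by positivity)
  -- the size of l
  have hl1 : l ≤ 6 * (V ^ 2 * e) := by
    have h1 : B * e ≤ 2 * V ^ 2 * e := Nat.mul_le_mul_right _ hBV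
    have h2 : 1 ≤ V ^ 2 * e := Nat.mul_pos (by omega) he1
    have h3 : l = 2 * (B * e) + 2 := by rw [hl]; ring
    have h4 : 2 * V ^ 2 * e = 2 * (V ^ 2 * e) := by ring
    omega
  have hll : l * l ≤ 36 * (V ^ 4 * e ^ 2) := by
    calc l * l ≤ (6 * (V ^ 2 * e)) * (6 * (V ^ 2 * e)) := Nat.mul_le_mul hl1 hl1
      _ = 36 * (V ^ 4 * e ^ 2) := by ring
  have h50 : 50 * V ^ 4 * e ^ 2 = 50 * (V ^ 4 * e ^ 2) := by ring
  have hV4P : V ^ 4 ≤ V ^ 4 * e ^ 2 := Nat.le_mul_of_pos_right _ (by positivity)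
  have hb2 : b ^ 2 ≤ V ^ 2 := Nat.pow_le_pow_left (by omega) 2
  have hl2 : 2 ≤ l := by omega
  have hlL : l ≤ L + 1 := by
    have : l ≤ l * l := Nat.le_mul_of_pos_left _ (by omega)
    omega
  have hal : a ≤ l := by
    have h3 : l = 2 * (B * e) + 2 := by rw [hl]; ring
    have h4 : B * c ≤ B * e := Nat.mul_le_mul_left _ (by omega)
    omega
  have hV3P : V ^ 3 * e ≤ V ^ 4 * e ^ 2 := Nat.mul_le_mul hV3 he2
  refine ⟨?_, ?_, ?_, ?_, ?_⟩
  · have h1 : l * (l - 1) ≤ l * l := Nat.mul_le_mul_left _ (by omega)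
    omega
  · have h1 : (a ^ l * l.factorial) ^ 2 ≤ (L + 1) ^ (4 * l) := by
      calc (a ^ l * l.factorial) ^ 2 ≤ ((L + 1) ^ l * (L + 1) ^ l) ^ 2 := by
            refine Nat.pow_le_pow_left (Nat.mul_le_mul ?_ ?_) 2
            · exact Nat.pow_le_pow_left (hal.trans hlL) l
            · exact fact_le_pow' hlL
        _ = (L + 1) ^ (4 * l) := by
            rw [← pow_add, ← pow_mul]
            congr 1
            ring
    calc 8 * 2 ^ (B * (c + 1)) * (a ^ l * l.factorial) ^ 2 * (L + 1) ^ (2 * l) ≤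
        8 * 2 ^ (B * (c + 1)) * (L + 1) ^ (4 * l) * (L + 1) ^ (2 * l) :=
          Nat.mul_le_mul_right _ (Nat.mul_le_mul_left _ h1)
      _ = 8 * 2 ^ (B * e) * (L + 1) ^ (6 * l) := by
          rw [mul_assoc, ← pow_add, ← he]
          congr 2
          ring
      _ ≤ 8 * 2 ^ (B * e) * (2 ^ V) ^ (6 * l) :=
          Nat.mul_le_mul_left _ (Nat.pow_le_pow_left hLX _)
      _ = 2 ^ (3 + B * e + V * (6 * l)) := by
          rw [pow_add, pow_add, pow_mul 2 V]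
          norm_num
      _ ≤ 2 ^ L := by
          refine Nat.pow_le_pow_right (by norm_num) ?_
          have h2 : B * e ≤ 2 * V ^ 2 * e := Nat.mul_le_mul_right _ hBV
          have h3 : V * (6 * l) ≤ V * (6 * (6 * (V ^ 2 * e))) :=
            Nat.mul_le_mul_left _ (Nat.mul_le_mul_left _ hl1)
          have h4 : V * (6 * (6 * (V ^ 2 * e))) = 36 * (V ^ 3 * e) := by ring
          have h5 : 2 * V ^ 2 * e ≤ 2 * (V ^ 3 * e) := by
            rw [mul_assoc]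
            exact Nat.mul_le_mul_left _ (Nat.mul_le_mul_right _ hV2)
          omega
  · calc 4 * (L + 1) ^ 2 ≤ 4 * (2 ^ V) ^ 2 := Nat.mul_le_mul_left _ (Nat.pow_le_pow_left hLX _)
      _ = 2 ^ (2 + V * 2) := by rw [pow_add, pow_mul]; norm_num
      _ ≤ 2 ^ L := Nat.pow_le_pow_right (by norm_num) (by omega)
  · have h1 : 3 * (B + 3) + 1 ≤ 2 ^ (B + 4) := by
      have : B + 3 < 2 ^ (B + 3) := Nat.lt_two_pow_self
      have h2 : ∀ x : ℕ, 3 * (x + 2 + 3) + 1 ≤ 2 ^ (x + 2 + 4) := by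
        intro x
        induction x with
        | zero => norm_num
        | succ x ih =>
          have : 2 ^ (x + 1 + 2 + 4) = 2 * 2 ^ (x + 2 + 4) := by ring
          omega
      have h3 := h2 (B - 2)
      have h4 : B - 2 + 2 = B := by omega
      rw [h4] at h3
      exact h3
    calc 2 ^ (B + 3) * (3 * (B + 3) + 1) * (L + 1) ≤ 2 ^ (B + 3) * 2 ^ (B + 4) * 2 ^ V :=
          Nat.mul_le_mul (Nat.mul_le_mul_left _ h1) hLX
      _ = 2 ^ (B + 3 + (B + 4) + V) := by rw [← pow_add, ← pow_add]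
      _ ≤ 2 ^ L := Nat.pow_le_pow_right (by norm_num) (by omega)
  · calc 2 * (2 ^ (B + 1) * 6) ^ 4 ≤ 2 * (2 ^ (B + 1) * 2 ^ 3) ^ 4 := by
          refine Nat.mul_le_mul_left _ (Nat.pow_le_pow_left (Nat.mul_le_mul_left _ ?_) 4)
          norm_num
      _ = 2 ^ (1 + (B + 1 + 3) * 4) := by
          rw [← pow_add 2 (B + 1) 3, ← pow_mul, pow_add 2 1, pow_one]
      _ ≤ 2 ^ L := Nat.pow_le_pow_right (by norm_num) (by omega)

/-- squares of logarithms are small -/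
theorem ev_rpow (ε : ℝ) (hε : 0 < ε) :
    ∀ᶠ X : ℕ in atTop, (4 * (ord (Nat.log 2 X) : ℕ) : ℝ) ≤ (X : ℝ) ^ ε := by
  have h4 : 0 < ε / 4 := by positivity
  have h1 : ∀ᶠ X : ℕ in atTop, Real.log X ≤ (X : ℝ) ^ (ε / 4) := by
    have h := (isLittleO_log_rpow_atTop h4).bound (show (0 : ℝ) < 1 by norm_num)
    have h' := (tendsto_natCast_atTop_atTop (R := ℝ)).eventually h
    filter_upwards [h', eventually_ge_atTop 1] with X hX h1
    have h2 : (1 : ℝ) ≤ X := by exact_mod_cast h1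
    rw [Real.norm_of_nonneg (Real.log_nonneg h2),
      Real.norm_of_nonneg (Real.rpow_nonneg (by linarith) _), one_mul] at hX
    exact hX
  have h2 : ∀ᶠ X : ℕ in atTop, (72 : ℝ) ≤ (X : ℝ) ^ (ε / 2) :=
    ((tendsto_rpow_atTop (show 0 < ε / 2 by positivity)).comp
      tendsto_natCast_atTop_atTop).eventually_ge_atTop 72
  filter_upwards [h1, h2, eventually_ge_atTop 1] with X h1 h2 h3
  have hX : (1 : ℝ) ≤ X := by exact_mod_cast h3
  have hX0 : (0 : ℝ) < X := by linarith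
  have h5 : (1 : ℝ) ≤ (X : ℝ) ^ (ε / 4) := Real.one_le_rpow hX h4.le
  have hlog : ((Nat.log 2 X : ℕ) : ℝ) ≤ 2 * (X : ℝ) ^ (ε / 4) := by
    have h6 : ((2 ^ (Nat.log 2 X) : ℕ) : ℝ) ≤ X := by
      exact_mod_cast Nat.pow_log_le_self 2 (by omega)
    have h7 : ((Nat.log 2 X : ℕ) : ℝ) * Real.log 2 ≤ Real.log X := by
      rw [← Real.log_pow]
      refine Real.log_le_log (by positivity) ?_
      rw [Nat.cast_pow] at h6
      exact_mod_cast h6
    have h8 : (0.69 : ℝ) < Real.log 2 := by linarith [Real.log_two_gt_d9]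
    have h9 : (0 : ℝ) ≤ (Nat.log 2 X : ℕ) := Nat.cast_nonneg _
    nlinarith
  have hord : ((ord (Nat.log 2 X) : ℕ) : ℝ) ≤ 18 * ((X : ℝ) ^ (ε / 4)) ^ 2 := by
    have h6 : ((ord (Nat.log 2 X) : ℕ) : ℝ) ≤ ((2 * (Nat.log 2 X + 1) ^ 2 : ℕ) : ℝ) := by
      exact_mod_cast ord_le _
    refine h6.trans ?_
    push_cast
    have h9 : (0 : ℝ) ≤ (Nat.log 2 X : ℕ) := Nat.cast_nonneg _
    nlinarith
  calc (4 * (ord (Nat.log 2 X) : ℕ) : ℝ) ≤ 72 * ((X : ℝ) ^ (ε / 4)) ^ 2 := by linarith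
    _ = 72 * (X : ℝ) ^ (ε / 2) := by
        rw [← Real.rpow_natCast, ← Real.rpow_mul hX0.le]
        congr 2
        push_cast
        ring
    _ ≤ (X : ℝ) ^ (ε / 2) * (X : ℝ) ^ (ε / 2) :=
        mul_le_mul_of_nonneg_right h2 (Real.rpow_nonneg hX0.le _)
    _ = (X : ℝ) ^ ε := by
        rw [← Real.rpow_add hX0]
        congr 1
        ring

/-- **The numbers.** -/
theorem numbers2 (c : ℕ) (ε : ℝ) (hε : 0 < ε) : ∀ᶠ N : ℕ in atTop, ∀ b A B n L h l a : ℕ,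
    b = Nat.log 2 (Nat.log 2 N) → A = b ^ 2 → B = A + b + 2 → n = root B N →
      L = Nat.log 2 n → h = Nat.log 2 N + 3 → l = 2 * B * (c + 1) + 2 → a = B * c + 1 →
    1 ≤ A ∧
    (n ^ B ≤ N ∧ 1 ≤ L ∧ 2 * (L + 1) ≤ n ∧ l * (l - 1) ≤ L ∧ 2 ≤ a * (L + 1)) ∧
    (2 ^ h * (N ^ c * ((a * (L + 1)) ^ l * l.factorial) ^ 2) ≤ (n / (L + 1)) ^ (l + 1) ∧
    4 * (N ^ c * ((a * (L + 1)) ^ l * l.factorial) ^ 2) ≤ 2 ^ (a * (L + 1))) ∧
    N < 2 ^ h ∧
    (n ^ A * n ^ (L + 1) ≤ 2 ^ (Nat.log 2 N ^ 3) ∧ (L + 1) * (L + 1) ≤ Nat.log 2 N ^ 3) ∧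
    ∀ g : ℕ, (g : ℝ) ≤ (2 : ℝ) ^ (((Nat.log 2 N : ℕ) : ℝ) ^ (1 - ε)) →
      2 * (3 * (g + h)) ≤ n ∧
      ∀ W : ℕ, (W : ℝ) ≤ (N : ℝ) ^ (1 - ε) → W ≤ N ∧ W * (3 * (g + h) + 1) ≤ n ^ A := by
  obtain ⟨ε', hε', hε'1, hε'2⟩ : ∃ ε' : ℝ, 0 < ε' ∧ ε' ≤ 1 ∧ ε' ≤ ε :=
    ⟨min ε 1, lt_min hε one_pos, min_le_right _ _, min_le_left _ _⟩
  have e1 := tendsto_log.eventually (ev_log (102 * (c + 1) ^ 2) 6)
  have e2 := tendsto_log.eventually (ev_rpow ε hε)
  have e3 : ∀ᶠ b : ℕ in atTop, (b : ℝ) + 3 ≤ ((b ^ 2 : ℕ) : ℝ) * ε' := by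
    obtain ⟨M, hM⟩ := exists_nat_ge (4 / ε')
    filter_upwards [eventually_ge_atTop (M + 1)] with b hb
    have h1 : (M : ℝ) ≤ b := by exact_mod_cast (by omega : M ≤ b)
    have h2 : 4 / ε' ≤ b := hM.trans h1
    rw [div_le_iff₀ hε'] at h2
    have h3 : (1 : ℝ) ≤ b := by exact_mod_cast (by omega : 1 ≤ b)
    push_cast
    nlinarith
  have e4 := (tendsto_log.comp tendsto_log).eventually e3
  have e5 := tendsto_log.eventually (eventually_ge_atTop 1)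
  have e6 := (tendsto_log.comp tendsto_log).eventually (eventually_ge_atTop 1)
  filter_upwards [e1, e2, e4, e5, e6, eventually_ge_atTop 1] with N e1 e2 e4 e5 e6 hN1
  intro b A B n L h l a hb hA hB hn hL hh hl ha
  simp only [Function.comp_apply] at e4 e6
  rw [← hb] at e1 e4 e6
  have hBo : B = ord b := by rw [hB, hA]; rfl
  have hA1 : 1 ≤ A := by rw [hA]; exact Nat.one_le_pow _ _ e6
  have hB0 : 0 < B := by omega
  have hnB : n ^ B ≤ N := by rw [hn]; exact root_pow hB0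
  have hNn : N < (n + 1) ^ B := by rw [hn]; exact lt_root hB0
  have hnL : n < 2 ^ (L + 1) := by rw [hL]; exact Nat.lt_pow_succ_log_self (by norm_num) n
  have hlogN2 := est_logN hnL hNn hN1
  have hn1 : 1 ≤ n := by
    refine Nat.one_le_iff_ne_zero.2 fun h0 => ?_
    rw [h0, zero_add, one_pow] at hNn
    omega
  have hLn : 2 ^ L ≤ n := by rw [hL]; exact Nat.pow_log_le_self 2 (by omega)
  have hlogN : L ≤ Nat.log 2 N := by
    rw [hL]
    exact Nat.log_mono_right (le_trans (Nat.le_self_pow hB0.ne' n) hnB)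
  have hLX : L + 1 ≤ 2 ^ (b + 1) := by
    have : Nat.log 2 N < 2 ^ (b + 1) := by
      rw [hb]
      exact Nat.lt_pow_succ_log_self (by norm_num) _
    omega
  obtain ⟨f1, f2, f3, f4, f5⟩ := est_all hBo hl ha e1 hlogN2 hLX
  have hN2 : N < 2 ^ B * n ^ B := by
    rw [← mul_pow]
    exact lt_of_lt_of_le hNn (Nat.pow_le_pow_left (by omega) _)
  have hK : 2 ^ h ≤ 8 * N := by rw [hh]; exact est_K hN1
  have hs := est_s hN2 c
  obtain ⟨M, hMdef⟩ : ∃ M, M = ((a * (L + 1)) ^ l * l.factorial) ^ 2 := ⟨_, rfl⟩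
  have hM : 8 * 2 ^ (B * (c + 1)) * M ≤ n := by
    rw [hMdef, est_M, ← mul_assoc]
    exact f2.trans hLn
  have hq := est_q (f3.trans hLn)
  have hq1 : 1 ≤ n / (L + 1) := by
    refine Nat.pos_of_ne_zero fun h0 => ?_
    rw [h0] at hq
    omega
  have hcube := est_cube (A := A) (L := L) (X := Nat.log 2 N) (by rw [hA]; omega) hlogN
  rw [← hMdef]
  refine ⟨hA1, ⟨hnB, by omega, ?_, by omega, ?_⟩, ⟨?_, ?_⟩, ?_, ⟨?_, hcube.2⟩, ?_⟩
  · have := f3.trans hLn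
    nlinarith
  · rw [ha]
    have h1 : 1 * (L + 1) ≤ (B * c + 1) * (L + 1) := Nat.mul_le_mul_right _ (by omega)
    omega
  · have := est_iv hs hK hN2 hM hq hq1
    rw [← hl] at this
    exact this
  · have := est_v hs hM hnL.le
    rw [← ha] at this
    exact this
  · rw [hh]
    calc N < 2 ^ (Nat.log 2 N + 1) := Nat.lt_pow_succ_log_self (by norm_num) N
      _ ≤ 2 ^ (Nat.log 2 N + 3) := Nat.pow_le_pow_right (by norm_num) (by omega)
  · calc n ^ A * n ^ (L + 1) = n ^ (A + (L + 1)) := (pow_add _ _ _).symm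
      _ ≤ (2 ^ (L + 1)) ^ (A + (L + 1)) := Nat.pow_le_pow_left hnL.le _
      _ = 2 ^ ((L + 1) * (A + (L + 1))) := (pow_mul _ _ _).symm
      _ ≤ _ := Nat.pow_le_pow_right (by norm_num) hcube.1
  · intro g hg
    have hgN : (g : ℝ) ≤ (N : ℝ) ^ (1 / (4 * B) : ℝ) := by
      have hX1 : (1 : ℝ) ≤ (Nat.log 2 N : ℕ) := by exact_mod_cast e5
      have hX0 : (0 : ℝ) < (Nat.log 2 N : ℕ) := by linarith
      have hBpos : (0 : ℝ) < B := by exact_mod_cast hB0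
      have h1 : ((Nat.log 2 N : ℕ) : ℝ) ^ (1 - ε) ≤ ((Nat.log 2 N : ℕ) : ℝ) * (1 / (4 * B)) := by
        rw [Real.rpow_sub hX0, Real.rpow_one, mul_one_div]
        refine div_le_div_of_nonneg_left hX0.le (by positivity) ?_
        rw [hb, ] at hBo
        rw [hBo]
        exact e2
      calc (g : ℝ) ≤ (2 : ℝ) ^ (((Nat.log 2 N : ℕ) : ℝ) ^ (1 - ε)) := hg
        _ ≤ (2 : ℝ) ^ (((Nat.log 2 N : ℕ) : ℝ) * (1 / (4 * B))) :=
            Real.rpow_le_rpow_of_exponent_le (by norm_num) h1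
        _ = ((2 : ℝ) ^ ((Nat.log 2 N : ℕ) : ℝ)) ^ (1 / (4 * B) : ℝ) :=
            Real.rpow_mul (by norm_num) _ _
        _ ≤ (N : ℝ) ^ (1 / (4 * B) : ℝ) := by
            refine Real.rpow_le_rpow (by positivity) ?_ (by positivity)
            rw [Real.rpow_natCast]
            exact_mod_cast Nat.pow_log_le_self 2 (by omega)
    have hg4 := est_g4 hB0 hN2 hgN
    have hg2 : 2 ^ (B + 1) * 6 * g ≤ n := est_g hg4 (f5.trans hLn) hn1
    have hh2 : h ≤ (B + 3) * (L + 1) := by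
      have h2 : (B + 3) * (L + 1) = B * (L + 1) + 3 * (L + 1) := by ring
      omega
    have hr := est_r hh2 (f4.trans hLn) hg2
    refine ⟨?_, ?_⟩
    · have h1 : 2 ≤ 2 ^ B := by
        calc 2 = 2 ^ 1 := by norm_num
          _ ≤ 2 ^ B := Nat.pow_le_pow_right (by norm_num) hB0
      calc 2 * (3 * (g + h)) ≤ 2 ^ B * (3 * (g + h) + 1) := Nat.mul_le_mul h1 (by omega)
        _ ≤ n := hr
    · intro W hW
      have hN1' : (1 : ℝ) ≤ N := by exact_mod_cast hN1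
      have hW2 : (W : ℝ) ≤ (N : ℝ) ^ (1 - ε') :=
        hW.trans (Real.rpow_le_rpow_of_exponent_le hN1' (by linarith))
      rw [← hA] at e4
      obtain ⟨h1, h2⟩ := est_W hε'.le hε'1 hA1 hB e4 hN2 hn1 hN1 hW2
      refine ⟨h1, ?_⟩
      calc W * (3 * (g + h) + 1) ≤ (2 ^ B * n ^ (A - 1)) * (3 * (g + h) + 1) :=
            Nat.mul_le_mul_right _ h2
        _ = (2 ^ B * (3 * (g + h) + 1)) * n ^ (A - 1) := by ring
        _ ≤ n * n ^ (A - 1) := Nat.mul_le_mul_right _ hr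
        _ = n ^ A := by
            rw [← pow_succ']
            congr 1
            omega

end Pool.Agent.J6H27.MPH
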