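import Pool.Agent.J6H27.MPH.Game3
import Pool.Agent.J6H27.MPH.Num3

/-!
# Arthur-Merlin games: the families
-/

set_option autoImplicit false

namespace Pool.Agent.J6H27.MPH

open Filter Pool.Agent.H520R2 Pool.Agent.H520R2.NM

open Classical in
/-- The family: a conjunction, over the leaves of a tree of degree `n` and depth `m + 1`, of the
predicate that the graph in the leaf has no independent set with `log n + 1` vertices, where `n`
is the integral part of the root of `N` of order `B`, and the graphs have `n` vertices. -/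
noncomputable def gfam (B m N : ℕ) (x : Fin N → Bool) : Prop :=
  if h : Nonempty (Var (root B N) (root B N) (m + 1) ↪ Fin N)
  then AllT (root B N) (root B N) (Nat.log 2 (root B N) + 1) (m + 1) (fun v => x (h.some v))
  else False

theorem exists_emb' {t n m N : ℕ} (hn : 1 ≤ n) (h : t ^ m * n ^ 2 ≤ N) :
    Nonempty (Var t n m ↪ Fin N) := by
  let _ := varFintype t n m
  refine Function.Embedding.nonempty_of_card_le ?_
  rw [Fintype.card_fin]
  exact (card_var t n m hn).trans h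

theorem gfam_emb {B m N : ℕ} (hB : m + 3 ≤ B) (hn1 : 1 ≤ root B N) (hnB : root B N ^ B ≤ N) :
    Nonempty (Var (root B N) (root B N) (m + 1) ↪ Fin N) :=
  exists_emb' hn1 (by
    calc root B N ^ (m + 1) * root B N ^ 2 = root B N ^ (m + 3) := by rw [← pow_add]
      _ ≤ root B N ^ B := Nat.pow_le_pow_right hn1 hB
      _ ≤ N := hnB)

theorem gfam_upper {B m N G : ℕ} (hB : m + 3 ≤ B) (hnB : root B N ^ B ≤ N)
    (h2L : 2 * (Nat.log 2 (root B N) + 1) ≤ root B N)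
    (hg : root B N ^ (m + 1) * root B N ^ (Nat.log 2 (root B N) + 1) ≤ 2 ^ G)
    (hs : (Nat.log 2 (root B N) + 1) * (Nat.log 2 (root B N) + 1) ≤ G) :
    Level G G 1 false (gfam B m N) := by
  have hn1 : 1 ≤ root B N := by omega
  have hemb := gfam_emb hB hn1 hnB
  have hup := allT_level (t := root B N) (n := root B N) (k := Nat.log 2 (root B N) + 1)
    (g := G) (s := G) hn1 (by omega) hs (m + 1) hg
  have h1 := hup.subst (fun w => (Sum.inr (hemb.some w) : Bool ⊕ Fin N))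
  refine h1.congr fun x => ?_
  show _ ↔ gfam B m N x
  unfold gfam
  rw [dif_pos hemb]
  exact Iff.rfl

theorem gfam_lower {B m N g c l a k E : ℕ} (hB : m + 3 ≤ B) (hkm : k ≤ m) (hl2 : 2 ≤ l)
    (hnB : root B N ^ B ≤ N)
    (hL : 1 ≤ Nat.log 2 (root B N)) (h2L : 2 * (Nat.log 2 (root B N) + 1) ≤ root B N)
    (hll : l * (l - 1) ≤ Nat.log 2 (root B N)) (hp : 2 ≤ a * (Nat.log 2 (root B N) + 1))
    (h1 : 2 ^ (Nat.log 2 N + 3) * (N ^ c *
      ((a * (Nat.log 2 (root B N) + 1)) ^ l * l.factorial) ^ 2) ≤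
      (root B N / (Nat.log 2 (root B N) + 1)) ^ (l + 1))
    (h2 : 4 * (N ^ c * ((a * (Nat.log 2 (root B N) + 1)) ^ l * l.factorial) ^ 2) ≤
      2 ^ (a * (Nat.log 2 (root B N) + 1)))
    (hNh : N < 2 ^ (Nat.log 2 N + 3)) (hE3 : 3 ≤ E)
    (hr : 2 * (3 * (E ^ 2 * (g + (Nat.log 2 N + 3)) + (Nat.log 2 N + 3))) ≤ root B N)
    {v : (Fin N → Bool) → ℝ} (hv : Game g (N ^ c) k v) {α β : ℝ}
    (hβ : (3 * m + 3 : ℝ) / E < β) :
    ¬ ((∀ x, gfam B m N x → α + β ≤ v x) ∧ ∀ x, ¬ gfam B m N x → v x ≤ α) := by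
  have hn1 : 1 ≤ root B N := by omega
  have hemb := gfam_emb hB hn1 hnB
  have hnN : root B N ≤ N := (Nat.le_self_pow (by omega) _).trans hnB
  have h3 := game_one (n := root B N) hkm hl2 hnN hL h2L hll hp h1 h2 hNh hE3 hr hemb.some
    hemb.some.injective hv (α := α) hβ
  unfold gfam
  simp only [dif_pos hemb]
  exact h3

/-! ### the numbers -/

theorem ev_const (C δ : ℝ) (hδ : 0 < δ) : ∀ᶠ N : ℕ in atTop, C ≤ (N : ℝ) ^ δ :=
  ((tendsto_rpow_atTop hδ).comp tendsto_natCast_atTop_atTop).eventually_ge_atTop C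

theorem ev_logpow (δ : ℝ) (hδ : 0 < δ) (C : ℝ) (hC : 0 < C) :
    ∀ᶠ N : ℕ in atTop, Real.log N ≤ C * (N : ℝ) ^ δ := by
  have h := (isLittleO_log_rpow_atTop hδ).bound hC
  have h' := (tendsto_natCast_atTop_atTop (R := ℝ)).eventually h
  filter_upwards [h', eventually_ge_atTop 1] with X hX h1
  have h2 : (1 : ℝ) ≤ X := by exact_mod_cast h1
  rw [Real.norm_of_nonneg (Real.log_nonneg h2),
    Real.norm_of_nonneg (Real.rpow_nonneg (by linarith) _)] at hX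
  exact hX

theorem log_le_real {N : ℕ} (hN : 1 ≤ N) : ((Nat.log 2 N : ℕ) : ℝ) ≤ 2 * Real.log N := by
  have hN0 : (0 : ℝ) < N := by exact_mod_cast hN
  have h6 : ((2 ^ (Nat.log 2 N) : ℕ) : ℝ) ≤ N := by
    exact_mod_cast Nat.pow_log_le_self 2 (by omega)
  have h7 : ((Nat.log 2 N : ℕ) : ℝ) * Real.log 2 ≤ Real.log N := by
    rw [← Real.log_pow]
    refine Real.log_le_log (by positivity) ?_
    rw [Nat.cast_pow] at h6
    exact_mod_cast h6
  have h8 : (0.69 : ℝ) < Real.log 2 := by linarith [Real.log_two_gt_d9]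
  have h9 : (0 : ℝ) ≤ (Nat.log 2 N : ℕ) := Nat.cast_nonneg _
  nlinarith

theorem ev_log3 (δ : ℝ) (hδ : 0 < δ) :
    ∀ᶠ N : ℕ in atTop, ((Nat.log 2 N : ℕ) : ℝ) + 3 ≤ (N : ℝ) ^ δ := by
  filter_upwards [ev_logpow δ hδ (1 / 4) (by norm_num), ev_const 6 δ hδ,
    eventually_ge_atTop 1] with N h1 h2 h3
  have := log_le_real h3
  linarith

theorem ev_exp (δ : ℝ) (hδ : 0 < δ) :
    ∀ᶠ X : ℕ in atTop, (X : ℝ) + 3 ≤ (2 : ℝ) ^ ((X : ℝ) ^ δ) := by
  filter_upwards [ev_logpow δ hδ (1 / 4) (by norm_num), eventually_ge_atTop 3] with X h1 h3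
  have h3' : (3 : ℝ) ≤ X := by exact_mod_cast h3
  have hX0 : (0 : ℝ) < X := by linarith
  calc (X : ℝ) + 3 ≤ (X : ℝ) ^ 2 := by nlinarith
    _ = Real.exp (Real.log X * 2) := by
        rw [Real.exp_mul, Real.exp_log hX0]
        norm_num
    _ ≤ Real.exp (Real.log 2 * (X : ℝ) ^ δ) := by
        refine Real.exp_le_exp.2 ?_
        have h8 : (0.69 : ℝ) < Real.log 2 := by linarith [Real.log_two_gt_d9]
        have h9 : 0 ≤ (X : ℝ) ^ δ := Real.rpow_nonneg hX0.le _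
        nlinarith
    _ = (2 : ℝ) ^ ((X : ℝ) ^ δ) := by
        rw [Real.rpow_def_of_pos (by norm_num : (0 : ℝ) < 2)]

/-- the number `E` -/
theorem exists_E {m g h : ℕ} {x : ℝ} (hx1 : 1 ≤ x) (hg : (g : ℝ) ≤ x) (hh : (h : ℝ) ≤ x) :
    ∃ E : ℕ, 3 ≤ E ∧ (3 * m + 3 : ℝ) / E < 1 / x ∧
      ((E ^ 2 * (g + h) : ℕ) : ℝ) ≤ 2 * (3 * m + 5) ^ 2 * x ^ 3 := by
  have hx0 : 0 < x := by linarith
  have hm : (0 : ℝ) ≤ m := Nat.cast_nonneg m
  have h1 : (3 * m + 4 : ℝ) * x ≤ ⌈(3 * m + 4 : ℝ) * x⌉₊ := Nat.le_ceil _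
  have h2 : (⌈(3 * m + 4 : ℝ) * x⌉₊ : ℝ) < (3 * m + 4 : ℝ) * x + 1 :=
    Nat.ceil_lt_add_one (by positivity)
  obtain ⟨E, hE⟩ : ∃ E, E = ⌈(3 * m + 4 : ℝ) * x⌉₊ := ⟨_, rfl⟩
  rw [← hE] at h1 h2
  have h3 : (E : ℝ) ≤ (3 * m + 5) * x := by nlinarith
  have h4 : (3 : ℝ) ≤ E := by nlinarith
  have hE0 : (0 : ℝ) < E := by linarith
  refine ⟨E, by exact_mod_cast h4, ?_, ?_⟩
  · rw [div_lt_div_iff₀ hE0 hx0, one_mul]
    nlinarith
  · push_cast
    have h5 : (E : ℝ) ^ 2 ≤ ((3 * m + 5) * x) ^ 2 := pow_le_pow_left₀ hE0.le h3 2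
    calc (E : ℝ) ^ 2 * (g + h) ≤ ((3 * m + 5) * x) ^ 2 * (x + x) :=
          mul_le_mul h5 (by linarith) (by positivity) (by positivity)
      _ = _ := by ring

/-- **The theorem for a constant number of rounds.** -/
theorem am_fixed (k : ℕ) :
    ∃ (δ : ℝ) (f : ∀ N : ℕ, (Fin N → Bool) → Prop), 0 < δ ∧
      (∀ᶠ N : ℕ in atTop, Level (Nat.log 2 N ^ 3) (Nat.log 2 N ^ 3) 1 false (f N)) ∧
      ∀ c : ℕ, ∀ᶠ N : ℕ in atTop, ∀ (g : ℕ) (v : (Fin N → Bool) → ℝ),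
        (g : ℝ) ≤ (N : ℝ) ^ δ → Game g (N ^ c) k v →
        ∀ α : ℝ, ¬ ((∀ x, f N x → α + (N : ℝ) ^ (-δ) ≤ v x) ∧ ∀ x, ¬ f N x → v x ≤ α) := by
  obtain ⟨A, hA1, hA⟩ := numbers k 1 one_pos
  obtain ⟨B, hB⟩ : ∃ B, B = A + k + 2 := ⟨_, rfl⟩
  rw [← hB] at hA
  have hB0 : 0 < B := by omega
  have hB0' : (0 : ℝ) < B := by exact_mod_cast hB0
  refine ⟨1 / (16 * B), gfam B k, by positivity, ?_, ?_⟩
  · obtain ⟨l, a, _, _, hev⟩ := hA 1
    have e3 := (tendsto_root hB0).eventually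
      (tendsto_log.eventually_ge_atTop (2 * ((k + 1) + 2) + 2))
    filter_upwards [hev, e3] with N hN e3
    obtain ⟨⟨hnB, hL, h2L, _, _⟩, _, _, ⟨_, hs⟩, _⟩ := hN _ _ _ rfl rfl rfl
    have hlogN : Nat.log 2 (root B N) ≤ Nat.log 2 N :=
      Nat.log_mono_right (le_trans (Nat.le_self_pow hB0.ne' _) hnB)
    have hcube := (est_cube (A := k + 1) e3 hlogN).1
    refine gfam_upper (by omega) hnB h2L ?_ hs
    have hnL : root B N < 2 ^ (Nat.log 2 (root B N) + 1) :=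
      Nat.lt_pow_succ_log_self (by norm_num) _
    calc root B N ^ (k + 1) * root B N ^ (Nat.log 2 (root B N) + 1) =
          root B N ^ ((k + 1) + (Nat.log 2 (root B N) + 1)) := (pow_add _ _ _).symm
      _ ≤ (2 ^ (Nat.log 2 (root B N) + 1)) ^ ((k + 1) + (Nat.log 2 (root B N) + 1)) :=
          Nat.pow_le_pow_left hnL.le _
      _ = 2 ^ ((Nat.log 2 (root B N) + 1) * ((k + 1) + (Nat.log 2 (root B N) + 1))) :=
          (pow_mul _ _ _).symm
      _ ≤ _ := Nat.pow_le_pow_right (by norm_num) hcube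
  · intro c
    obtain ⟨l, a, hl2, ha, hev⟩ := hA c
    have hδ : (0 : ℝ) < 1 / (16 * B) := by positivity
    filter_upwards [hev, ev_log3 _ hδ, ev_const (2 * (3 * k + 5) ^ 2) _ hδ,
      eventually_ge_atTop 1] with N hN e1 e2 e3
    intro g v hg hv α
    obtain ⟨⟨hnB, hL, h2L, hll, hp⟩, ⟨h1, h2⟩, hNh, _, h3⟩ := hN _ _ _ rfl rfl rfl
    have hN0 : (0 : ℝ) < N := by exact_mod_cast e3
    obtain ⟨x, hx⟩ : ∃ x, x = (N : ℝ) ^ (1 / (16 * B) : ℝ) := ⟨_, rfl⟩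
    have hk0 : (0 : ℝ) ≤ k := Nat.cast_nonneg k
    rw [← hx] at e1 e2 hg
    have hx1 : 1 ≤ x := by nlinarith
    obtain ⟨E, hE3, hE1, hE2⟩ := exists_E (m := k) (h := Nat.log 2 N + 3) hx1 hg (by
      push_cast
      exact e1)
    have hx4 : x ^ 4 = (N : ℝ) ^ (1 / (4 * B) : ℝ) := by
      rw [hx, ← Real.rpow_natCast, ← Real.rpow_mul hN0.le]
      congr 1
      push_cast
      field_simp
      norm_num
    have hbig : ((E ^ 2 * (g + (Nat.log 2 N + 3)) : ℕ) : ℝ) ≤ (N : ℝ) ^ (1 / (4 * B) : ℝ) := by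
      refine hE2.trans ?_
      rw [← hx4]
      have h5 : 0 ≤ x ^ 3 := by positivity
      nlinarith
    obtain ⟨hr, -⟩ := h3 _ hbig
    refine gfam_lower (by omega) le_rfl hl2 hnB hL h2L hll hp h1 h2 hNh hE3 hr hv ?_
    have : (N : ℝ) ^ (-(1 / (16 * B)) : ℝ) = 1 / x := by
      rw [Real.rpow_neg hN0.le, ← hx, one_div]
    rw [this]
    exact hE1

/-- **The theorem for an unbounded number of rounds.** -/
theorem am_unbounded :
    ∃ f : ∀ N : ℕ, (Fin N → Bool) → Prop,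
      (∀ᶠ N : ℕ in atTop, Level (Nat.log 2 N ^ 3) (Nat.log 2 N ^ 3) 1 false (f N)) ∧
      ∀ (c : ℕ) (ε : ℝ), 0 < ε → ∀ᶠ N : ℕ in atTop, ∀ (k g : ℕ) (v : (Fin N → Bool) → ℝ),
        k ≤ Nat.log 2 (Nat.log 2 N) →
        (g : ℝ) ≤ (2 : ℝ) ^ (((Nat.log 2 N : ℕ) : ℝ) ^ (1 - ε)) → Game g (N ^ c) k v →
        ∀ α : ℝ, ¬ ((∀ x, f N x →
            α + (2 : ℝ) ^ (-(((Nat.log 2 N : ℕ) : ℝ) ^ (1 - ε))) ≤ v x) ∧
          ∀ x, ¬ f N x → v x ≤ α) := by
  refine ⟨fun N => gfam (Nat.log 2 (Nat.log 2 N) ^ 2 + Nat.log 2 (Nat.log 2 N) + 2)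
    (Nat.log 2 (Nat.log 2 N)) N, ?_, ?_⟩
  · have e6 := (tendsto_log.comp tendsto_log).eventually (eventually_ge_atTop 2)
    filter_upwards [numbers2 1 1 one_pos, e6] with N hN e6
    simp only [Function.comp_apply] at e6
    obtain ⟨hA, ⟨h1, _, h3, _, _⟩, _, _, ⟨h4, h5⟩, _⟩ :=
      hN _ _ _ _ _ _ _ _ rfl rfl rfl rfl rfl rfl rfl rfl
    have hb : Nat.log 2 (Nat.log 2 N) + 1 ≤ Nat.log 2 (Nat.log 2 N) ^ 2 := by nlinarith
    refine gfam_upper (by omega) h1 h3 (le_trans (Nat.mul_le_mul_right _ ?_) h4) h5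
    exact Nat.pow_le_pow_right (by omega) hb
  · intro c ε hε
    obtain ⟨ε', hε', hε'1, hε'2⟩ : ∃ ε' : ℝ, 0 < ε' ∧ ε' ≤ 1 / 2 ∧ ε' ≤ ε :=
      ⟨min ε (1 / 2), lt_min hε (by norm_num), min_le_right _ _, min_le_left _ _⟩
    have e6 := (tendsto_log.comp tendsto_log).eventually (eventually_ge_atTop 2)
    filter_upwards [numbers2 c (ε' / 2) (by positivity), e6,
      tendsto_log.eventually (ev_exp (1 - ε') (by linarith)),
      tendsto_log.eventually (ev_const 7 (ε' / 2) (by positivity)),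
      tendsto_log.eventually (ev_log 50 2)] with N hN e6 e7 e8 e9
    intro k g v hk hg hv α
    simp only [Function.comp_apply] at e6
    obtain ⟨hA, ⟨h1, h2, h3, h4, h5⟩, ⟨h6, h7⟩, h8, _, h9⟩ :=
      hN _ _ _ _ _ _ _ _ rfl rfl rfl rfl rfl rfl rfl rfl
    obtain ⟨X, hX⟩ : ∃ X : ℝ, X = ((Nat.log 2 N : ℕ) : ℝ) := ⟨_, rfl⟩
    have hX1 : 1 ≤ X := by
      rw [hX]
      have : 1 ≤ Nat.log 2 N := by
        refine Nat.one_le_iff_ne_zero.2 fun h0 => ?_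
        rw [h0] at e6
        simp at e6
      exact_mod_cast this
    have hX0 : 0 < X := by linarith
    rw [← hX] at e7 e8 hg h9 ⊢
    obtain ⟨x, hx⟩ : ∃ x, x = (2 : ℝ) ^ (X ^ (1 - ε')) := ⟨_, rfl⟩
    rw [← hx] at e7
    have hgx : (g : ℝ) ≤ x := by
      rw [hx]
      refine hg.trans (Real.rpow_le_rpow_of_exponent_le (by norm_num) ?_)
      exact Real.rpow_le_rpow_of_exponent_le hX1 (by linarith)
    have hx1 : 1 ≤ x := by linarith
    obtain ⟨b, hb⟩ : ∃ b, b = Nat.log 2 (Nat.log 2 N) := ⟨_, rfl⟩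
    rw [← hb] at e6 e9 hk
    obtain ⟨E, hE3, hE1, hE2⟩ := exists_E (m := b) (h := Nat.log 2 N + 3) hx1 hgx (by
      push_cast
      rw [← hX]
      exact e7)
    have hx5 : x ^ 5 ≤ (2 : ℝ) ^ (X ^ (1 - ε' / 2)) := by
      rw [hx, ← Real.rpow_natCast, ← Real.rpow_mul (by norm_num)]
      refine Real.rpow_le_rpow_of_exponent_le (by norm_num) ?_
      have h10 : X ^ (1 - ε' / 2) = X ^ (1 - ε') * X ^ (ε' / 2) := by
        rw [← Real.rpow_add hX0]
        congr 1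
        ring
      rw [h10]
      refine mul_le_mul_of_nonneg_left ?_ (Real.rpow_nonneg hX0.le _)
      push_cast
      linarith
    have hbig : ((E ^ 2 * (g + (Nat.log 2 N + 3)) : ℕ) : ℝ) ≤ (2 : ℝ) ^ (X ^ (1 - ε' / 2)) := by
      refine hE2.trans (le_trans ?_ hx5)
      have h10 : (2 * (3 * b + 5) ^ 2 : ℝ) ≤ x := by
        have h11 : ((50 * (b + 1) ^ 2 : ℕ) : ℝ) ≤ X := by
          rw [hX]
          exact_mod_cast e9
        push_cast at h11
        have hb0 : (0 : ℝ) ≤ b := Nat.cast_nonneg b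
        nlinarith
      have h11 : 0 ≤ x ^ 3 := by positivity
      have h12 : x ^ 4 ≤ x ^ 5 := pow_le_pow_right₀ hx1 (by norm_num)
      nlinarith
    obtain ⟨hr, -⟩ := h9 _ hbig
    have hmain := gfam_lower (B := b ^ 2 + b + 2) (m := b) (N := N) (g := g) (c := c)
      (l := 2 * (b ^ 2 + b + 2) * (c + 1) + 2) (a := (b ^ 2 + b + 2) * c + 1) (k := k) (E := E)
      (by nlinarith) hk (by omega)
      (by rw [hb]; exact h1) (by rw [hb]; exact h2) (by rw [hb]; exact h3)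
      (by rw [hb]; exact h4) (by rw [hb]; exact h5) (by rw [hb]; exact h6)
      (by rw [hb]; exact h7) h8 hE3 (by rw [hb]; exact hr) hv (α := α)
      (β := (2 : ℝ) ^ (-(X ^ (1 - ε)))) ?_
    · rw [hb] at hmain
      exact hmain
    · refine hE1.trans_le ?_
      rw [Real.rpow_neg (by norm_num), ← one_div]
      refine one_div_le_one_div_of_le (by positivity) ?_
      rw [hx]
      refine Real.rpow_le_rpow_of_exponent_le (by norm_num) ?_
      exact Real.rpow_le_rpow_of_exponent_le hX1 (by linarith)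

end Pool.Agent.J6H27.MPH
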