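import Pool.Agent.H520R2.NM

/-!
# Merlin-Arthur and Arthur-Merlin devices with short messages and monotone verification
-/

set_option autoImplicit false

namespace Pool.Agent.J6H27.MPH

open Finset Pool.Agent.H520R2 Pool.Agent.H520R2.NM

/-- `w x` is the probability that a random monotone circuit with at most `s` gates accepts `x`,
for some probability distribution on a finite set of such circuits. -/
def Rand (s : ℕ) {ι : Type} (w : (ι → Bool) → ℝ) : Prop :=
  ∃ (Ω : Type) (_ : Fintype Ω) (p : Ω → ℝ) (C : Ω → (ι → Bool) → Bool),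
    (∀ ω, 0 ≤ p ω) ∧ ∑ ω, p ω = 1 ∧ (∀ ω, MComp (VB ι) s (C ω)) ∧
    ∀ x, w x = ∑ ω, p ω * (if C ω x = true then 1 else 0)

/-- `MerlinArthur g s v`: `v x` is the probability of acceptance of the input `x` by a
Merlin-Arthur game: Merlin sends a string `u` of `g` bits, which maximizes the probability of
acceptance, and then Arthur draws at random a monotone circuit with at most `s` gates (with a
distribution which depends on `u`) and accepts `x` if the circuit accepts `x`. -/
def MerlinArthur (g s : ℕ) {ι : Type} (v : (ι → Bool) → ℝ) : Prop :=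
  ∃ D : (Fin g → Bool) → (ι → Bool) → ℝ, (∀ u, Rand s (D u)) ∧ ∀ x, v x = ⨆ u, D u x

open Classical in
/-- `ArthurMerlin g s v`: `v x` is the probability of acceptance of the input `x` by an
Arthur-Merlin game: Arthur sends a random message `ω`, Merlin answers with a string `u` of `g`
bits, and Arthur accepts `x` if the monotone circuit `C ω u` with at most `s` gates accepts `x`. -/
def ArthurMerlin (g s : ℕ) {ι : Type} (v : (ι → Bool) → ℝ) : Prop :=
  ∃ (Ω : Type) (_ : Fintype Ω) (p : Ω → ℝ) (C : Ω → (Fin g → Bool) → (ι → Bool) → Bool),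
    (∀ ω, 0 ≤ p ω) ∧ ∑ ω, p ω = 1 ∧ (∀ ω u, MComp (VB ι) s (C ω u)) ∧
    ∀ x, v x = ∑ ω, p ω * (if ∃ u, C ω u x = true then 1 else 0)

end Pool.Agent.J6H27.MPH
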