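import Pool.Agent.J6H27.MPH.Ma2
import Pool.Agent.J6H27.MPH.MaDefs
import Pool.Agent.J6H27.MPH.Game4

/-!
# Arthur-Merlin against Merlin-Arthur
-/

set_option autoImplicit false

namespace Pool.Agent.J6H27.MPH

open Finset Filter Pool.Agent.H520R2 Pool.Agent.H520R2.NM

section one

variable {N n t : ℕ} (e : Fin t × Sym2 (Fin n) → Fin N)

open Classical in
/-- the number of the blocks which have a clique with `k` vertices -/
noncomputable def cliques (k : ℕ) (x : Fin N → Bool) : ℕ :=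
  (univ.filter fun j : Fin t => HasClique n k (fun v => x (e (j, v)))).card

/-- the Arthur-Merlin game -/
theorem am_upper {k g s : ℕ} (ht : 0 < t) (hk : k ≤ n) (h1 : n ^ k ≤ 2 ^ g) (h2 : k * k ≤ s) :
    ArthurMerlin g s (fun x : Fin N → Bool => (cliques e k x : ℝ) / t) := by
  classical
  have hne2 : Nonempty {S : Finset (Fin n) // S.card = k} := by
    obtain ⟨S, _, hS⟩ := exists_subset_card_eq (s := (univ : Finset (Fin n))) (n := k)
      (by rw [card_univ, Fintype.card_fin]; exact hk)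
    exact ⟨⟨S, hS⟩⟩
  obtain ⟨f, hf⟩ := exists_surj (X := {S : Finset (Fin n) // S.card = k}) (g := g)
    ((card_sets n k).trans h1)
  have hC : ∀ (j : Fin t) (u : Fin g → Bool), ∃ C : (Fin N → Bool) → Bool,
      MComp (VB (Fin N)) s C ∧
        ∀ x, (∀ i ∈ (prs (f u).1).map (fun v => e (j, v)), x i = true) ↔ C x = true := by
    intro j u
    have := level_and (g := g) (s := s) (b := false) ((prs (f u).1).map fun v => e (j, v)) (by
      rw [List.length_map]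
      refine (prs_length _).trans ?_
      rw [(f u).2]
      exact h2)
    exact this
  choose C hC1 hC2 using hC
  refine ⟨Fin t, inferInstance, fun _ => 1 / t, C, fun _ => by positivity, ?_, hC1, fun x => ?_⟩
  · rw [sum_const, card_univ, Fintype.card_fin, nsmul_eq_mul]
    have : (0 : ℝ) < t := by exact_mod_cast ht
    field_simp
  · have hiff : ∀ j, (∃ u, C j u x = true) ↔ HasClique n k (fun v => x (e (j, v))) := by
      intro j
      constructor
      · rintro ⟨u, hu⟩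
        refine ⟨(f u).1, (f u).2, fun a ha b hb hab => ?_⟩
        exact (hC2 j u x).2 hu _ (List.mem_map.2 ⟨_, mem_prs.2 ⟨a, ha, b, hb, hab, rfl⟩, rfl⟩)
      · rintro ⟨S, hS, h⟩
        obtain ⟨u, hu⟩ := hf ⟨S, hS⟩
        refine ⟨u, (hC2 j u x).1 fun i hi => ?_⟩
        obtain ⟨v, hv, rfl⟩ := List.mem_map.1 hi
        rw [hu] at hv
        obtain ⟨a, ha, b, hb, hab, rfl⟩ := mem_prs.1 hv
        exact h a ha b hb hab
    rw [← mul_sum]
    simp only [hiff]
    rw [sum_boole, one_div, ← div_eq_inv_mul]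
    unfold cliques
    rfl

variable {e}

/-- the lower bound for one `N` -/
theorem ma_one {c g l a : ℕ} (he : Function.Injective e) (hl2 : 2 ≤ l)
    (hL : 1 ≤ Nat.log 2 n) (h2L : 2 * (Nat.log 2 n + 1) ≤ n)
    (hll : l * (l - 1) ≤ Nat.log 2 n) (hp : 2 ≤ a * (Nat.log 2 n + 1))
    (h1 : 2 * t ^ 2 * (N ^ c *
      ((a * (Nat.log 2 n + 1)) ^ l * l.factorial) ^ 2) ≤ (n / (Nat.log 2 n + 1)) ^ (l + 1))
    (h2 : 2 * 2 ^ (2 * (Nat.log 2 N + 1)) *
      (N ^ c * ((a * (Nat.log 2 n + 1)) ^ l * l.factorial) ^ 2) ≤ 2 ^ (a * (Nat.log 2 n + 1)))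
    (h3 : 2 * t ^ 2 * ((2 * (Nat.log 2 N + 1) + 1) * l) ≤ n / (Nat.log 2 n + 1))
    (ht2 : 2 ≤ t) {M p : ℕ} (hpK : 2 * p * t ≤ 2 ^ (2 * (Nat.log 2 N + 1)))
    {v : (Fin N → Bool) → ℝ} (hv : MerlinArthur g (N ^ c) v) {α β : ℝ} (hβ : 0 < β)
    (hKβ : 1 ≤ t * β) (hpβ : (g : ℝ) + 5 ≤ p * β) (hM : p + g + 5 ≤ M)
    (hyes : ∀ x, cliques e (Nat.log 2 n + 1) x = t → α + β ≤ v x)
    (hno : ∀ x, cliques e (Nat.log 2 n + 1) x ≤ M → v x ≤ α) : False := by
  classical
  obtain ⟨D, hD, hvD⟩ := hv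
  have hD0 : ∀ u, Game g (N ^ c) 0 (D u) := fun u => hD u
  obtain ⟨q, hqdef⟩ : ∃ q, q = n / (Nat.log 2 n + 1) := ⟨_, rfl⟩
  obtain ⟨κ, hκdef⟩ : ∃ κ, κ = Nat.log 2 n := ⟨_, rfl⟩
  rw [← hκdef] at hL h2L hll hp h1 h2 h3 hyes hno hqdef
  rw [← hqdef] at h1 h3
  have hcard : Fintype.card (Fin (κ + 1) × Fin q) ≤ Fintype.card (Fin n) := by
    rw [Fintype.card_prod, Fintype.card_fin, Fintype.card_fin, Fintype.card_fin, hqdef]
    exact Nat.mul_div_le _ _
  obtain ⟨emb⟩ := Function.Embedding.nonempty_of_card_le hcard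
  have hq : 1 ≤ q := by
    rw [hqdef, Nat.le_div_iff_mul_le (Nat.succ_pos _)]
    omega
  have hfinq : Nonempty (Fin q) := ⟨⟨0, hq⟩⟩
  have hfinκ : Nonempty (Fin κ) := ⟨⟨0, hL⟩⟩
  have hK1 : 2 ≤ 2 ^ (2 * (Nat.log 2 N + 1)) := by
    calc 2 = 2 ^ 1 := by norm_num
      _ ≤ _ := Nat.pow_le_pow_right (by norm_num) (by omega)
  have htwo : Two (N ^ c) (fun π : Fin (κ + 1) → Fin q => edg (posG emb π))
      (fun c : Fin n → Fin κ => edg (negG c)) (t ^ 2) (2 ^ (2 * (Nat.log 2 N + 1))) := by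
    intro C hC
    rw [Fintype.card_fun, Fintype.card_fun, Fintype.card_fin, Fintype.card_fin,
      Fintype.card_fin, Fintype.card_fin]
    exact base_two emb emb.injective hq hL hl2 hll hp h1 h2 h3 (by rw [pow_succ]; omega) hC
  -- the substitution
  let σ : Fin N → Bool ⊕ (Fin t × Sym2 (Fin n)) := fun i =>
    if h : ∃ y, e y = i then Sum.inr h.choose else Sum.inl false
  have hσ : ∀ (z : Fin t × Sym2 (Fin n) → Bool) y, sub σ z (e y) = z y := by
    intro z y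
    have hex : ∃ y', e y' = e y := ⟨y, rfl⟩
    have hc := he hex.choose_spec
    have : σ (e y) = Sum.inr y := by
      simp only [σ]
      rw [dif_pos hex, hc]
    unfold sub
    rw [this]
  have hcl : ∀ z : Fin t × Sym2 (Fin n) → Bool, cliques e (κ + 1) (sub σ z) =
      (univ.filter fun j : Fin t => HasClique n (κ + 1) (fun v => z (j, v))).card := by
    intro z
    unfold cliques
    simp only [hσ]
  have hsup : ∀ x u, D u x ≤ v x := by
    intro x u
    rw [hvD]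
    exact le_sup (fun u => D u x) u
  have hyes' : ∀ π : Fin t → Fin (κ + 1) → Fin q, ∃ u, α + β ≤
      D u (sub σ fun v => edg (posG emb (π v.1)) v.2) := by
    intro π
    obtain ⟨u, hu⟩ := sup_mem (fun u => D u (sub σ fun v => edg (posG emb (π v.1)) v.2))
    refine ⟨u, ?_⟩
    rw [← hu, ← hvD]
    refine hyes _ ?_
    rw [hcl, filter_true_of_mem, card_univ, Fintype.card_fin]
    intro j _
    exact hasClique_pos emb emb.injective (π j)
  have hno' : ∀ u (T : Fin t → Option Bool) (a : Fin t → Fin (κ + 1) → Fin q)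
      (b : Fin t → Fin n → Fin κ), nones T = ∅ → (ones T).card ≤ M →
      D u (sub σ (hyb (fun π : Fin (κ + 1) → Fin q => edg (posG emb π))
        (fun c : Fin n → Fin κ => edg (negG c)) T a b)) ≤ α := by
    intro u T a b hT hM'
    refine (hsup _ u).trans (hno _ ?_)
    rw [hcl]
    refine le_trans (card_le_card ?_) hM'
    intro j hj
    rw [mem_filter] at hj
    simp only [ones, mem_filter, mem_univ, true_and]
    cases hTj : T j with
    | none =>
      exfalso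
      have : j ∈ nones T := by simp [nones, hTj]
      rw [hT] at this
      simp at this
    | some c =>
      cases c with
      | true => rfl
      | false =>
        exfalso
        have h4 := hj.2
        simp only [hyb, hTj] at h4
        exact not_hasClique_neg (b j) h4
  have htpos : (0 : ℝ) < t := by exact_mod_cast (by omega : 0 < t)
  have hlam1 : ((1 - 1 / ((2 ^ (2 * (Nat.log 2 N + 1)) : ℕ) : ℝ)) ^ p)⁻¹ ≤ 1 + 1 / (t : ℝ) := by
    obtain ⟨K1, hK1def⟩ : ∃ K1, K1 = 2 ^ (2 * (Nat.log 2 N + 1)) := ⟨_, rfl⟩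
    rw [← hK1def] at hK1 hpK ⊢
    have hK1' : (2 : ℝ) ≤ K1 := by exact_mod_cast hK1
    have hpK' : (2 * p * t : ℝ) ≤ K1 := by exact_mod_cast hpK
    have h4 : 1 / (K1 : ℝ) ≤ 1 / 2 := one_div_le_one_div_of_le (by norm_num) hK1'
    have h5 := one_add_mul_le_pow (a := -(1 / (K1 : ℝ))) (by linarith) p
    have h6 : (p : ℝ) * (1 / K1) ≤ 1 / (2 * t) := by
      rw [mul_one_div, div_le_div_iff₀ (by linarith) (by linarith)]
      linarith
    have h7 : 1 - 1 / (2 * (t : ℝ)) ≤ (1 - 1 / (K1 : ℝ)) ^ p := by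
      have : (1 : ℝ) + -(1 / (K1 : ℝ)) = 1 - 1 / K1 := by ring
      rw [this] at h5
      linarith
    have ht2' : (2 : ℝ) ≤ t := by exact_mod_cast ht2
    have h8 : 1 / (2 * (t : ℝ)) ≤ 1 / 4 :=
      one_div_le_one_div_of_le (by norm_num) (by linarith)
    have h9 : 0 < 1 - 1 / (2 * (t : ℝ)) := by linarith
    refine (inv_anti₀ h9 h7).trans ?_
    rw [inv_eq_one_div, div_le_iff₀ h9]
    have h10 : 1 / (t : ℝ) = 2 * (1 / (2 * (t : ℝ))) := by field_simp
    rw [h10]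
    have h11 : 0 < 1 / (2 * (t : ℝ)) := by positivity
    generalize 1 / (2 * (t : ℝ)) = y at h8 h11 ⊢
    nlinarith
  have hbound := ma_bound (t := t) (K := t) (M := M) htwo (by omega) hK1
    (D := fun u z => D u (sub σ z)) (fun u => (hD0 u).subst σ) p (α := α) (θ := α + β) rfl hlam1
    le_rfl ?_ hno' hyes'
  · rw [Fintype.card_fun, Fintype.card_fin, Fintype.card_bool] at hbound
    push_cast at hbound
    refine ma_contra (g := g) (p := p) (M := M) (K := t) (α := α) ?_ hβ ?_ ht2 hKβ hpβ hM hbound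
    · obtain ⟨a⟩ := (inferInstance : Nonempty (Fin t → Fin (κ + 1) → Fin q))
      obtain ⟨b⟩ := (inferInstance : Nonempty (Fin t → Fin n → Fin κ))
      refine le_trans ((((hD0 fun _ => false)).range _).1) (hno' (fun _ => false)
        (fun _ => some false) a b ?_ ?_)
      · simp [nones]
      · simp [ones]
    · obtain ⟨a⟩ := (inferInstance : Nonempty (Fin t → Fin (κ + 1) → Fin q))
      obtain ⟨u, hu⟩ := hyes' a
      exact hu.trans ((hD0 u).range _).2
  · obtain ⟨a⟩ := (inferInstance : Nonempty (Fin t → Fin (κ + 1) → Fin q))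
    obtain ⟨b⟩ := (inferInstance : Nonempty (Fin t → Fin n → Fin κ))
    have h4 : 0 ≤ α := by
      refine le_trans ((((hD0 fun _ => false)).range _).1) (hno' (fun _ => false)
        (fun _ => some false) a b ?_ ?_)
      · simp [nones]
      · simp [ones]
    linarith

end one

/-! ### the numbers -/

theorem ma_h3 {n N B L l t : ℕ} (hL1 : 1 ≤ L) (hlog : Nat.log 2 N < B * (L + 1))
    (ht8 : t ^ 8 ≤ n) (ht : 1 ≤ t) (hev : (2 * (2 * B + 3) * l) ^ 2 * (L + 1) ^ 4 ≤ n) :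
    2 * t ^ 2 * ((2 * (Nat.log 2 N + 1) + 1) * l) ≤ n / (L + 1) := by
  rw [Nat.le_div_iff_mul_le (Nat.succ_pos _)]
  obtain ⟨X, hX⟩ : ∃ X, X = 2 * (2 * B + 3) * l * (L + 1) ^ 2 := ⟨_, rfl⟩
  have h1 : 2 * (Nat.log 2 N + 1) + 1 ≤ (2 * B + 3) * (L + 1) := by
    have : (2 * B + 3) * (L + 1) = 2 * (B * (L + 1)) + 3 * (L + 1) := by ring
    omega
  have h2 : X ^ 2 ≤ n := by
    rw [hX]
    calc (2 * (2 * B + 3) * l * (L + 1) ^ 2) ^ 2 = (2 * (2 * B + 3) * l) ^ 2 * (L + 1) ^ 4 := by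
          ring
      _ ≤ n := hev
  have h3 : (t ^ 2) ^ 2 ≤ n := by
    calc (t ^ 2) ^ 2 = t ^ 4 := by ring
      _ ≤ t ^ 8 := Nat.pow_le_pow_right ht (by norm_num)
      _ ≤ n := ht8
  have h4 : t ^ 2 * X ≤ n := by
    have h5 : (t ^ 2 * X) ^ 2 ≤ n ^ 2 := by
      calc (t ^ 2 * X) ^ 2 = (t ^ 2) ^ 2 * X ^ 2 := by ring
        _ ≤ n * n := Nat.mul_le_mul h3 h2
        _ = n ^ 2 := by ring
    exact (Nat.pow_le_pow_iff_left (by norm_num)).1 h5
  calc 2 * t ^ 2 * ((2 * (Nat.log 2 N + 1) + 1) * l) * (L + 1) ≤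
      2 * t ^ 2 * (((2 * B + 3) * (L + 1)) * l) * (L + 1) := by gcongr
    _ = t ^ 2 * X := by rw [hX]; ring
    _ ≤ n := h4

theorem ma_h2 {N c X p : ℕ} (hN : 2 ≤ N) (h : 4 * (N ^ (c + 3) * X) ≤ 2 ^ p) :
    2 * 2 ^ (2 * (Nat.log 2 N + 1)) * (N ^ c * X) ≤ 2 ^ p := by
  have h1 : 2 ^ (Nat.log 2 N) ≤ N := Nat.pow_log_le_self 2 (by omega)
  have h2 : 2 * 2 ^ (2 * (Nat.log 2 N + 1)) ≤ 4 * N ^ 3 := by
    calc 2 * 2 ^ (2 * (Nat.log 2 N + 1)) = 8 * (2 ^ (Nat.log 2 N)) ^ 2 := by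
          rw [← pow_mul, mul_add, pow_add]
          ring
      _ ≤ 8 * N ^ 2 := Nat.mul_le_mul_left _ (Nat.pow_le_pow_left h1 2)
      _ ≤ 4 * N ^ 3 := by
          calc 8 * N ^ 2 = 4 * (2 * N ^ 2) := by ring
            _ ≤ 4 * (N * N ^ 2) := by gcongr
            _ = _ := by ring
  refine le_trans ?_ h
  calc 2 * 2 ^ (2 * (Nat.log 2 N + 1)) * (N ^ c * X) ≤ 4 * N ^ 3 * (N ^ c * X) :=
        Nat.mul_le_mul_right _ h2
    _ = _ := by ring

theorem ma_h1 {N c X t Q : ℕ} (hN : 2 ≤ N) (ht : t ≤ N)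
    (h : 2 ^ (Nat.log 2 N + 3) * (N ^ (c + 3) * X) ≤ Q) : 2 * t ^ 2 * (N ^ c * X) ≤ Q := by
  refine le_trans ?_ h
  calc 2 * t ^ 2 * (N ^ c * X) ≤ N * N ^ 2 * (N ^ c * X) := by gcongr
    _ = 1 * (N ^ (c + 3) * X) := by ring
    _ ≤ _ := Nat.mul_le_mul_right _ Nat.one_le_two_pow

theorem ma_t {N n t B : ℕ} {x : ℝ} (hB : 0 < B) (hx : x ^ (64 * B) = N) (hx2 : 2 ≤ x)
    (hNn : N < (n + 1) ^ B) (hnt : n < (t + 1) ^ 8) : x ^ 4 ≤ t := by
  by_contra hcon
  rw [not_le] at hcon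
  have hx0 : 0 < x := by linarith
  have h1 : N < ((t + 1) ^ 8) ^ B := lt_of_lt_of_le hNn (Nat.pow_le_pow_left (by omega) _)
  have h2 : (N : ℝ) < (((t : ℝ) + 1) ^ 8) ^ B := by exact_mod_cast h1
  have h3 : (t : ℝ) + 1 ≤ x ^ 5 := by
    have h4 : 16 ≤ x ^ 4 := by
      calc (16 : ℝ) = 2 ^ 4 := by norm_num
        _ ≤ x ^ 4 := pow_le_pow_left₀ (by norm_num) hx2 4
    have h5 : x ^ 5 = x * x ^ 4 := by ring
    nlinarith
  have h4 : (((t : ℝ) + 1) ^ 8) ^ B ≤ x ^ (40 * B) := by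
    calc (((t : ℝ) + 1) ^ 8) ^ B ≤ ((x ^ 5) ^ 8) ^ B :=
          pow_le_pow_left₀ (by positivity) (pow_le_pow_left₀ (by positivity) h3 8) B
      _ = x ^ (40 * B) := by
          rw [← pow_mul, ← pow_mul]
          congr 1
          ring
  have h5 : x ^ (40 * B) ≤ x ^ (64 * B) := pow_le_pow_right₀ (by linarith) (by omega)
  rw [hx] at h5
  linarith

/-- **The theorem.** -/
theorem am_vs_ma :
    ∃ (δ : ℝ) (Y Z : ∀ N : ℕ, (Fin N → Bool) → Prop), 0 < δ ∧
      (∀ᶠ N : ℕ in atTop, ∃ v : (Fin N → Bool) → ℝ,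
        ArthurMerlin (Nat.log 2 N ^ 3) (Nat.log 2 N ^ 3) v ∧
        (∀ x, Y N x → v x = 1) ∧ ∀ x, Z N x → v x ≤ (N : ℝ) ^ (-δ)) ∧
      ∀ c : ℕ, ∀ᶠ N : ℕ in atTop, ∀ (g : ℕ) (v : (Fin N → Bool) → ℝ),
        (g : ℝ) ≤ (N : ℝ) ^ δ → MerlinArthur g (N ^ c) v →
        ∀ α : ℝ, ¬ ((∀ x, Y N x → α + (N : ℝ) ^ (-δ) ≤ v x) ∧ ∀ x, Z N x → v x ≤ α) := by
  classical
  obtain ⟨A, hA1, hA⟩ := numbers 0 1 one_pos
  obtain ⟨B, hB⟩ : ∃ B, B = A + 0 + 2 := ⟨_, rfl⟩
  rw [← hB] at hA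
  have hB0 : 0 < B := by omega
  have hB3 : 3 ≤ B := by omega
  have hB0' : (0 : ℝ) < B := by exact_mod_cast hB0
  obtain ⟨δ, hδdef⟩ : ∃ δ : ℝ, δ = 1 / (64 * B) := ⟨_, rfl⟩
  have hδ : 0 < δ := by rw [hδdef]; positivity
  -- the embedding
  have hembE : ∀ N : ℕ, 1 ≤ root B N → root B N ^ B ≤ N →
      Nonempty (Fin (root 8 (root B N)) × Sym2 (Fin (root B N)) ↪ Fin N) := by
    intro N hn1 hnB
    refine Function.Embedding.nonempty_of_card_le ?_
    rw [Fintype.card_prod, Fintype.card_fin, Fintype.card_fin]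
    have h1 := card_var (root B N) (root B N) 0 hn1
    have h2 : @Fintype.card (Var (root B N) (root B N) 0)
        (varFintype (root B N) (root B N) 0) = Fintype.card (Sym2 (Fin (root B N))) := rfl
    rw [h2, pow_zero, one_mul] at h1
    have h3 : root 8 (root B N) ≤ root B N :=
      (Nat.le_self_pow (by norm_num) _).trans (root_pow (by norm_num))
    calc root 8 (root B N) * Fintype.card (Sym2 (Fin (root B N))) ≤
          root B N * root B N ^ 2 := Nat.mul_le_mul h3 h1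
      _ = root B N ^ 3 := by ring
      _ ≤ root B N ^ B := Nat.pow_le_pow_right hn1 hB3
      _ ≤ N := hnB
  let cl : ∀ N : ℕ, (Fin N → Bool) → ℕ := fun N x =>
    if h : Nonempty (Fin (root 8 (root B N)) × Sym2 (Fin (root B N)) ↪ Fin N) then
      cliques h.some (Nat.log 2 (root B N) + 1) x else 0
  refine ⟨δ, fun N x => cl N x = root 8 (root B N),
    fun N x => (cl N x : ℝ) ≤ root 8 (root B N) * (N : ℝ) ^ (-δ), hδ, ?_, ?_⟩
  · obtain ⟨l, a, _, _, hev⟩ := hA 1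
    have e3 := (tendsto_root (B := 8) (by norm_num)).comp (tendsto_root hB0)
    filter_upwards [hev, e3.eventually (eventually_ge_atTop 1)] with N hN e3
    simp only [Function.comp_apply] at e3
    obtain ⟨⟨hnB, hL, h2L, _, _⟩, _, _, ⟨hg, hs⟩, _⟩ := hN _ _ _ rfl rfl rfl
    have hn1 : 1 ≤ root B N := by omega
    have hemb := hembE N hn1 hnB
    have ht0 : (0 : ℝ) < root 8 (root B N) := by exact_mod_cast e3
    refine ⟨_, am_upper (hemb.some : _ → Fin N) (k := Nat.log 2 (root B N) + 1)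
      (g := Nat.log 2 N ^ 3) (s := Nat.log 2 N ^ 3) e3 (by omega) ?_ hs, ?_, ?_⟩
    · refine le_trans ?_ hg
      exact Nat.le_mul_of_pos_left _ (by positivity)
    · intro x hx
      simp only [cl, dif_pos hemb] at hx
      rw [hx]
      field_simp
    · intro x hx
      simp only [cl, dif_pos hemb] at hx
      rw [div_le_iff₀ ht0]
      linarith
  · intro c
    obtain ⟨l, a, hl2, ha, hev⟩ := hA (c + 3)
    have e4 := (tendsto_root hB0).eventually (ev_log ((2 * (2 * B + 3) * l) ^ 2) 4)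
    filter_upwards [hev, ev_const 4 δ hδ, e4, eventually_ge_atTop 2] with N hN e1 e4 e3
    intro g v hg hv α hcon
    obtain ⟨hyes, hno⟩ := hcon
    obtain ⟨⟨hnB, hL, h2L, hll, hp⟩, ⟨h1, h2⟩, hNh, _, h3⟩ := hN _ _ _ rfl rfl rfl
    obtain ⟨n, hn⟩ : ∃ n, n = root B N := ⟨_, rfl⟩
    obtain ⟨t, ht⟩ : ∃ t, t = root 8 n := ⟨_, rfl⟩
    have hN0 : (0 : ℝ) < N := by exact_mod_cast (by omega : 0 < N)
    have hn1 : 1 ≤ root B N := by omega
    have hemb := hembE N hn1 hnB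
    obtain ⟨x, hx⟩ : ∃ x, x = (N : ℝ) ^ δ := ⟨_, rfl⟩
    rw [← hx] at e1 hg
    have hx0 : 0 < x := by linarith
    have hx64 : x ^ (64 * B) = N := by
      rw [hx, ← Real.rpow_natCast, ← Real.rpow_mul hN0.le, hδdef]
      have : 1 / (64 * (B : ℝ)) * ((64 * B : ℕ) : ℝ) = 1 := by
        push_cast
        field_simp
      rw [this, Real.rpow_one]
    have hNn : N < (n + 1) ^ B := by rw [hn]; exact lt_root hB0
    have hnt : n < (t + 1) ^ 8 := by rw [ht]; exact lt_root (by norm_num)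
    have htn : t ^ 8 ≤ n := by rw [ht]; exact root_pow (by norm_num)
    have hxt := ma_t hB0 hx64 (by linarith) hNn hnt
    have hβ : (N : ℝ) ^ (-δ) = 1 / x := by rw [Real.rpow_neg hN0.le, ← hx, one_div]
    have hx4 : (256 : ℝ) ≤ x ^ 4 := by
      calc (256 : ℝ) = 4 ^ 4 := by norm_num
        _ ≤ x ^ 4 := pow_le_pow_left₀ (by norm_num) e1 4
    have ht256 : (256 : ℝ) ≤ t := hx4.trans hxt
    have ht2 : 256 ≤ t := by exact_mod_cast ht256
    have htn' : t ≤ n := (Nat.le_self_pow (by norm_num) _).trans htn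
    have hnN : n ≤ N := by rw [hn]; exact (Nat.le_self_pow hB0.ne' _).trans hnB
    -- the numbers `p` and `M`
    obtain ⟨p, hpdef⟩ : ∃ p, p = ⌈((g : ℝ) + 5) * x⌉₊ := ⟨_, rfl⟩
    have hp1 : ((g : ℝ) + 5) * x ≤ p := by rw [hpdef]; exact Nat.le_ceil _
    have hp2 : (p : ℝ) < ((g : ℝ) + 5) * x + 1 := by
      rw [hpdef]
      exact Nat.ceil_lt_add_one (by positivity)
    obtain ⟨M, hMdef⟩ : ∃ M, M = p + g + 5 := ⟨_, rfl⟩
    have hx3 : (p : ℝ) + g + 5 ≤ x ^ 3 := by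
      have h4 : ((g : ℝ) + 5) * x ≤ (x + 5) * x := by nlinarith
      have h5 : x ^ 3 = x * x ^ 2 := by ring
      have h6 : (16 : ℝ) ≤ x ^ 2 := by nlinarith
      nlinarith
    have hMt : (M : ℝ) ≤ t * (1 / x) := by
      rw [mul_one_div, le_div_iff₀ hx0, hMdef]
      push_cast
      calc ((p : ℝ) + g + 5) * x ≤ x ^ 3 * x := mul_le_mul_of_nonneg_right hx3 hx0.le
        _ = x ^ 4 := by ring
        _ ≤ t := hxt
    have hpt : p ≤ t := by
      have h4 : (p : ℝ) ≤ t := by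
        have h5 : x ^ 3 ≤ x ^ 4 := pow_le_pow_right₀ (by linarith) (by norm_num)
        have h6 : (0 : ℝ) ≤ g := Nat.cast_nonneg g
        linarith
      exact_mod_cast h4
    have hlogN : Nat.log 2 N < B * (Nat.log 2 n + 1) :=
      est_logN (Nat.lt_pow_succ_log_self (by norm_num) n) hNn (by omega)
    rw [← hn] at hL h2L hll hp h1 h2 e4
    have hpK : 2 * p * t ≤ 2 ^ (2 * (Nat.log 2 N + 1)) := by
      have h4 : N < 2 ^ (Nat.log 2 N + 1) := Nat.lt_pow_succ_log_self (by norm_num) N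
      calc 2 * p * t ≤ t * t * t := Nat.mul_le_mul_right _ (Nat.mul_le_mul (by omega) hpt)
        _ = t ^ 3 := by ring
        _ ≤ t ^ 8 := Nat.pow_le_pow_right (by omega) (by norm_num)
        _ ≤ N := htn.trans hnN
        _ ≤ 2 ^ (Nat.log 2 N + 1) := h4.le
        _ ≤ _ := Nat.pow_le_pow_right (by norm_num) (by omega)
    subst hn
    subst ht
    refine ma_one (e := (hemb.some : _ → Fin N)) (c := c) (g := g) (l := l) (a := a) (p := p)
      (M := M) hemb.some.injective hl2 hL h2L hll hp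
      (ma_h1 (by omega) (htn'.trans hnN) h1) (ma_h2 (by omega) h2)
      (ma_h3 hL hlogN htn (by omega) e4) (by omega) hpK hv (α := α) (β := 1 / x)
      (by positivity) ?_ ?_ hMdef.ge ?_ ?_
    · rw [mul_one_div, le_div_iff₀ hx0, one_mul]
      have h5 : x ≤ x ^ 4 := by
        have : x ^ 4 = x * x ^ 3 := by ring
        have h6 : 1 ≤ x ^ 3 := one_le_pow₀ (by linarith)
        nlinarith
      linarith
    · rw [mul_one_div, le_div_iff₀ hx0]
      exact hp1
    · intro z hz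
      rw [← hβ]
      refine hyes z ?_
      simp only [cl, dif_pos hemb]
      exact hz
    · intro z hz
      refine hno z ?_
      simp only [cl, dif_pos hemb]
      rw [hβ]
      have : ((cliques (hemb.some : _ → Fin N) (Nat.log 2 (root B N) + 1) z : ℕ) : ℝ) ≤ M := by
        exact_mod_cast hz
      linarith

end Pool.Agent.J6H27.MPH
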