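import Pool.Agent.J6H27.MPH.Fin2

/-!
# Monotone formulas of small depth, and disjunctions over several sizes
-/

set_option autoImplicit false

namespace Pool.Agent.J6H27.MPH

open Finset Pool.Agent.H520R2 Pool.Agent.H520R2.NM Pool.Agent.J6H7.Chain

/-- `Shallow d f`: the predicate `f` is given by a monotone formula of depth `d`: a constant or a
variable if `d = 0`, and the conjunction or the disjunction of two predicates which are given by
monotone formulas of depth `d - 1` if `d > 0`. -/
def Shallow {ι : Type} : ℕ → ((ι → Bool) → Prop) → Prop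
  | 0, f => (∃ c : Prop, ∀ x, f x ↔ c) ∨ ∃ i, ∀ x, f x ↔ x i = true
  | d + 1, f => ∃ a b, Shallow d a ∧ Shallow d b ∧
      ((∀ x, f x ↔ (a x ∧ b x)) ∨ ∀ x, f x ↔ (a x ∨ b x))

namespace Shallow

variable {ι : Type}

theorem congr {d : ℕ} {f f' : (ι → Bool) → Prop} (h : Shallow d f) (hff : ∀ x, f x ↔ f' x) :
    Shallow d f' := by
  have : f = f' := funext fun x => propext (hff x)
  rw [← this]
  exact h

theorem lift {d d' : ℕ} {f : (ι → Bool) → Prop} (h : Shallow d f) (hd : d ≤ d') :
    Shallow d' f := by
  induction hd with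
  | refl => exact h
  | step _ ih => exact ⟨f, f, ih, ih, Or.inl fun x => (and_self_iff).symm⟩

theorem of_vb {f : (ι → Bool) → Bool} (hf : f ∈ VB ι) : Shallow 0 (fun x => f x = true) := by
  rcases hf with ⟨c, rfl⟩ | ⟨i, rfl⟩
  · exact Or.inl ⟨c = true, fun x => Iff.rfl⟩
  · exact Or.inr ⟨i, fun x => Iff.rfl⟩

theorem of_prog {L : List ((ι → Bool) → Bool)} (h : MProg (VB ι) L) :
    ∀ f ∈ L, Shallow L.length (fun x => f x = true) := by
  have key : ∀ {L : List ((ι → Bool) → Bool)} {f : (ι → Bool) → Bool},
      (∀ f ∈ L, Shallow L.length (fun x => f x = true)) → (f ∈ VB ι ∨ f ∈ L) →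
      Shallow L.length (fun x => f x = true) := by
    intro L f hL hf
    rcases hf with hf | hf
    · exact (of_vb hf).lift (Nat.zero_le _)
    · exact hL f hf
  induction h with
  | nil => intro f hf; simp at hf
  | @and L f g _ hf hg ih =>
    intro e he
    rw [List.length_cons]
    rcases List.mem_cons.1 he with rfl | he
    · exact ⟨_, _, key ih hf, key ih hg, Or.inl fun x => by simp⟩
    · exact (ih e he).lift (Nat.le_succ _)
  | @or L f g _ hf hg ih =>
    intro e he
    rw [List.length_cons]
    rcases List.mem_cons.1 he with rfl | he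
    · exact ⟨_, _, key ih hf, key ih hg, Or.inr fun x => by simp⟩
    · exact (ih e he).lift (Nat.le_succ _)

theorem of_mcomp {s : ℕ} {f : (ι → Bool) → Bool} (h : MComp (VB ι) s f) :
    Shallow s (fun x => f x = true) := by
  obtain ⟨L, hL, hs, hf⟩ := h
  rcases hf with hf | hf
  · exact (of_vb hf).lift (Nat.zero_le _)
  · exact (of_prog hL f hf).lift hs

theorem exi {d : ℕ} : ∀ {g : ℕ} {D : (Fin g → Bool) → (ι → Bool) → Prop},
    (∀ u, Shallow d (D u)) → Shallow (d + g) (fun x => ∃ u, D u x) := by
  intro g
  induction g with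
  | zero =>
    intro D h
    refine (h (fun i => i.elim0)).congr fun x => ?_
    constructor
    · intro h2
      exact ⟨_, h2⟩
    · rintro ⟨u, hu⟩
      have : u = fun i => i.elim0 := Subsingleton.elim _ _
      rwa [← this]
  | succ g ih =>
    intro D h
    refine ⟨_, _, ih (D := fun u => D (Fin.cons true u)) fun u => h _,
      ih (D := fun u => D (Fin.cons false u)) fun u => h _, Or.inr fun x => ?_⟩
    constructor
    · rintro ⟨u, hu⟩
      have hu' : D (Fin.cons (u 0) (Fin.tail u)) x := by
        rw [Fin.cons_self_tail]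
        exact hu
      cases h0 : u 0 with
      | true => rw [h0] at hu'; exact Or.inl ⟨_, hu'⟩
      | false => rw [h0] at hu'; exact Or.inr ⟨_, hu'⟩
    · rintro (⟨u, hu⟩ | ⟨u, hu⟩)
      · exact ⟨_, hu⟩
      · exact ⟨_, hu⟩

theorem all {d : ℕ} : ∀ {g : ℕ} {D : (Fin g → Bool) → (ι → Bool) → Prop},
    (∀ u, Shallow d (D u)) → Shallow (d + g) (fun x => ∀ u, D u x) := by
  intro g
  induction g with
  | zero =>
    intro D h
    refine (h (fun i => i.elim0)).congr fun x => ?_
    constructor
    · intro h2 u
      have : u = fun i => i.elim0 := Subsingleton.elim _ _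
      rwa [this]
    · intro hu
      exact hu _
  | succ g ih =>
    intro D h
    refine ⟨_, _, ih (D := fun u => D (Fin.cons true u)) fun u => h _,
      ih (D := fun u => D (Fin.cons false u)) fun u => h _, Or.inl fun x => ?_⟩
    constructor
    · intro hu
      exact ⟨fun u => hu _, fun u => hu _⟩
    · rintro ⟨h1, h2⟩ u
      have hu' : D (Fin.cons (u 0) (Fin.tail u)) x := by
        cases u 0 with
        | true => exact h1 _
        | false => exact h2 _
      rw [Fin.cons_self_tail] at hu'
      exact hu'

/-- Alternating quantifiers over short strings in front of small circuits give formulas of small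
depth. -/
theorem of_level {g s : ℕ} {k : ℕ} : ∀ {b : Bool} {f : (ι → Bool) → Prop}, Level g s k b f →
    Shallow (s + k * g) f := by
  induction k with
  | zero =>
    intro b f h
    obtain ⟨C, hC, h2⟩ := h
    rw [Nat.zero_mul, Nat.add_zero]
    exact (of_mcomp hC).congr fun x => (h2 x).symm
  | succ k ih =>
    intro b f h
    have e : s + (k + 1) * g = s + k * g + g := by ring
    rw [e]
    cases b with
    | true =>
      obtain ⟨D, hD, h2⟩ := h
      exact (exi fun u => ih (hD u)).congr fun x => (h2 x).symm
    | false =>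
      obtain ⟨D, hD, h2⟩ := h
      exact (all fun u => ih (hD u)).congr fun x => (h2 x).symm

end Shallow

/-- longer guesses -/
theorem Level.gmono {g g' s : ℕ} {ι : Type} (hg : g ≤ g') {k : ℕ} :
    ∀ {b : Bool} {f : (ι → Bool) → Prop}, Level g s k b f → Level g' s k b f := by
  have hsurj : ∀ u : Fin g → Bool, ∃ u' : Fin g' → Bool, (fun i => u' (Fin.castLE hg i)) = u := by
    intro u
    refine ⟨fun i => if h : (i : ℕ) < g then u ⟨i, h⟩ else false, ?_⟩
    funext i
    simp
  induction k with
  | zero => intro b f h; exact h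
  | succ k ih =>
    intro b f h
    cases b with
    | true =>
      obtain ⟨D, hD, h2⟩ := h
      refine ⟨fun u' => D (fun i => u' (Fin.castLE hg i)), fun u' => ih (hD _), fun x => ?_⟩
      rw [h2]
      constructor
      · rintro ⟨u, hu⟩
        obtain ⟨u', rfl⟩ := hsurj u
        exact ⟨u', hu⟩
      · rintro ⟨u', hu⟩
        exact ⟨_, hu⟩
    | false =>
      obtain ⟨D, hD, h2⟩ := h
      refine ⟨fun u' => D (fun i => u' (Fin.castLE hg i)), fun u' => ih (hD _), fun x => ?_⟩
      rw [h2]
      constructor
      · intro hu u'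
        exact hu _
      · intro hu u
        obtain ⟨u', rfl⟩ := hsurj u
        exact hu u'

/-- a disjunction of predicates of the same level -/
theorem Level.union {X ι : Type} [Fintype X] [Nonempty X] {g s z k : ℕ}
    {F : X → (ι → Bool) → Prop} (h : ∀ a, Level g s (k + 1) true (F a))
    (hX : Fintype.card X ≤ 2 ^ z) :
    Level (z + g) s (k + 1) true (fun x => ∃ a, F a x) := by
  classical
  obtain ⟨e, he⟩ := exists_surj hX
  choose D hD h2 using h
  refine ⟨fun u => D (e fun i => u (Fin.castAdd g i)) (fun i => u (Fin.natAdd z i)),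
    fun u => (hD _ _).gmono (Nat.le_add_left _ _), fun x => ?_⟩
  constructor
  · rintro ⟨a, ha⟩
    rw [h2] at ha
    obtain ⟨u, hu⟩ := ha
    obtain ⟨w, rfl⟩ := he a
    refine ⟨Fin.append w u, ?_⟩
    simp only [Fin.append_left, Fin.append_right]
    exact hu
  · rintro ⟨u, hu⟩
    exact ⟨_, (h2 _ _).2 ⟨_, hu⟩⟩

/-- the all zero input is rejected -/
theorem tree_false {t n κ : ℕ} (ht : 0 < t) (hκ : 1 ≤ κ) (hn : κ + 1 ≤ n) {m : ℕ} :
    ∀ {b : Bool}, ¬ Tree t n (κ + 1) m b (fun _ => false) := by
  induction m with
  | zero =>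
    intro b
    cases b with
    | false =>
      rintro ⟨S, hS, h⟩
      obtain ⟨u, hu, v, hv, huv⟩ := one_lt_card.1 (by omega : 1 < S.card)
      exact Bool.false_ne_true (h u hu v hv huv)
    | true =>
      intro h
      obtain ⟨S, _, hS⟩ := exists_subset_card_eq (s := (univ : Finset (Fin n))) (n := κ + 1)
        (by rw [card_univ, Fintype.card_fin]; exact hn)
      obtain ⟨u, _, v, _, _, h2⟩ := h S hS
      exact Bool.false_ne_true h2
  | succ m ih =>
    intro b
    cases b with
    | true =>
      rintro ⟨j, hj⟩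
      exact ih hj
    | false =>
      intro h
      exact ih (h ⟨0, ht⟩)

end Pool.Agent.J6H27.MPH
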