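import Pool.Agent.J6H27.MPH.Num

/-!
# The numbers for graphs on `2 ^ (b ^ 6)` vertices
-/

set_option autoImplicit false

namespace Pool.Agent.J6H27.MPH

open Filter

theorem pl_L {b L : ℕ} (hb : 1 ≤ b) (h2 : L < (b + 1) ^ 8) : L + 1 ≤ 256 * b ^ 8 := by
  have h3 : (b + 1) ^ 8 ≤ (2 * b) ^ 8 := Nat.pow_le_pow_left (by omega) 8
  have h4 : (2 * b) ^ 8 = 256 * b ^ 8 := by rw [mul_pow]; norm_num
  omega

theorem pl_N {b c L N : ℕ} (hb : 300 * (c + 1) ≤ b) (h2 : L < (b + 1) ^ 8)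
    (hN : N < 2 ^ (L + 1)) :
    N ^ c * ((b ^ 9) ^ (b ^ 3) * (b ^ 3).factorial) ^ 2 ≤ 2 ^ (256 * c * b ^ 8 + 24 * b ^ 4) := by
  have h4 := pl_L (by omega) h2
  have h5 : N ^ c ≤ 2 ^ (256 * c * b ^ 8) := by
    calc N ^ c ≤ (2 ^ (L + 1)) ^ c := Nat.pow_le_pow_left hN.le c
      _ = 2 ^ ((L + 1) * c) := (pow_mul _ _ _).symm
      _ ≤ _ := Nat.pow_le_pow_right (by norm_num) (by
        calc (L + 1) * c ≤ 256 * b ^ 8 * c := Nat.mul_le_mul_right _ h4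
          _ = _ := by ring)
  have h6 : ((b ^ 9) ^ (b ^ 3) * (b ^ 3).factorial) ^ 2 ≤ 2 ^ (24 * b ^ 4) := by
    calc ((b ^ 9) ^ (b ^ 3) * (b ^ 3).factorial) ^ 2 ≤
          ((b ^ 9) ^ (b ^ 3) * (b ^ 3) ^ (b ^ 3)) ^ 2 :=
            Nat.pow_le_pow_left (Nat.mul_le_mul_left _ (Nat.factorial_le_pow _)) 2
      _ = b ^ (24 * b ^ 3) := by
          rw [← pow_mul, ← pow_mul, ← pow_add, ← pow_mul]
          congr 1
          ring
      _ ≤ (2 ^ b) ^ (24 * b ^ 3) := Nat.pow_le_pow_left Nat.lt_two_pow_self.le _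
      _ = 2 ^ (24 * b ^ 4) := by
          rw [← pow_mul]
          congr 1
          ring
  calc _ ≤ 2 ^ (256 * c * b ^ 8) * 2 ^ (24 * b ^ 4) := Nat.mul_le_mul h5 h6
    _ = _ := (pow_add _ _ _).symm

theorem pl_low {b c L N : ℕ} (hb : 300 * (c + 1) ≤ b) (h2 : L < (b + 1) ^ 8)
    (hN : N < 2 ^ (L + 1)) :
    2 ^ (L + 3) * (N ^ c * ((b ^ 9) ^ (b ^ 3) * (b ^ 3).factorial) ^ 2) ≤
      (2 ^ (b ^ 6 - b ^ 5)) ^ (b ^ 3 + 1) ∧
    4 * (N ^ c * ((b ^ 9) ^ (b ^ 3) * (b ^ 3).factorial) ^ 2) ≤ 2 ^ (b ^ 9) := by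
  have h3 := pl_N hb h2 hN
  have h4 := pl_L (by omega) h2
  have hb1 : 1 ≤ b := by omega
  have hb8 : 1 ≤ b ^ 8 := Nat.one_le_pow _ _ hb1
  have e48 : b ^ 4 ≤ b ^ 8 := Nat.pow_le_pow_right hb1 (by norm_num)
  have e58 : b ^ 5 ≤ b ^ 8 := Nat.pow_le_pow_right hb1 (by norm_num)
  have h9 : (300 * (c + 1)) * b ^ 8 ≤ b ^ 9 := by
    calc (300 * (c + 1)) * b ^ 8 ≤ b * b ^ 8 := Nat.mul_le_mul_right _ hb
      _ = b ^ 9 := (pow_succ' _ _).symm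
  have h10 : 256 * c * b ^ 8 + 300 * b ^ 8 ≤ b ^ 9 := by
    refine le_trans ?_ h9
    have : 256 * c * b ^ 8 ≤ 300 * c * b ^ 8 := by gcongr; norm_num
    have e : 300 * (c + 1) * b ^ 8 = 300 * c * b ^ 8 + 300 * b ^ 8 := by ring
    omega
  have h11 : b ^ 5 ≤ b ^ 6 := Nat.pow_le_pow_right hb1 (by norm_num)
  have h12 : b ^ 9 + b ^ 6 = (b ^ 6 - b ^ 5) * (b ^ 3 + 1) + b ^ 8 + b ^ 5 := by
    obtain ⟨d, hd⟩ := Nat.exists_eq_add_of_le h11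
    rw [hd, Nat.add_sub_cancel_left]
    have e1 : b ^ 9 = b ^ 6 * b ^ 3 := by ring
    have e2 : b ^ 8 = b ^ 5 * b ^ 3 := by ring
    rw [e1, e2, hd]
    ring
  constructor
  · calc 2 ^ (L + 3) * (N ^ c * ((b ^ 9) ^ (b ^ 3) * (b ^ 3).factorial) ^ 2) ≤
          2 ^ (L + 3) * 2 ^ (256 * c * b ^ 8 + 24 * b ^ 4) := Nat.mul_le_mul_left _ h3
      _ = 2 ^ (L + 3 + (256 * c * b ^ 8 + 24 * b ^ 4)) := (pow_add _ _ _).symm
      _ ≤ 2 ^ ((b ^ 6 - b ^ 5) * (b ^ 3 + 1)) := Nat.pow_le_pow_right (by norm_num) (by omega)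
      _ = _ := pow_mul _ _ _
  · calc 4 * (N ^ c * ((b ^ 9) ^ (b ^ 3) * (b ^ 3).factorial) ^ 2) ≤
          2 ^ 2 * 2 ^ (256 * c * b ^ 8 + 24 * b ^ 4) := Nat.mul_le_mul_left _ h3
      _ = 2 ^ (2 + (256 * c * b ^ 8 + 24 * b ^ 4)) := (pow_add _ _ _).symm
      _ ≤ 2 ^ (b ^ 9) := Nat.pow_le_pow_right (by norm_num) (by omega)

theorem pl_emb {b : ℕ} (hb : 300 ≤ b) : (b ^ 6 + 1) * 2 ^ (b ^ 6 - b ^ 5) ≤ 2 ^ (b ^ 6) := by
  have hb1 : 1 ≤ b := by omega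
  have h1 : b ^ 6 ≤ 2 ^ (6 * b) := by
    calc b ^ 6 ≤ (2 ^ b) ^ 6 := Nat.pow_le_pow_left Nat.lt_two_pow_self.le _
      _ = 2 ^ (6 * b) := by rw [← pow_mul, mul_comm]
  have h2 : 6 * b + 1 ≤ b ^ 5 := by
    calc 6 * b + 1 ≤ 7 * b := by omega
      _ ≤ b ^ 4 * b := Nat.mul_le_mul_right _ (by
        calc 7 ≤ b ^ 1 := by rw [pow_one]; omega
          _ ≤ b ^ 4 := Nat.pow_le_pow_right hb1 (by norm_num))
      _ = b ^ 5 := (pow_succ _ _).symm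
  have h3 : b ^ 6 + 1 ≤ 2 ^ (b ^ 5) := by
    calc b ^ 6 + 1 ≤ 2 ^ (6 * b) + 2 ^ (6 * b) := Nat.add_le_add h1 Nat.one_le_two_pow
      _ = 2 ^ (6 * b + 1) := by rw [pow_succ]; ring
      _ ≤ _ := Nat.pow_le_pow_right (by norm_num) h2
  have h4 : b ^ 5 ≤ b ^ 6 := Nat.pow_le_pow_right hb1 (by norm_num)
  calc (b ^ 6 + 1) * 2 ^ (b ^ 6 - b ^ 5) ≤ 2 ^ (b ^ 5) * 2 ^ (b ^ 6 - b ^ 5) :=
        Nat.mul_le_mul_right _ h3
    _ = 2 ^ (b ^ 6) := by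
        rw [← pow_add]
        congr 1
        omega

theorem pl_up {b L k : ℕ} (hb : 300 ≤ b) (h2 : L < (b + 1) ^ 8) (hk : k ≤ Nat.log 2 L) :
    (12 * (L + 4)) ^ (k + 1) * (2 ^ (2 * b ^ 6) * (L + 1) ^ 3) ≤ 2 ^ (3 * b ^ 6) := by
  have hb1 : 1 ≤ b := by omega
  have h4 := pl_L hb1 h2
  have hb8 : 1 ≤ b ^ 8 := Nat.one_le_pow _ _ hb1
  have h8 : b ^ 8 ≤ 2 ^ (8 * b) := by
    calc b ^ 8 ≤ (2 ^ b) ^ 8 := Nat.pow_le_pow_left Nat.lt_two_pow_self.le _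
      _ = 2 ^ (8 * b) := by rw [← pow_mul, mul_comm]
  have h5 : 12 * (L + 4) ≤ 2 ^ (8 * b + 13) := by
    calc 12 * (L + 4) ≤ 2 ^ 13 * b ^ 8 := by norm_num; omega
      _ ≤ 2 ^ 13 * 2 ^ (8 * b) := Nat.mul_le_mul_left _ h8
      _ = _ := by rw [← pow_add, add_comm]
  have h6 : L + 1 ≤ 2 ^ (8 * b + 8) := by
    calc L + 1 ≤ 2 ^ 8 * b ^ 8 := by norm_num; omega
      _ ≤ 2 ^ 8 * 2 ^ (8 * b) := Nat.mul_le_mul_left _ h8
      _ = _ := by rw [← pow_add, add_comm]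
  have h7 : k ≤ 8 * b + 8 := by
    refine hk.trans ?_
    have : Nat.log 2 L < 8 * b + 8 + 1 := by
      refine Nat.log_lt_of_lt_pow' (by omega) ?_
      have h8' : 2 ^ (8 * b + 8) ≤ 2 ^ (8 * b + 8 + 1) :=
        Nat.pow_le_pow_right (by norm_num) (by omega)
      omega
    omega
  have h9 : (12 * (L + 4)) ^ (k + 1) ≤ 2 ^ ((8 * b + 13) * (8 * b + 9)) := by
    calc (12 * (L + 4)) ^ (k + 1) ≤ (2 ^ (8 * b + 13)) ^ (k + 1) := Nat.pow_le_pow_left h5 _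
      _ ≤ (2 ^ (8 * b + 13)) ^ (8 * b + 9) :=
        Nat.pow_le_pow_right (Nat.one_le_two_pow) (by omega)
      _ = _ := (pow_mul _ _ _).symm
  have h10 : (L + 1) ^ 3 ≤ 2 ^ ((8 * b + 8) * 3) := by
    calc (L + 1) ^ 3 ≤ (2 ^ (8 * b + 8)) ^ 3 := Nat.pow_le_pow_left h6 _
      _ = _ := (pow_mul _ _ _).symm
  have h11 : (8 * b + 13) * (8 * b + 9) + (8 * b + 8) * 3 ≤ b ^ 6 := by
    calc (8 * b + 13) * (8 * b + 9) + (8 * b + 8) * 3 ≤ (9 * b) * (9 * b) + 27 * b := by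
          refine Nat.add_le_add (Nat.mul_le_mul (by omega) (by omega)) (by omega)
      _ ≤ 81 * b ^ 2 + 27 * b ^ 2 := by nlinarith
      _ ≤ b * b ^ 2 := by nlinarith
      _ = b ^ 3 := by ring
      _ ≤ b ^ 6 := Nat.pow_le_pow_right hb1 (by norm_num)
  calc (12 * (L + 4)) ^ (k + 1) * (2 ^ (2 * b ^ 6) * (L + 1) ^ 3) ≤
        2 ^ ((8 * b + 13) * (8 * b + 9)) * (2 ^ (2 * b ^ 6) * 2 ^ ((8 * b + 8) * 3)) :=
          Nat.mul_le_mul h9 (Nat.mul_le_mul_left _ h10)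
    _ = 2 ^ ((8 * b + 13) * (8 * b + 9) + (2 * b ^ 6 + (8 * b + 8) * 3)) := by
        rw [← pow_add, ← pow_add]
    _ ≤ _ := Nat.pow_le_pow_right (by norm_num) (by omega)

/-- the upper bounds -/
theorem pl_G {b L : ℕ} (hb : 300 ≤ b) (h1 : b ^ 8 ≤ L) :
    L + (L + (b ^ 12 + b ^ 6)) ≤ L ^ 2 ∧ (b ^ 6 + 1) * (b ^ 6 + 1) ≤ L ^ 2 ∧
    (L + 1) ^ 3 ≤ 2 ^ L ∧ L ^ 2 + (Nat.log 2 L + 1) * L ^ 2 ≤ L ^ 3 ∧ 2 ≤ L := by
  have hb1 : 1 ≤ b := by omega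
  have hb2 : 300 ≤ b ^ 8 := by
    calc 300 ≤ b ^ 1 := by rw [pow_one]; omega
      _ ≤ b ^ 8 := Nat.pow_le_pow_right hb1 (by norm_num)
  have hL : 300 ≤ L := hb2.trans h1
  have e6 : b ^ 6 + 1 ≤ L := by
    refine le_trans ?_ h1
    have : b ^ 8 = b ^ 2 * b ^ 6 := by ring
    have h3 : 1 ≤ b ^ 6 := Nat.one_le_pow _ _ hb1
    have h4 : 2 ≤ b ^ 2 := by nlinarith
    nlinarith
  refine ⟨?_, ?_, ?_, ?_, by omega⟩
  · have e12 : b ^ 12 ≤ L * b ^ 4 := by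
      calc b ^ 12 = b ^ 8 * b ^ 4 := by ring
        _ ≤ L * b ^ 4 := Nat.mul_le_mul_right _ h1
    have e4 : b ^ 4 + 3 ≤ L := by
      refine le_trans ?_ h1
      have h3 : 1 ≤ b ^ 4 := Nat.one_le_pow _ _ hb1
      have : b ^ 8 = b ^ 4 * b ^ 4 := by ring
      have h4 : 4 ≤ b ^ 4 := by
        calc 4 ≤ b ^ 1 := by rw [pow_one]; omega
          _ ≤ b ^ 4 := Nat.pow_le_pow_right hb1 (by norm_num)
      nlinarith
    nlinarith
  · rw [sq]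
    exact Nat.mul_le_mul e6 e6
  · have key2 : ∀ n : ℕ, 11 ≤ n → (n + 1) ^ 3 ≤ 2 ^ n := by
      intro n hn
      induction n, hn using Nat.le_induction with
      | base => norm_num
      | succ n hn ih =>
        rw [pow_succ 2 n]
        have hy : 12 ≤ n + 1 := by omega
        generalize n + 1 = y at hy ih ⊢
        have h3 : 12 * y ^ 2 ≤ y ^ 3 := by
          calc 12 * y ^ 2 ≤ y * y ^ 2 := Nat.mul_le_mul_right _ hy
            _ = y ^ 3 := by ring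
        have h4 : y ≤ y ^ 2 := by nlinarith
        have h5 : (y + 1) ^ 3 = y ^ 3 + 3 * y ^ 2 + 3 * y + 1 := by ring
        have h6 : 1 ≤ y ^ 2 := Nat.one_le_pow _ _ (by omega)
        omega
    exact key2 L (by omega)
  · have h3 : Nat.log 2 L + 2 ≤ L := by
      have h4 : 2 ^ Nat.log 2 L ≤ L := Nat.pow_log_le_self 2 (by omega)
      have h5 : ∀ n : ℕ, n + 2 ≤ 2 ^ n + 1 + 1 := by
        intro n
        have := Nat.lt_two_pow_self (n := n)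
        omega
      have h6 : Nat.log 2 L < L := Nat.log_lt_self 2 (by omega)
      by_contra hcon
      have h7 : Nat.log 2 L = L - 1 := by omega
      rw [h7] at h4
      have h8 := Nat.lt_two_pow_self (n := L - 2)
      have h9 : 2 ^ (L - 1) = 2 * 2 ^ (L - 2) := by
        rw [← pow_succ']
        congr 1
        omega
      omega
    calc L ^ 2 + (Nat.log 2 L + 1) * L ^ 2 = (Nat.log 2 L + 2) * L ^ 2 := by ring
      _ ≤ L * L ^ 2 := Nat.mul_le_mul_right _ h3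
      _ = L ^ 3 := by ring

/-- **The numbers.** -/
theorem pl_nums (c : ℕ) (ε : ℝ) (hε : 0 < ε) : ∀ᶠ N : ℕ in atTop, ∀ L b : ℕ,
    L = Nat.log 2 N → b = root 8 L →
    300 * (c + 1) ≤ b ∧ b ^ 8 ≤ L ∧ L < (b + 1) ^ 8 ∧ N < 2 ^ (L + 1) ∧ 2 ^ L ≤ N ∧
    ∀ X k : ℕ, (X : ℝ) ≤ (N : ℝ) ^ (1 - ε) → k ≤ Nat.log 2 L →
      X * ((12 * (L + 4)) ^ (k + 1) * (2 ^ (2 * b ^ 6) * (L + 1) ^ 3)) ≤ N := by
  have ht : Tendsto (fun N : ℕ => root 8 (Nat.log 2 N)) atTop atTop :=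
    (tendsto_root (by norm_num)).comp tendsto_log
  filter_upwards [ht.eventually_ge_atTop (300 * (c + 1)), eventually_ge_atTop 1,
    (tendsto_natCast_atTop_atTop (R := ℝ)).comp ht |>.eventually_ge_atTop (3 / ε)] with N h1 h2 h3
  rintro L b hL hb
  rw [← hL, ← hb] at h1
  simp only [Function.comp_apply] at h3
  rw [← hL, ← hb] at h3
  have hb8 : b ^ 8 ≤ L := by rw [hb]; exact root_pow (by norm_num)
  have hL8 : L < (b + 1) ^ 8 := by rw [hb]; exact lt_root (by norm_num)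
  have hN2 : 2 ^ L ≤ N := by rw [hL]; exact Nat.pow_log_le_self 2 (by omega)
  refine ⟨h1, hb8, hL8, ?_, hN2, ?_⟩
  · rw [hL]
    exact Nat.lt_pow_succ_log_self (by norm_num) N
  · intro X k hX hk
    have h4 := pl_up (by omega) hL8 hk
    have h5 : X * 2 ^ (3 * b ^ 6) ≤ N := by
      have hb1 : (1 : ℝ) ≤ b := by exact_mod_cast (by omega : 1 ≤ b)
      have hN1 : (1 : ℝ) ≤ N := by exact_mod_cast h2
      have h6 : ((3 * b ^ 6 : ℕ) : ℝ) ≤ ε * L := by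
        have h7 : 3 ≤ ε * b := by
          rw [div_le_iff₀ hε] at h3
          linarith
        have h8 : ((b ^ 8 : ℕ) : ℝ) ≤ L := by exact_mod_cast hb8
        push_cast at h8 ⊢
        calc (3 : ℝ) * b ^ 6 ≤ (ε * b) * b ^ 6 := by gcongr
          _ ≤ (ε * b) * b ^ 6 * b := le_mul_of_one_le_right (by positivity) hb1
          _ = ε * b ^ 8 := by ring
          _ ≤ ε * L := by gcongr
      have h7 : ((2 : ℝ)) ^ (3 * b ^ 6) ≤ (N : ℝ) ^ ε := by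
        calc ((2 : ℝ)) ^ (3 * b ^ 6) = (2 : ℝ) ^ (((3 * b ^ 6 : ℕ) : ℝ)) := by
              rw [Real.rpow_natCast]
          _ ≤ (2 : ℝ) ^ (ε * L) := Real.rpow_le_rpow_of_exponent_le (by norm_num) h6
          _ = ((2 : ℝ) ^ L) ^ ε := by
              rw [← Real.rpow_natCast, ← Real.rpow_mul (by norm_num), mul_comm]
          _ ≤ (N : ℝ) ^ ε := Real.rpow_le_rpow (by positivity) (by exact_mod_cast hN2) hε.le
      have h8 : ((X * 2 ^ (3 * b ^ 6) : ℕ) : ℝ) ≤ N := by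
        push_cast
        calc (X : ℝ) * 2 ^ (3 * b ^ 6) ≤ (N : ℝ) ^ (1 - ε) * (N : ℝ) ^ ε :=
              mul_le_mul hX h7 (by positivity) (by positivity)
          _ = N := by
              rw [← Real.rpow_add (by positivity)]
              simp
      exact_mod_cast h8
    exact (Nat.mul_le_mul_left X h4).trans h5

end Pool.Agent.J6H27.MPH
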