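import Pool.Agent.J6H27.MPH.Pl
import Pool.Agent.J6H27.MPH.Pl2

/-!
# One function for all the sizes of guesses
-/

set_option autoImplicit false

namespace Pool.Agent.J6H27.MPH

open Finset Pool.Agent.H520R2 Pool.Agent.H520R2.NM Pool.Agent.J6H7.Chain Filter

/-- the admissible sizes `(m, i, j)`: trees of depth `m` and of degree `2 ^ i` in the root and
`2 ^ j` elsewhere -/
def Sc (L n N : ℕ) : Type :=
  {σ : Fin (L + 1) × Fin (L + 1) × Fin (L + 1) // (σ.1 : ℕ) ≤ Nat.log 2 L ∧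
    2 ^ (σ.2.1 : ℕ) * (2 ^ (σ.2.2 : ℕ)) ^ (σ.1 : ℕ) * (n ^ 2 * (L + 1) ^ 3) ≤ N}

instance (L n N : ℕ) : Fintype (Sc L n N) := by
  unfold Sc
  infer_instance

theorem card_sc (L n N : ℕ) : Fintype.card (Sc L n N) ≤ (L + 1) ^ 3 := by
  refine (Fintype.card_subtype_le _).trans (le_of_eq ?_)
  rw [Fintype.card_prod, Fintype.card_prod, Fintype.card_fin]
  ring

/-- the variables of one size -/
abbrev SVar (L n N : ℕ) (σ : Sc L n N) : Type :=
  Fin (2 ^ (σ.1.2.1 : ℕ)) × Var (2 ^ (σ.1.2.2 : ℕ)) n σ.1.1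

theorem exists_pemb {L n N : ℕ} (hn : 1 ≤ n) :
    Nonempty ((Σ σ : Sc L n N, SVar L n N σ) ↪ Fin N) := by
  let _ : ∀ t n m, Fintype (Var t n m) := fun t n m => varFintype t n m
  refine Function.Embedding.nonempty_of_card_le ?_
  rw [Fintype.card_sigma, Fintype.card_fin]
  have h1 : ∀ σ : Sc L n N, (L + 1) ^ 3 * Fintype.card (SVar L n N σ) ≤ N := by
    intro σ
    refine le_trans ?_ σ.2.2
    have h2 : Fintype.card (SVar L n N σ) ≤
        2 ^ (σ.1.2.1 : ℕ) * ((2 ^ (σ.1.2.2 : ℕ)) ^ (σ.1.1 : ℕ) * n ^ 2) := by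
      rw [Fintype.card_prod, Fintype.card_fin]
      exact Nat.mul_le_mul_left _ (card_var _ _ _ hn)
    calc (L + 1) ^ 3 * Fintype.card (SVar L n N σ) ≤
          (L + 1) ^ 3 * (2 ^ (σ.1.2.1 : ℕ) * ((2 ^ (σ.1.2.2 : ℕ)) ^ (σ.1.1 : ℕ) * n ^ 2)) :=
            Nat.mul_le_mul_left _ h2
      _ = _ := by ring
  have h3 : (L + 1) ^ 3 * ∑ σ : Sc L n N, Fintype.card (SVar L n N σ) ≤ (L + 1) ^ 3 * N := by
    rw [mul_sum]
    calc ∑ σ : Sc L n N, (L + 1) ^ 3 * Fintype.card (SVar L n N σ) ≤ ∑ _σ : Sc L n N, N :=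
          sum_le_sum fun σ _ => h1 σ
      _ = Fintype.card (Sc L n N) * N := by
          rw [sum_const, card_univ, smul_eq_mul]
      _ ≤ _ := Nat.mul_le_mul_right _ (card_sc L n N)
  exact Nat.le_of_mul_le_mul_left h3 (by positivity)

open Classical in
/-- The function of `N` variables. -/
noncomputable def pfam (L b N : ℕ) (x : Fin N → Bool) : Prop :=
  if h : Nonempty ((Σ σ : Sc L (2 ^ b ^ 6) N, SVar L (2 ^ b ^ 6) N σ) ↪ Fin N)
  then ∃ σ, Top (2 ^ (σ.1.2.1 : ℕ)) (2 ^ (σ.1.2.2 : ℕ)) (2 ^ b ^ 6) (b ^ 6 + 1) σ.1.1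
    (fun v => x (h.some ⟨σ, v⟩))
  else False

theorem pfam_upper {L b N : ℕ} (hb : 300 ≤ b) (h1 : b ^ 8 ≤ L)
    (hsc : 2 ^ (2 * b ^ 6) * (L + 1) ^ 3 ≤ N) :
    Level (L ^ 2) (L ^ 2) (Nat.log 2 L + 1) true (pfam L b N) := by
  have hn1 : 1 ≤ 2 ^ b ^ 6 := Nat.one_le_two_pow
  obtain ⟨g1, g2, g3, g4, g5⟩ := pl_G hb h1
  have hemb := exists_pemb (L := L) (n := 2 ^ b ^ 6) (N := N) hn1
  have hkn : b ^ 6 + 1 ≤ 2 ^ b ^ 6 := Nat.lt_two_pow_self
  have hpow : ∀ i : ℕ, i ≤ L → 2 ^ i * (2 ^ b ^ 6) ^ (b ^ 6 + 1) ≤ 2 ^ (L + (b ^ 12 + b ^ 6)) := by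
    intro i hi
    calc 2 ^ i * (2 ^ b ^ 6) ^ (b ^ 6 + 1) = 2 ^ (i + b ^ 6 * (b ^ 6 + 1)) := by
          rw [← pow_mul, ← pow_add]
      _ ≤ 2 ^ (L + (b ^ 12 + b ^ 6)) := Nat.pow_le_pow_right (by norm_num) (by
          have : b ^ 6 * (b ^ 6 + 1) = b ^ 12 + b ^ 6 := by ring
          omega)
  have hne : Nonempty (Sc L (2 ^ b ^ 6) N) := by
    refine ⟨⟨(0, 0, 0), Nat.zero_le _, ?_⟩⟩
    simp only [Fin.val_zero, pow_zero, one_mul]
    rw [← pow_mul, mul_comm (b ^ 6) 2]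
    exact hsc
  have hlev : ∀ σ : Sc L (2 ^ b ^ 6) N,
      Level (L + (b ^ 12 + b ^ 6)) (L ^ 2) (Nat.log 2 L + 1) true
        (fun x : Fin N → Bool => Top (2 ^ (σ.1.2.1 : ℕ)) (2 ^ (σ.1.2.2 : ℕ)) (2 ^ b ^ 6)
          (b ^ 6 + 1) σ.1.1 (fun v => x (hemb.some ⟨σ, v⟩))) := by
    intro σ
    have hi : (σ.1.2.1 : ℕ) ≤ L := Nat.lt_succ_iff.1 σ.1.2.1.2
    have hj : (σ.1.2.2 : ℕ) ≤ L := Nat.lt_succ_iff.1 σ.1.2.2.2
    have hup := (up (t := 2 ^ (σ.1.2.2 : ℕ)) (n := 2 ^ b ^ 6) (k := b ^ 6 + 1)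
      (g := L + (b ^ 12 + b ^ 6)) (s := L ^ 2) (by positivity) hkn hn1 (hpow _ hj) g2 σ.1.1
      (2 ^ (σ.1.2.1 : ℕ)) (by positivity) (hpow _ hi)).1
    have h2 := hup.subst (fun v => (Sum.inr (hemb.some ⟨σ, v⟩) : Bool ⊕ Fin N))
    have h3 : Level (L + (b ^ 12 + b ^ 6)) (L ^ 2) ((σ.1.1 : ℕ) + 1) true
        (fun x : Fin N → Bool => Top (2 ^ (σ.1.2.1 : ℕ)) (2 ^ (σ.1.2.2 : ℕ)) (2 ^ b ^ 6)
          (b ^ 6 + 1) σ.1.1 (fun v => x (hemb.some ⟨σ, v⟩))) := h2.congr fun x => Iff.rfl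
    exact h3.lift (Nat.succ_le_succ σ.2.1)
  have h4 := (Level.union hlev (z := L) ((card_sc _ _ _).trans g3)).gmono (g' := L ^ 2) g1
  refine h4.congr fun x => ?_
  unfold pfam
  rw [dif_pos hemb]

/-- the restriction to one size -/
theorem pfam_restrict {L b N : ℕ} (hb : 1 ≤ b) (σ : Sc L (2 ^ b ^ 6) N) :
    ∃ τ : Fin N → Bool ⊕ SVar L (2 ^ b ^ 6) N σ, ∀ y : SVar L (2 ^ b ^ 6) N σ → Bool,
      pfam L b N (sub τ y) ↔ Top (2 ^ (σ.1.2.1 : ℕ)) (2 ^ (σ.1.2.2 : ℕ)) (2 ^ b ^ 6)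
        (b ^ 6 + 1) σ.1.1 y := by
  classical
  have hn1 : 1 ≤ 2 ^ b ^ 6 := Nat.one_le_two_pow
  have hκ : 1 ≤ b ^ 6 := Nat.one_le_pow _ _ hb
  have hkn : b ^ 6 + 1 ≤ 2 ^ b ^ 6 := Nat.lt_two_pow_self
  have hemb := exists_pemb (L := L) (n := 2 ^ b ^ 6) (N := N) hn1
  let τ : Fin N → Bool ⊕ SVar L (2 ^ b ^ 6) N σ := fun i =>
    if h : ∃ v, hemb.some ⟨σ, v⟩ = i then Sum.inr h.choose else Sum.inl false
  have h1 : ∀ y v, sub τ y (hemb.some ⟨σ, v⟩) = y v := by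
    intro y v
    have hex : ∃ v', hemb.some ⟨σ, v'⟩ = hemb.some ⟨σ, v⟩ := ⟨v, rfl⟩
    have hc := hemb.some.injective hex.choose_spec
    have hc' : hex.choose = v := by
      simpa using hc
    have : τ (hemb.some ⟨σ, v⟩) = Sum.inr v := by
      simp only [τ]
      rw [dif_pos hex, hc']
    unfold sub
    rw [this]
  have h2 : ∀ y (σ' : Sc L (2 ^ b ^ 6) N), σ' ≠ σ → ∀ v,
      sub τ y (hemb.some ⟨σ', v⟩) = false := by
    intro y σ' hσ v
    have hex : ¬ ∃ v', hemb.some ⟨σ, v'⟩ = hemb.some ⟨σ', v⟩ := by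
      rintro ⟨v', hv'⟩
      have := hemb.some.injective hv'
      exact hσ (congrArg Sigma.fst this).symm
    have : τ (hemb.some ⟨σ', v⟩) = Sum.inl false := by
      simp only [τ]
      rw [dif_neg hex]
    unfold sub
    rw [this]
  refine ⟨τ, fun y => ?_⟩
  unfold pfam
  rw [dif_pos hemb]
  constructor
  · rintro ⟨σ', h3⟩
    by_cases hσ : σ' = σ
    · subst hσ
      have : (fun v => sub τ y (hemb.some ⟨σ', v⟩)) = y := funext fun v => h1 y v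
      rwa [this] at h3
    · exfalso
      have : (fun v => sub τ y (hemb.some ⟨σ', v⟩)) = fun _ => false :=
        funext fun v => h2 y σ' hσ v
      rw [this] at h3
      obtain ⟨i, hi⟩ := h3
      exact tree_false (by positivity) hκ hkn hi
  · intro h3
    refine ⟨σ, ?_⟩
    have : (fun v => sub τ y (hemb.some ⟨σ, v⟩)) = y := funext fun v => h1 y v
    rwa [this]

/-- an embedding for the tests -/
theorem exists_tests_emb {b : ℕ} (hb : 300 ≤ b) :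
    Nonempty (Fin (b ^ 6 + 1) × Fin (2 ^ (b ^ 6 - b ^ 5)) ↪ Fin (2 ^ b ^ 6)) := by
  refine Function.Embedding.nonempty_of_card_le ?_
  rw [Fintype.card_prod, Fintype.card_fin, Fintype.card_fin, Fintype.card_fin]
  exact pl_emb hb

/-- one size -/
theorem exists_sc {L b N m i j : ℕ} (hm : m ≤ Nat.log 2 L) (hN : N < 2 ^ (L + 1))
    (hj : 2 ^ j ≤ N) (h : 2 ^ i * (2 ^ j) ^ m * (2 ^ (2 * b ^ 6) * (L + 1) ^ 3) ≤ N) :
    ∃ σ : Sc L (2 ^ b ^ 6) N, (σ.1.1 : ℕ) = m ∧ (σ.1.2.1 : ℕ) = i ∧ (σ.1.2.2 : ℕ) = j := by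
  have hpos : 0 < (2 ^ j) ^ m * (2 ^ (2 * b ^ 6) * (L + 1) ^ 3) := by positivity
  have hi : 2 ^ i ≤ N := by
    refine le_trans ?_ h
    rw [mul_assoc]
    exact Nat.le_mul_of_pos_right _ hpos
  have hi' : i < L + 1 := (Nat.pow_lt_pow_iff_right (by norm_num)).1 (hi.trans_lt hN)
  have hj' : j < L + 1 := (Nat.pow_lt_pow_iff_right (by norm_num)).1 (hj.trans_lt hN)
  have hm' : m < L + 1 := Nat.lt_succ_of_le (hm.trans (Nat.log_le_self 2 L))
  refine ⟨⟨(⟨m, hm'⟩, ⟨i, hi'⟩, ⟨j, hj'⟩), hm, ?_⟩, rfl, rfl, rfl⟩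
  rw [← pow_mul 2 (b ^ 6) 2, mul_comm (b ^ 6) 2]
  exact h

/-- powers of two between -/
theorem exists_two_pow (a : ℕ) (ha : 1 ≤ a) : ∃ i, a ≤ 2 ^ i ∧ 2 ^ i ≤ 2 * a := by
  refine ⟨Nat.clog 2 a, Nat.le_pow_clog (by norm_num) a, ?_⟩
  rcases Nat.eq_or_lt_of_le ha with h | h
  · rw [← h]
    norm_num
  · have h2 := Nat.pow_pred_clog_lt_self (b := 2) (by norm_num) h
    have h3 : 0 < Nat.clog 2 a := Nat.clog_pos (by norm_num) h
    have h4 : 2 ^ Nat.clog 2 a = 2 * 2 ^ (Nat.clog 2 a).pred := by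
      rw [← pow_succ']
      congr 1
      simp only [Nat.pred_eq_sub_one]
      omega
    rw [h4]
    omega

/-- the lower bound for single devices, `∃` first -/
theorem single_true {c b L N k g : ℕ} (hb : 300 * (c + 1) ≤ b) (hL : L < (b + 1) ^ 8)
    (hN : N < 2 ^ (L + 1)) (hg : 1 ≤ g) (hk : k ≤ Nat.log 2 L)
    (hX : g ^ k * ((12 * (L + 4)) ^ (k + 1) * (2 ^ (2 * b ^ 6) * (L + 1) ^ 3)) ≤ N)
    (hgN : 12 * (L + 4) * g ≤ N) : ¬ Level g (N ^ c) k true (pfam L b N) := by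
  intro hlev
  obtain ⟨j, hj1, hj2⟩ := exists_two_pow (2 * (3 * (g + (L + 3)))) (by omega)
  have hb1 : 1 ≤ b := by omega
  have hj3 : 2 ^ j ≤ 12 * (L + 4) * g := by
    refine hj2.trans ?_
    nlinarith
  obtain ⟨σ, h1, h2, h3⟩ := exists_sc (b := b) (m := k) (i := 0) (j := j) hk hN
    (hj3.trans hgN) (by
      refine le_trans ?_ hX
      calc 2 ^ 0 * (2 ^ j) ^ k * (2 ^ (2 * b ^ 6) * (L + 1) ^ 3) ≤
            1 * (12 * (L + 4) * g) ^ k * (2 ^ (2 * b ^ 6) * (L + 1) ^ 3) := by gcongr; norm_num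
        _ = g ^ k * ((12 * (L + 4)) ^ k * (2 ^ (2 * b ^ 6) * (L + 1) ^ 3)) := by
            rw [mul_pow]; ring
        _ ≤ _ := by
            refine Nat.mul_le_mul_left _ (Nat.mul_le_mul_right _ ?_)
            exact Nat.pow_le_pow_right (by omega) (Nat.le_succ k))
  obtain ⟨τ, hτ⟩ := pfam_restrict hb1 σ
  obtain ⟨emb⟩ := exists_tests_emb (b := b) (by omega)
  obtain ⟨n1, n2⟩ := pl_low hb hL hN
  have hb3 : 2 ≤ b ^ 3 := by
    calc 2 ≤ b ^ 1 := by rw [pow_one]; omega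
      _ ≤ b ^ 3 := Nat.pow_le_pow_right hb1 (by norm_num)
  have hb9 : 2 ≤ b ^ 9 := by
    calc 2 ≤ b ^ 1 := by rw [pow_one]; omega
      _ ≤ b ^ 9 := Nat.pow_le_pow_right hb1 (by norm_num)
  have hll : b ^ 3 * (b ^ 3 - 1) ≤ b ^ 6 := by
    calc b ^ 3 * (b ^ 3 - 1) ≤ b ^ 3 * b ^ 3 := Nat.mul_le_mul_left _ (Nat.sub_le _ _)
      _ = b ^ 6 := by ring
  obtain ⟨A, B, iA, iB, nA, nB, pos, neg, hpos, hneg, hst⟩ :=
    (tests (m := (σ.1.1 : ℕ)) (g := g) (s := N ^ c) (r := 3 * (g + (L + 3)))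
      (t := 2 ^ (σ.1.2.2 : ℕ)) (K := 2 ^ (L + 3)) emb emb.injective
      Nat.one_le_two_pow (Nat.one_le_pow _ _ hb1) hb3 hll hb9 n1 n2 threefour
      (by
        calc 4 = 2 ^ 2 := by norm_num
          _ ≤ 2 ^ (L + 3) := Nat.pow_le_pow_right (by norm_num) (by omega))
      (by rw [h3]; exact hj1) (by positivity)).1
  have hlev2 : Level g (N ^ c) σ.1.1 true (Tree (2 ^ (σ.1.2.2 : ℕ)) (2 ^ b ^ 6) (b ^ 6 + 1)
      σ.1.1 false) := by
    rw [← h1] at hlev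
    have h4 := (hlev.subst τ).congr hτ
    have h5 := h4.subst (fun v : SVar L (2 ^ b ^ 6) N σ =>
      (Sum.inr v.2 : Bool ⊕ Var (2 ^ (σ.1.2.2 : ℕ)) (2 ^ b ^ 6) σ.1.1))
    refine h5.congr fun x => ?_
    constructor
    · rintro ⟨_, h⟩
      exact h
    · intro h
      exact ⟨⟨0, by positivity⟩, h⟩
  rcases hst _ hlev2 with h | h
  · rw [num_true hpos] at h
    have hA : 0 < Fintype.card A := Fintype.card_pos
    have : 2 ^ 3 ≤ 2 ^ (L + 3) := Nat.pow_le_pow_right (by norm_num) (by omega)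
    nlinarith
  · rw [num_true hneg] at h
    have hB : 0 < Fintype.card B := Fintype.card_pos
    omega

/-- the lower bound for single devices, `∀` first -/
theorem single_false {c b L N k g : ℕ} (hb : 300 * (c + 1) ≤ b) (hL : L < (b + 1) ^ 8)
    (hN : N < 2 ^ (L + 1)) (hg : 1 ≤ g) (hk : k + 1 ≤ Nat.log 2 L)
    (hX : g ^ (k + 1) * ((12 * (L + 4)) ^ (k + 1 + 1) * (2 ^ (2 * b ^ 6) * (L + 1) ^ 3)) ≤ N)
    (hgN : 12 * (L + 4) * g ≤ N) : ¬ Level g (N ^ c) (k + 1) false (pfam L b N) := by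
  intro hlev
  obtain ⟨j, hj1, hj2⟩ := exists_two_pow (2 * (3 * (g + (L + 3)))) (by omega)
  have hb1 : 1 ≤ b := by omega
  have hj3 : 2 ^ j ≤ 12 * (L + 4) * g := by
    refine hj2.trans ?_
    nlinarith
  obtain ⟨σ, h1, h2, h3⟩ := exists_sc (b := b) (m := k) (i := j) (j := j) (by omega) hN
    (hj3.trans hgN) (by
      refine le_trans ?_ hX
      calc 2 ^ j * (2 ^ j) ^ k * (2 ^ (2 * b ^ 6) * (L + 1) ^ 3) =
            (2 ^ j) ^ (k + 1) * (2 ^ (2 * b ^ 6) * (L + 1) ^ 3) := by rw [← pow_succ']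
        _ ≤ (12 * (L + 4) * g) ^ (k + 1) * (2 ^ (2 * b ^ 6) * (L + 1) ^ 3) := by gcongr
        _ = g ^ (k + 1) * ((12 * (L + 4)) ^ (k + 1) * (2 ^ (2 * b ^ 6) * (L + 1) ^ 3)) := by
            rw [mul_pow]; ring
        _ ≤ _ := by
            refine Nat.mul_le_mul_left _ (Nat.mul_le_mul_right _ ?_)
            exact Nat.pow_le_pow_right (by omega) (Nat.le_succ _))
  obtain ⟨τ, hτ⟩ := pfam_restrict hb1 σ
  obtain ⟨emb⟩ := exists_tests_emb (b := b) (by omega)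
  obtain ⟨n1, n2⟩ := pl_low hb hL hN
  have hb3 : 2 ≤ b ^ 3 := by
    calc 2 ≤ b ^ 1 := by rw [pow_one]; omega
      _ ≤ b ^ 3 := Nat.pow_le_pow_right hb1 (by norm_num)
  have hb9 : 2 ≤ b ^ 9 := by
    calc 2 ≤ b ^ 1 := by rw [pow_one]; omega
      _ ≤ b ^ 9 := Nat.pow_le_pow_right hb1 (by norm_num)
  have hll : b ^ 3 * (b ^ 3 - 1) ≤ b ^ 6 := by
    calc b ^ 3 * (b ^ 3 - 1) ≤ b ^ 3 * b ^ 3 := Nat.mul_le_mul_left _ (Nat.sub_le _ _)
      _ = b ^ 6 := by ring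
  obtain ⟨A, B, iA, iB, nA, nB, pos, neg, hpos, hneg, hst⟩ :=
    (tests (m := (σ.1.1 : ℕ) + 1) (g := g) (s := N ^ c) (r := 3 * (g + (L + 3)))
      (t := 2 ^ (σ.1.2.2 : ℕ)) (K := 2 ^ (L + 3)) emb emb.injective
      Nat.one_le_two_pow (Nat.one_le_pow _ _ hb1) hb3 hll hb9 n1 n2 threefour
      (by
        calc 4 = 2 ^ 2 := by norm_num
          _ ≤ 2 ^ (L + 3) := Nat.pow_le_pow_right (by norm_num) (by omega))
      (by rw [h3]; exact hj1) (by positivity)).2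
  have hij : (2 : ℕ) ^ (σ.1.2.1 : ℕ) = 2 ^ (σ.1.2.2 : ℕ) := by rw [h2, h3]
  have hlev2 : Level g (N ^ c) (σ.1.1 + 1) false (Tree (2 ^ (σ.1.2.2 : ℕ)) (2 ^ b ^ 6)
      (b ^ 6 + 1) (σ.1.1 + 1) true) := by
    rw [← h1] at hlev
    have h4 := (hlev.subst τ).congr hτ
    have h5 := h4.subst (fun v : SVar L (2 ^ b ^ 6) N σ =>
      (Sum.inr (finCongr hij v.1, v.2) :
        Bool ⊕ (Fin (2 ^ (σ.1.2.2 : ℕ)) × Var (2 ^ (σ.1.2.2 : ℕ)) (2 ^ b ^ 6) σ.1.1)))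
    refine h5.congr fun x => ?_
    constructor
    · rintro ⟨i, h⟩
      exact ⟨finCongr hij i, h⟩
    · rintro ⟨i, h⟩
      refine ⟨(finCongr hij).symm i, ?_⟩
      show Tree _ _ _ _ false (fun v => x (finCongr hij ((finCongr hij).symm i), v))
      rw [Equiv.apply_symm_apply]
      exact h
  rcases hst _ hlev2 with h | h
  · rw [num_true hneg] at h
    have hB : 0 < Fintype.card B := Fintype.card_pos
    have : 2 ^ 3 ≤ 2 ^ (L + 3) := Nat.pow_le_pow_right (by norm_num) (by omega)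
    nlinarith
  · rw [num_true hpos] at h
    have hA : 0 < Fintype.card A := Fintype.card_pos
    omega

/-- the lower bound for strategies -/
theorem strategy_lower {c b L N k g : ℕ} {ws : List ℕ} (hb : 300 * (c + 1) ≤ b)
    (hL : L < (b + 1) ^ 8) (hN : N < 2 ^ (L + 1)) (hg : 1 ≤ g) (hk : k ≤ Nat.log 2 L)
    (hW : (ws.map (· + 1)).prod * (ws.sum + 1) ≤ N)
    (hX : (ws.map (· + 1)).prod * (ws.sum + 1) * g ^ (k + 1) *
      ((12 * (L + 4)) ^ (k + 1) * (2 ^ (2 * b ^ 6) * (L + 1) ^ 3)) ≤ N)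
    (hgN : 12 * (L + 4) * g ≤ N)
    (S : Strategy {d : (Fin N → Bool) → Prop // Level g (N ^ c) k true d ∨
      Level g (N ^ c) k false d} ws) :
    ¬ ∀ x, S.run (fun d x => d.1 x) x ↔ pfam L b N x := by
  intro hS
  set W := (ws.map (· + 1)).prod * (ws.sum + 1) with hWdef
  have hprod : 1 ≤ (ws.map (· + 1)).prod := by
    refine Nat.one_le_iff_ne_zero.2 fun h0 => ?_
    rw [List.prod_eq_zero_iff, List.mem_map] at h0
    obtain ⟨w, _, hw⟩ := h0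
    omega
  have hW1 : 1 ≤ W := by
    rw [hWdef]
    exact Nat.mul_pos hprod (Nat.succ_pos _)
  have hW2 : ws.sum + 1 ≤ W := Nat.le_mul_of_pos_left _ hprod
  obtain ⟨j, hj1, hj2⟩ := exists_two_pow (2 * (3 * (g + (L + 3)))) (by omega)
  obtain ⟨i, hi1, hi2⟩ := exists_two_pow (W * (3 * (g + (L + 3)) + 1))
    (Nat.mul_pos hW1 (Nat.succ_pos _))
  have hb1 : 1 ≤ b := by omega
  have hj3 : 2 ^ j ≤ 12 * (L + 4) * g := by
    refine hj2.trans ?_
    nlinarith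
  have hi3 : 2 ^ i ≤ W * (12 * (L + 4) * g) := by
    refine hi2.trans ?_
    calc 2 * (W * (3 * (g + (L + 3)) + 1)) = W * (2 * (3 * (g + (L + 3)) + 1)) := by ring
      _ ≤ W * (12 * (L + 4) * g) := Nat.mul_le_mul_left _ (by nlinarith)
  obtain ⟨σ, h1, h2, h3⟩ := exists_sc (b := b) (m := k) (i := i) (j := j) hk hN
    (hj3.trans hgN) (by
      refine le_trans ?_ hX
      calc 2 ^ i * (2 ^ j) ^ k * (2 ^ (2 * b ^ 6) * (L + 1) ^ 3) ≤
            W * (12 * (L + 4) * g) * (12 * (L + 4) * g) ^ k *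
              (2 ^ (2 * b ^ 6) * (L + 1) ^ 3) := by gcongr
        _ = W * (12 * (L + 4) * g) ^ (k + 1) * (2 ^ (2 * b ^ 6) * (L + 1) ^ 3) := by ring
        _ = _ := by rw [mul_pow]; ring)
  obtain ⟨τ, hτ⟩ := pfam_restrict hb1 σ
  obtain ⟨emb⟩ := exists_tests_emb (b := b) (by omega)
  obtain ⟨n1, n2⟩ := pl_low hb hL hN
  have hb3 : 2 ≤ b ^ 3 := by
    calc 2 ≤ b ^ 1 := by rw [pow_one]; omega
      _ ≤ b ^ 3 := Nat.pow_le_pow_right hb1 (by norm_num)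
  have hb9 : 2 ≤ b ^ 9 := by
    calc 2 ≤ b ^ 1 := by rw [pow_one]; omega
      _ ≤ b ^ 9 := Nat.pow_le_pow_right hb1 (by norm_num)
  have hll : b ^ 3 * (b ^ 3 - 1) ≤ b ^ 6 := by
    calc b ^ 3 * (b ^ 3 - 1) ≤ b ^ 3 * b ^ 3 := Nat.mul_le_mul_left _ (Nat.sub_le _ _)
      _ = b ^ 6 := by ring
  subst h1
  let φ : {d : (Fin N → Bool) → Prop // Level g (N ^ c) σ.1.1 true d ∨
      Level g (N ^ c) σ.1.1 false d} → Dev g (N ^ c) σ.1.1 (SVar L (2 ^ b ^ 6) N σ) := fun d =>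
    ⟨fun y => d.1 (sub τ y), d.2.imp (fun h => h.subst τ) (fun h => h.subst τ)⟩
  refine main_lower (n := 2 ^ b ^ 6) (κ := b ^ 6) (q := 2 ^ (b ^ 6 - b ^ 5))
    (T := 2 ^ (σ.1.2.1 : ℕ)) (t := 2 ^ (σ.1.2.2 : ℕ)) (g := g) (s := N ^ c) (l := b ^ 3)
    (p := b ^ 9) (K := 2 ^ (L + 3)) (r := 3 * (g + (L + 3))) (m := σ.1.1) emb emb.injective
    Nat.one_le_two_pow (Nat.one_le_pow _ _ hb1) hb3 hll hb9 n1 n2 threefour
    (by
      calc 4 = 2 ^ 2 := by norm_num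
        _ ≤ 2 ^ (L + 3) := Nat.pow_le_pow_right (by norm_num) (by omega))
    (by rw [h3]; exact hj1) (by positivity) (ws := ws) ?_ ?_ id Function.injective_id (smap φ S)
    fun y => ?_
  · have : 2 ^ (L + 1) < 2 ^ (L + 3) := Nat.pow_lt_pow_right (by norm_num) (by omega)
    omega
  · rw [h2]
    refine le_trans ?_ hi1
    rw [hWdef, mul_assoc]
    refine Nat.mul_le_mul_left _ ?_
    rw [Nat.mul_succ (ws.sum + 1)]
    exact Nat.add_le_add_left (by omega) _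
  · rw [show (fun v => y (id v)) = y from rfl, ← hτ y, ← hS (sub τ y),
      run_smap φ (fun d y => d.1 (sub τ y)) (fun d y => d.1 y) (fun d y => Iff.rfl)]
    exact run_sub (fun (d : {d : (Fin N → Bool) → Prop // Level g (N ^ c) σ.1.1 true d ∨
      Level g (N ^ c) σ.1.1 false d}) x => d.1 x) τ S y

/-- `N` guessed bits suffice for every monotone function. -/
theorem level_all {N : ℕ} (h : (Fin N → Bool) → Prop) (hm : ∀ x y, x ≤ y → h x → h y) :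
    Level N N 1 true h := by
  classical
  refine ⟨fun u x => h u ∧ ∀ i ∈ (univ.filter fun i => u i = true).toList, x i = true, ?_, ?_⟩
  · intro u
    by_cases hu : h u
    · refine (level_and (g := N) (s := N) (b := false)
        (univ.filter fun i => u i = true).toList ?_).congr fun x => ?_
      · rw [length_toList]
        exact (card_le_univ _).trans (by rw [Fintype.card_fin])
      · exact ⟨fun h2 => ⟨hu, h2⟩, fun h2 => h2.2⟩
    · refine ⟨fun _ => false, ⟨[], MProg.nil, Nat.zero_le _, Or.inl (Or.inl ⟨false, rfl⟩)⟩,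
        fun x => ?_⟩
      simp [hu]
  · intro x
    constructor
    · intro hx
      exact ⟨x, hx, fun i hi => by simpa using hi⟩
    · rintro ⟨u, hu, h2⟩
      refine hm u x (fun i => ?_) hu
      cases hi : u i with
      | false => exact Bool.false_le _
      | true =>
        rw [h2 i (by simpa using hi)]

/-- **The theorem.** -/
theorem polylog_beyond :
    ∃ f : ∀ N : ℕ, (Fin N → Bool) → Prop,
      (∀ᶠ N : ℕ in atTop, Shallow (Nat.log 2 N ^ 3) (f N) ∧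
        Level (Nat.log 2 N ^ 2) (Nat.log 2 N ^ 2) (Nat.log 2 (Nat.log 2 N) + 1) true (f N)) ∧
      ∀ (c : ℕ) (ε : ℝ), 0 < ε → ∀ᶠ N : ℕ in atTop, ∀ k g : ℕ,
        k ≤ Nat.log 2 (Nat.log 2 N) → 1 ≤ g →
        (((g ^ k : ℕ) : ℝ) ≤ (N : ℝ) ^ (1 - ε) →
          ¬ Level g (N ^ c) k true (f N) ∧ ¬ Level g (N ^ c) k false (f N)) ∧
        ∀ (l : List ℕ) (S : Strategy {d : (Fin N → Bool) → Prop //
          Level g (N ^ c) k true d ∨ Level g (N ^ c) k false d} l),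
          (((l.map (· + 1)).prod * (l.sum + 1) * g ^ (k + 1) : ℕ) : ℝ) ≤ (N : ℝ) ^ (1 - ε) →
          ¬ ∀ x, S.run (fun d x => d.1 x) x ↔ f N x := by
  refine ⟨fun N => pfam (Nat.log 2 N) (root 8 (Nat.log 2 N)) N, ?_, ?_⟩
  · filter_upwards [pl_nums 0 1 one_pos, eventually_ge_atTop 1] with N hN hN1
    obtain ⟨h1, h2, h3, h4, h5, h6⟩ := hN _ _ rfl rfl
    have h7 := h6 1 0 (by simp) (Nat.zero_le _)
    have h8 : 2 ^ (2 * root 8 (Nat.log 2 N) ^ 6) * (Nat.log 2 N + 1) ^ 3 ≤ N := by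
      refine le_trans ?_ h7
      rw [one_mul]
      exact Nat.le_mul_of_pos_left _ (by positivity)
    have h9 := pfam_upper (L := Nat.log 2 N) (b := root 8 (Nat.log 2 N)) (N := N) (by omega)
      h2 h8
    refine ⟨?_, h9⟩
    refine (Shallow.of_level h9).lift ?_
    exact (pl_G (by omega) h2).2.2.2.1
  · intro c ε hε
    filter_upwards [pl_nums c ε hε] with N hN
    obtain ⟨h1, h2, h3, h4, h5, h6⟩ := hN _ _ rfl rfl
    intro k g hk hg
    have hpos : ∀ k : ℕ, 1 ≤ (12 * (Nat.log 2 N + 4)) ^ k *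
        (2 ^ (2 * root 8 (Nat.log 2 N) ^ 6) * (Nat.log 2 N + 1) ^ 3) := fun k =>
      Nat.one_le_iff_ne_zero.2 (by positivity)
    have hgN : ∀ Y k : ℕ, g ≤ Y → Y * ((12 * (Nat.log 2 N + 4)) ^ (k + 1) *
        (2 ^ (2 * root 8 (Nat.log 2 N) ^ 6) * (Nat.log 2 N + 1) ^ 3)) ≤ N →
        12 * (Nat.log 2 N + 4) * g ≤ N := by
      intro Y k hY hle
      refine le_trans ?_ hle
      calc 12 * (Nat.log 2 N + 4) * g = g * (12 * (Nat.log 2 N + 4)) := mul_comm _ _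
        _ ≤ Y * (12 * (Nat.log 2 N + 4)) := Nat.mul_le_mul_right _ hY
        _ ≤ Y * ((12 * (Nat.log 2 N + 4)) * ((12 * (Nat.log 2 N + 4)) ^ k *
            (2 ^ (2 * root 8 (Nat.log 2 N) ^ 6) * (Nat.log 2 N + 1) ^ 3))) :=
          Nat.mul_le_mul_left _ (Nat.le_mul_of_pos_right _ (hpos k))
        _ = _ := by ring
    constructor
    · intro hX
      have h7 := h6 _ k hX hk
      rcases Nat.eq_zero_or_pos k with rfl | hk1
      · have h8 : ∀ b, ¬ Level g (N ^ c) 0 b (pfam (Nat.log 2 N) (root 8 (Nat.log 2 N)) N) := by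
          intro b hlev
          have hlev' : Level 1 (N ^ c) 0 true
              (pfam (Nat.log 2 N) (root 8 (Nat.log 2 N)) N) := hlev
          refine single_true (c := c) (k := 0) (g := 1) h1 h3 h4 le_rfl hk
            (by simpa using h7) ?_ hlev'
          rw [pow_zero, one_mul] at h7
          refine le_trans ?_ h7
          rw [mul_one, zero_add, pow_one]
          exact Nat.le_mul_of_pos_right _ (by positivity)
        exact ⟨h8 true, h8 false⟩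
      · obtain ⟨k, rfl⟩ : ∃ k', k = k' + 1 := ⟨k - 1, by omega⟩
        have h8 := hgN _ _ (Nat.le_self_pow (by omega) g) h7
        exact ⟨single_true h1 h3 h4 hg hk h7 h8, single_false h1 h3 h4 hg hk h7 h8⟩
    · intro ws S hX
      have h7 := h6 _ k hX hk
      have hprod : 1 ≤ (ws.map (· + 1)).prod := by
        refine Nat.one_le_iff_ne_zero.2 fun h0 => ?_
        rw [List.prod_eq_zero_iff, List.mem_map] at h0
        obtain ⟨w, _, hw⟩ := h0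
        omega
      have hW1 : 1 ≤ (ws.map (· + 1)).prod * (ws.sum + 1) := Nat.mul_pos hprod (Nat.succ_pos _)
      have h8 := hgN _ _ (by
        calc g ≤ g ^ (k + 1) := Nat.le_self_pow (by omega) g
          _ ≤ (ws.map (· + 1)).prod * (ws.sum + 1) * g ^ (k + 1) :=
            Nat.le_mul_of_pos_left _ hW1) h7
      refine strategy_lower h1 h3 h4 hg hk ?_ h7 h8 S
      refine le_trans ?_ h7
      rw [mul_assoc]
      refine Nat.le_mul_of_pos_right _ ?_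
      have := hpos (k + 1)
      positivity

end Pool.Agent.J6H27.MPH
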