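import Pool.Agent.H520R2.NM
import Pool.Agent.J6H7.Chain.Flip

/-!
# Alternating quantifiers over guessed strings in front of small monotone circuits

`Level g s k b f`: the predicate `f` of the input `x` is of the form
`Q₁ u₁ Q₂ u₂ … Q_k u_k : C_{u₁ … u_k}(x) = 1`, where the `u_i` range over the strings of `g` bits,
the quantifiers alternate, the first one is `∃` if `b = true` and `∀` if `b = false`, and every
`C_{u₁ … u_k}` is a monotone circuit with at most `s` gates. (The circuit may depend on the
guessed strings in an arbitrary way.)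
-/

set_option autoImplicit false

namespace Pool.Agent.J6H27.MPH

open Pool.Agent.H520R2 Pool.Agent.H520R2.NM

/-- `Level g s k b f`: the predicate `f` is given by `k` alternating quantifiers over strings of
`g` bits, followed by a monotone circuit with at most `s` gates (AND gates and OR gates of fan-in
two; variables and constants are free) which may depend on the quantified strings in an arbitrary
way. The outermost quantifier is `∃` if `b = true` and `∀` if `b = false`. -/
def Level (g s : ℕ) {ι : Type} : ℕ → Bool → ((ι → Bool) → Prop) → Prop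
  | 0, _, f => ∃ C : (ι → Bool) → Bool, MComp (VB ι) s C ∧ ∀ x, f x ↔ C x = true
  | k + 1, true, f => ∃ D : (Fin g → Bool) → (ι → Bool) → Prop,
      (∀ u, Level g s k false (D u)) ∧ ∀ x, f x ↔ ∃ u, D u x
  | k + 1, false, f => ∃ D : (Fin g → Bool) → (ι → Bool) → Prop,
      (∀ u, Level g s k true (D u)) ∧ ∀ x, f x ↔ ∀ u, D u x

/-- substitution of constants and of variables -/
def sub {ι κ : Type} (σ : ι → Bool ⊕ κ) (x : κ → Bool) (i : ι) : Bool :=
  match σ i with
  | Sum.inl c => c
  | Sum.inr q => x q

theorem sub_mono {ι κ : Type} (σ : ι → Bool ⊕ κ) {x y : κ → Bool} (h : x ≤ y) :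
    sub σ x ≤ sub σ y := by
  intro i
  unfold sub
  split
  · exact le_rfl
  · exact h _

namespace Level

variable {g s : ℕ} {ι κ : Type}

theorem congr {k : ℕ} {b : Bool} {f f' : (ι → Bool) → Prop} (h : Level g s k b f)
    (hff : ∀ x, f x ↔ f' x) : Level g s k b f' := by
  have : f = f' := funext fun x => propext (hff x)
  rw [← this]
  exact h

theorem mono {k : ℕ} : ∀ {b : Bool} {f : (ι → Bool) → Prop}, Level g s k b f →
    ∀ x y, x ≤ y → f x → f y := by
  induction k with
  | zero =>
    intro b f h x y hxy hx
    obtain ⟨C, ⟨L, hL, _, hC⟩, h2⟩ := h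
    rw [h2] at hx ⊢
    have := mono_of_av hL C hC x y hxy
    rw [hx] at this
    exact top_le_iff.1 this
  | succ k ih =>
    intro b f h x y hxy hx
    cases b with
    | true =>
      obtain ⟨D, hD, h2⟩ := h
      rw [h2] at hx ⊢
      obtain ⟨u, hu⟩ := hx
      exact ⟨u, ih (hD u) x y hxy hu⟩
    | false =>
      obtain ⟨D, hD, h2⟩ := h
      rw [h2] at hx ⊢
      intro u
      exact ih (hD u) x y hxy (hx u)

theorem base_sub {C : (ι → Bool) → Bool} (h : MComp (VB ι) s C) (σ : ι → Bool ⊕ κ) :
    MComp (VB κ) s (fun z => C (sub σ z)) := by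
  refine MComp.comp (sub σ) ?_ h
  rintro b (⟨c, rfl⟩ | ⟨i, rfl⟩)
  · exact Or.inl ⟨c, rfl⟩
  · cases hi : σ i with
    | inl c =>
      left
      refine ⟨c, ?_⟩
      funext z
      simp [sub, hi]
    | inr q =>
      right
      refine ⟨q, ?_⟩
      funext z
      simp [sub, hi]

theorem subst (σ : ι → Bool ⊕ κ) {k : ℕ} : ∀ {b : Bool} {f : (ι → Bool) → Prop},
    Level g s k b f → Level g s k b (fun z => f (sub σ z)) := by
  induction k with
  | zero =>
    rintro b f ⟨C, hC, h2⟩
    exact ⟨_, base_sub hC σ, fun x => h2 _⟩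
  | succ k ih =>
    intro b f h
    cases b with
    | true =>
      obtain ⟨D, hD, h2⟩ := h
      exact ⟨fun u z => D u (sub σ z), fun u => ih (hD u), fun x => h2 _⟩
    | false =>
      obtain ⟨D, hD, h2⟩ := h
      exact ⟨fun u z => D u (sub σ z), fun u => ih (hD u), fun x => h2 _⟩

/-- a quantifier which is not used, in front -/
theorem front {k : ℕ} {b : Bool} {f : (ι → Bool) → Prop} (h : Level g s k b f) :
    Level g s (k + 1) (!b) f := by
  cases b with
  | true =>
    exact ⟨fun _ => f, fun _ => h, fun x => ⟨fun hx _ => hx, fun hx => hx (fun _ => false)⟩⟩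
  | false =>
    exact ⟨fun _ => f, fun _ => h, fun x => ⟨fun hx => ⟨fun _ => false, hx⟩, fun ⟨_, hx⟩ => hx⟩⟩

/-- a quantifier which is not used, in the end -/
theorem back {k : ℕ} : ∀ {b : Bool} {f : (ι → Bool) → Prop}, Level g s k b f →
    Level g s (k + 1) b f := by
  induction k with
  | zero =>
    intro b f h
    have h' : Level g s 0 (!b) f := h
    simpa using h'.front
  | succ k ih =>
    intro b f h
    cases b with
    | true =>
      obtain ⟨D, hD, h2⟩ := h
      exact ⟨D, fun u => ih (hD u), h2⟩
    | false =>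
      obtain ⟨D, hD, h2⟩ := h
      exact ⟨D, fun u => ih (hD u), h2⟩

theorem toFalse {k : ℕ} {f : (ι → Bool) → Prop}
    (h : Level g s k true f ∨ Level g s k false f) : Level g s (k + 1) false f := by
  rcases h with h | h
  · exact h.front
  · exact h.back

end Level

end Pool.Agent.J6H27.MPH
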