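import Pool.Agent.J6H27.MPH.Num

/-!
# The choice of the numbers
-/

set_option autoImplicit false

namespace Pool.Agent.J6H27.MPH

open Filter

/-- **The numbers.** -/
theorem numbers (m : ℕ) (ε : ℝ) (hε : 0 < ε) : ∃ A : ℕ, 1 ≤ A ∧ ∀ c : ℕ, ∃ l a : ℕ,
    2 ≤ l ∧ 1 ≤ a ∧ ∀ᶠ N : ℕ in atTop, ∀ n L h : ℕ, n = root (A + m + 2) N →
      L = Nat.log 2 n → h = Nat.log 2 N + 3 →
    (n ^ (A + m + 2) ≤ N ∧ 1 ≤ L ∧ 2 * (L + 1) ≤ n ∧ l * (l - 1) ≤ L ∧ 2 ≤ a * (L + 1)) ∧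
    (2 ^ h * (N ^ c * ((a * (L + 1)) ^ l * l.factorial) ^ 2) ≤ (n / (L + 1)) ^ (l + 1) ∧
    4 * (N ^ c * ((a * (L + 1)) ^ l * l.factorial) ^ 2) ≤ 2 ^ (a * (L + 1))) ∧
    N < 2 ^ h ∧
    (n ^ A * n ^ (L + 1) ≤ 2 ^ (Nat.log 2 N ^ 3) ∧ (L + 1) * (L + 1) ≤ Nat.log 2 N ^ 3) ∧
    ∀ g : ℕ, (g : ℝ) ≤ (N : ℝ) ^ (1 / (4 * (A + m + 2 : ℕ)) : ℝ) →
      2 * (3 * (g + h)) ≤ n ∧
      ∀ W : ℕ, (W : ℝ) ≤ (N : ℝ) ^ (1 - ε) → W ≤ N ∧ W * (3 * (g + h) + 1) ≤ n ^ A := by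
  obtain ⟨ε', hε', hε'1, hε'2⟩ : ∃ ε' : ℝ, 0 < ε' ∧ ε' ≤ 1 ∧ ε' ≤ ε :=
    ⟨min ε 1, lt_min hε one_pos, min_le_right _ _, min_le_left _ _⟩
  obtain ⟨A, hA⟩ := exists_nat_ge (((m : ℝ) + 3) / ε')
  rw [div_le_iff₀ hε'] at hA
  have hA1 : 1 ≤ A := by
    rcases Nat.eq_zero_or_pos A with h | h
    · rw [h, Nat.cast_zero, zero_mul] at hA
      have : (0 : ℝ) ≤ m := Nat.cast_nonneg m
      linarith
    · exact h
  refine ⟨A, hA1, fun c => ?_⟩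
  obtain ⟨B, hB⟩ : ∃ B, B = A + m + 2 := ⟨_, rfl⟩
  have hB0 : 0 < B := by omega
  rw [← hB]
  refine ⟨2 * B * (c + 1) + 2, B * c + 1, by omega, by omega, ?_⟩
  obtain ⟨l, hl⟩ : ∃ l, l = 2 * B * (c + 1) + 2 := ⟨_, rfl⟩
  obtain ⟨a, ha⟩ : ∃ a, a = B * c + 1 := ⟨_, rfl⟩
  obtain ⟨Y, hY⟩ : ∃ Y, Y = 2 ^ (B + 1) * 6 := ⟨_, rfl⟩
  obtain ⟨C1, hC1⟩ : ∃ C1, C1 = 8 * 2 ^ (B * (c + 1)) * (a ^ l * l.factorial) ^ 2 := ⟨_, rfl⟩
  obtain ⟨C2, hC2⟩ : ∃ C2, C2 = 2 ^ (B + 3) * (3 * (B + 3) + 1) := ⟨_, rfl⟩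
  have htend := tendsto_root hB0
  have e1 := htend.eventually (ev_log C1 (2 * l))
  have e2 := htend.eventually (ev_log 4 2)
  have e3 := htend.eventually (tendsto_log.eventually_ge_atTop (l * (l - 1) + 2 * (A + 2) + 2))
  have e4 := htend.eventually (ev_log C2 1)
  have e5 := htend.eventually (eventually_ge_atTop (2 * Y ^ 4))
  have e6 := htend.eventually (eventually_ge_atTop 1)
  filter_upwards [e1, e2, e3, e4, e5, e6] with N e1 e2 e3 e4 e5 e6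
  intro n L h hn hL hh
  rw [← hn] at e1 e2 e3 e4 e5 e6
  rw [← hL] at e1 e2 e3 e4
  rw [pow_one] at e4
  have hnB : n ^ B ≤ N := by rw [hn]; exact root_pow hB0
  have hNn : N < (n + 1) ^ B := by rw [hn]; exact lt_root hB0
  have hN2 : N < 2 ^ B * n ^ B := by
    rw [← mul_pow]
    exact lt_of_lt_of_le hNn (Nat.pow_le_pow_left (by omega) _)
  have hN1 : 1 ≤ N := le_trans (Nat.one_le_pow _ _ e6) hnB
  have hnL : n < 2 ^ (L + 1) := by rw [hL]; exact Nat.lt_pow_succ_log_self (by norm_num) n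
  have hlogN : L ≤ Nat.log 2 N := by
    rw [hL]
    exact Nat.log_mono_right (le_trans (Nat.le_self_pow hB0.ne' n) hnB)
  have hlogN2 := est_logN hnL hNn hN1
  have hK : 2 ^ h ≤ 8 * N := by rw [hh]; exact est_K hN1
  have hs := est_s hN2 c
  obtain ⟨M, hMdef⟩ : ∃ M, M = ((a * (L + 1)) ^ l * l.factorial) ^ 2 := ⟨_, rfl⟩
  have hM : 8 * 2 ^ (B * (c + 1)) * M ≤ n := by
    rw [hMdef, est_M, ← mul_assoc, ← hC1]
    exact e1
  have hq := est_q e2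
  have hq1 : 1 ≤ n / (L + 1) := by
    refine Nat.pos_of_ne_zero fun h0 => ?_
    rw [h0] at hq
    omega
  have hcube := est_cube (A := A) (L := L) (X := Nat.log 2 N) (by omega) hlogN
  rw [← hl, ← ha, ← hMdef]
  refine ⟨⟨hnB, by omega, ?_, by omega, ?_⟩, ⟨?_, ?_⟩, ?_, ⟨?_, hcube.2⟩, ?_⟩
  · nlinarith
  · rw [ha]
    have h1 : 1 * (L + 1) ≤ (B * c + 1) * (L + 1) := Nat.mul_le_mul_right _ (by omega)
    omega
  · have := est_iv hs hK hN2 hM hq hq1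
    rw [← hl] at this
    exact this
  · have := est_v hs hM hnL.le
    rw [← ha] at this
    exact this
  · rw [hh]
    calc N < 2 ^ (Nat.log 2 N + 1) := Nat.lt_pow_succ_log_self (by norm_num) N
      _ ≤ 2 ^ (Nat.log 2 N + 3) := Nat.pow_le_pow_right (by norm_num) (by omega)
  · calc n ^ A * n ^ (L + 1) = n ^ (A + (L + 1)) := (pow_add _ _ _).symm
      _ ≤ (2 ^ (L + 1)) ^ (A + (L + 1)) := Nat.pow_le_pow_left hnL.le _
      _ = 2 ^ ((L + 1) * (A + (L + 1))) := (pow_mul _ _ _).symm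
      _ ≤ _ := Nat.pow_le_pow_right (by norm_num) hcube.1
  · intro g hg
    have hg4 := est_g4 hB0 hN2 hg
    have hg2 : Y * g ≤ n := est_g hg4 e5 e6
    rw [hY] at hg2
    have hh2 : h ≤ (B + 3) * (L + 1) := by
      have h2 : (B + 3) * (L + 1) = B * (L + 1) + 3 * (L + 1) := by ring
      omega
    rw [hC2] at e4
    have hr := est_r hh2 e4 hg2
    refine ⟨?_, ?_⟩
    · have h1 : 2 ≤ 2 ^ B := by
        calc 2 = 2 ^ 1 := by norm_num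
          _ ≤ 2 ^ B := Nat.pow_le_pow_right (by norm_num) hB0
      calc 2 * (3 * (g + h)) ≤ 2 ^ B * (3 * (g + h) + 1) := Nat.mul_le_mul h1 (by omega)
        _ ≤ n := hr
    · intro W hW
      have hN1' : (1 : ℝ) ≤ N := by exact_mod_cast hN1
      have hW2 : (W : ℝ) ≤ (N : ℝ) ^ (1 - ε') :=
        hW.trans (Real.rpow_le_rpow_of_exponent_le hN1' (by linarith))
      obtain ⟨h1, h2⟩ := est_W hε'.le hε'1 hA1 hB hA hN2 e6 hN1 hW2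
      refine ⟨h1, ?_⟩
      calc W * (3 * (g + h) + 1) ≤ (2 ^ B * n ^ (A - 1)) * (3 * (g + h) + 1) :=
            Nat.mul_le_mul_right _ h2
        _ = (2 ^ B * (3 * (g + h) + 1)) * n ^ (A - 1) := by ring
        _ ≤ n * n ^ (A - 1) := Nat.mul_le_mul_right _ hr
        _ = n ^ A := by
            rw [← pow_succ']
            congr 1
            omega

end Pool.Agent.J6H27.MPH
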