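import Pool.Agent.J6H27.MPH.Up
import Pool.Agent.J6H27.MPH.Num2

/-!
# The family of functions
-/

set_option autoImplicit false

namespace Pool.Agent.J6H27.MPH

open Filter Pool.Agent.J6H7.Chain Pool.Agent.H520R2 Pool.Agent.H520R2.NM

/-- the variables are finitely many -/
def varFintype (t n : ℕ) : (m : ℕ) → Fintype (Var t n m)
  | 0 => (inferInstance : Fintype (Sym2 (Fin n)))
  | m + 1 => @instFintypeProd (Fin t) (Var t n m) _ (varFintype t n m)

theorem card_var (t n m : ℕ) (hn : 1 ≤ n) :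
    @Fintype.card (Var t n m) (varFintype t n m) ≤ t ^ m * n ^ 2 := by
  induction m with
  | zero =>
    have h1 : @Fintype.card (Var t n 0) (varFintype t n 0) = Fintype.card (Sym2 (Fin n)) := rfl
    rw [h1, Sym2.card, Fintype.card_fin, Nat.choose_two_right, pow_zero, one_mul]
    rw [Nat.add_sub_cancel]
    refine Nat.div_le_of_le_mul ?_
    nlinarith
  | succ m ih =>
    have h1 : @Fintype.card (Var t n (m + 1)) (varFintype t n (m + 1)) =
        t * @Fintype.card (Var t n m) (varFintype t n m) := by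
      have := @Fintype.card_prod (Fin t) (Var t n m) _ (varFintype t n m)
      rw [Fintype.card_fin] at this
      exact this
    rw [h1]
    calc t * @Fintype.card (Var t n m) (varFintype t n m) ≤ t * (t ^ m * n ^ 2) :=
          Nat.mul_le_mul_left _ ih
      _ = t ^ (m + 1) * n ^ 2 := by ring

theorem exists_emb {T t n m N : ℕ} (hn : 1 ≤ n) (h : T * (t ^ m * n ^ 2) ≤ N) :
    Nonempty (Fin T × Var t n m ↪ Fin N) := by
  letI := varFintype t n m
  refine Function.Embedding.nonempty_of_card_le ?_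
  rw [Fintype.card_prod, Fintype.card_fin, Fintype.card_fin]
  exact (Nat.mul_le_mul_left _ (card_var t n m hn)).trans h

open Classical in
/-- The family: a tree of degree `n ^ A` in the root and of degree `n` in the other `m` levels,
with graphs on `n` vertices in its leaves, where `n` is the integral part of the root of `N` of
order `A + m + 2`. -/
noncomputable def fam (A m N : ℕ) (x : Fin N → Bool) : Prop :=
  if h : Nonempty (Fin (root (A + m + 2) N ^ A) × Var (root (A + m + 2) N)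
      (root (A + m + 2) N) m ↪ Fin N)
  then Top (root (A + m + 2) N ^ A) (root (A + m + 2) N) (root (A + m + 2) N)
    (Nat.log 2 (root (A + m + 2) N) + 1) m (fun v => x (h.some v))
  else False

theorem threefour {g h : ℕ} : 2 ^ h * 2 ^ g * 3 ^ (3 * (g + h)) ≤ 4 ^ (3 * (g + h)) := by
  calc 2 ^ h * 2 ^ g * 3 ^ (3 * (g + h)) = 54 ^ (g + h) := by
        rw [← pow_add, pow_mul, add_comm h g, ← mul_pow]
        norm_num
    _ ≤ 64 ^ (g + h) := Nat.pow_le_pow_left (by norm_num) _
    _ = 4 ^ (3 * (g + h)) := by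
        rw [pow_mul]
        norm_num

/-- **The theorem.** -/
theorem hierarchy (m : ℕ) (ε : ℝ) (hε : 0 < ε) :
    ∃ (δ : ℝ) (f : ∀ N : ℕ, (Fin N → Bool) → Prop), 0 < δ ∧
      (∀ᶠ N : ℕ in atTop, Level (Nat.log 2 N ^ 3) (Nat.log 2 N ^ 3) (m + 1) true (f N)) ∧
      ∀ c : ℕ, ∀ᶠ N : ℕ in atTop, ∀ (g : ℕ) (l : List ℕ) (S : Strategy
        {d : (Fin N → Bool) → Prop // Level g (N ^ c) m true d ∨ Level g (N ^ c) m false d} l),
        (g : ℝ) ≤ (N : ℝ) ^ δ →
        (((l.map (· + 1)).prod * (l.sum + 1) : ℕ) : ℝ) ≤ (N : ℝ) ^ (1 - ε) →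
        ¬ ∀ x, S.run (fun d x => d.1 x) x ↔ f N x := by
  obtain ⟨A, hA1, hA⟩ := numbers m ε hε
  refine ⟨1 / (4 * (A + m + 2 : ℕ)), fam A m, by positivity, ?_, ?_⟩
  · obtain ⟨l, a, _, _, hev⟩ := hA 1
    filter_upwards [hev] with N hN
    obtain ⟨⟨hnB, hL, h2L, _, _⟩, _, _, ⟨hg, hs⟩, _⟩ := hN _ _ _ rfl rfl rfl
    set n := root (A + m + 2) N with hn
    have hn1 : 1 ≤ n := by omega
    have hemb : Nonempty (Fin (n ^ A) × Var n n m ↪ Fin N) := exists_emb hn1 (by
      calc n ^ A * (n ^ m * n ^ 2) = n ^ (A + m + 2) := by ring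
        _ ≤ N := hnB)
    have hk : Nat.log 2 n + 1 ≤ n := by omega
    have hup := (up (t := n) (n := n) (k := Nat.log 2 n + 1) (g := Nat.log 2 N ^ 3)
      (s := Nat.log 2 N ^ 3) hn1 hk hn1 ?_ hs m (n ^ A) (by positivity) hg).1
    · have h1 := hup.subst (fun w => (Sum.inr (hemb.some w) : Bool ⊕ Fin N))
      refine h1.congr fun x => ?_
      show _ ↔ fam A m N x
      unfold fam
      rw [dif_pos hemb]
      exact Iff.rfl
    · refine (Nat.mul_le_mul_right _ ?_).trans hg
      calc n = n ^ 1 := (pow_one n).symm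
        _ ≤ n ^ A := Nat.pow_le_pow_right hn1 hA1
  · intro c
    obtain ⟨l, a, hl2, ha, hev⟩ := hA c
    filter_upwards [hev] with N hN
    intro g ws S hg hW hS
    obtain ⟨⟨hnB, hL, h2L, hll, hp⟩, ⟨h1, h2⟩, hNh, _, h3⟩ := hN _ _ _ rfl rfl rfl
    obtain ⟨hr, hW2⟩ := h3 g hg
    obtain ⟨hWN, hWT⟩ := hW2 _ hW
    set n := root (A + m + 2) N with hn
    have hn1 : 1 ≤ n := by omega
    have hemb : Nonempty (Fin (n ^ A) × Var n n m ↪ Fin N) := exists_emb hn1 (by
      calc n ^ A * (n ^ m * n ^ 2) = n ^ (A + m + 2) := by ring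
        _ ≤ N := hnB)
    have hcard : Fintype.card (Fin (Nat.log 2 n + 1) × Fin (n / (Nat.log 2 n + 1))) ≤
        Fintype.card (Fin n) := by
      rw [Fintype.card_prod, Fintype.card_fin, Fintype.card_fin, Fintype.card_fin]
      exact Nat.mul_div_le _ _
    obtain ⟨emb⟩ := Function.Embedding.nonempty_of_card_le hcard
    have hq : 1 ≤ n / (Nat.log 2 n + 1) := by
      rw [Nat.le_div_iff_mul_le (Nat.succ_pos _)]
      omega
    have hprod : 1 ≤ (ws.map (· + 1)).prod := by
      refine Nat.one_le_iff_ne_zero.2 fun h0 => ?_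
      rw [List.prod_eq_zero_iff, List.mem_map] at h0
      obtain ⟨w, _, hw⟩ := h0
      omega
    refine main_lower (T := n ^ A) (t := n) (g := g) (s := N ^ c) (K := 2 ^ (Nat.log 2 N + 3))
      (r := 3 * (g + (Nat.log 2 N + 3))) (m := m) emb emb.injective hq hL hl2 hll hp h1 h2
      threefour ?_ hr hn1 (ws := ws) ?_ ?_ hemb.some hemb.some.injective S ?_
    · calc 4 = 2 ^ 2 := by norm_num
        _ ≤ _ := Nat.pow_le_pow_right (by norm_num) (by omega)
    · have : ws.sum + 1 ≤ (ws.map (· + 1)).prod * (ws.sum + 1) := Nat.le_mul_of_pos_left _ hprod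
      omega
    · refine le_trans ?_ hWT
      rw [mul_assoc]
      refine Nat.mul_le_mul_left _ ?_
      rw [Nat.mul_succ (ws.sum + 1)]
      exact Nat.add_le_add_left (by omega) _
    · intro x
      rw [hS x]
      unfold fam
      rw [dif_pos hemb]

end Pool.Agent.J6H27.MPH
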