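import Pool.Agent.J6H27.MPH.Fin
import Pool.Agent.J6H27.MPH.Num3

/-!
# An unbounded number of alternations
-/

set_option autoImplicit false

namespace Pool.Agent.J6H27.MPH

open Filter Pool.Agent.J6H7.Chain Pool.Agent.H520R2 Pool.Agent.H520R2.NM

theorem Level.lift {g s : ℕ} {ι : Type} {k m : ℕ} {b : Bool} {f : (ι → Bool) → Prop}
    (h : Level g s k b f) (hkm : k ≤ m) : Level g s m b f := by
  induction hkm with
  | refl => exact h
  | step _ ih => exact ih.back

/-- the devices of a strategy are replaced -/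
def smap {D D' : Type} (φ : D → D') : {l : List ℕ} → Strategy D l → Strategy D' l
  | _, Strategy.answer d => Strategy.answer (φ d)
  | _, Strategy.ask q next => Strategy.ask (fun j => φ (q j)) (fun a => smap φ (next a))

theorem run_smap {D D' ι : Type} (φ : D → D') (acc : D → (ι → Bool) → Prop)
    (acc' : D' → (ι → Bool) → Prop) (h : ∀ d x, acc' (φ d) x ↔ acc d x) {l : List ℕ}
    (S : Strategy D l) (x : ι → Bool) : (smap φ S).run acc' x ↔ S.run acc x := by
  classical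
  induction S with
  | answer d => exact h d x
  | ask q next ih =>
    unfold smap Strategy.run
    have h1 : (fun j => decide (acc' (φ (q j)) x)) = fun j => decide (acc (q j) x) := by
      funext j
      exact decide_eq_decide.2 (h (q j) x)
    rw [h1]
    exact ih _

/-- the main lower bound for one `N`, for the tree family -/
theorem fam_lower {A m N g c l a : ℕ} {ws : List ℕ} (hl2 : 2 ≤ l)
    (hnB : root (A + m + 2) N ^ (A + m + 2) ≤ N)
    (hL : 1 ≤ Nat.log 2 (root (A + m + 2) N))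
    (h2L : 2 * (Nat.log 2 (root (A + m + 2) N) + 1) ≤ root (A + m + 2) N)
    (hll : l * (l - 1) ≤ Nat.log 2 (root (A + m + 2) N))
    (hp : 2 ≤ a * (Nat.log 2 (root (A + m + 2) N) + 1))
    (h1 : 2 ^ (Nat.log 2 N + 3) * (N ^ c *
      ((a * (Nat.log 2 (root (A + m + 2) N) + 1)) ^ l * l.factorial) ^ 2) ≤
      (root (A + m + 2) N / (Nat.log 2 (root (A + m + 2) N) + 1)) ^ (l + 1))
    (h2 : 4 * (N ^ c *
      ((a * (Nat.log 2 (root (A + m + 2) N) + 1)) ^ l * l.factorial) ^ 2) ≤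
      2 ^ (a * (Nat.log 2 (root (A + m + 2) N) + 1)))
    (hNh : N < 2 ^ (Nat.log 2 N + 3))
    (hr : 2 * (3 * (g + (Nat.log 2 N + 3))) ≤ root (A + m + 2) N)
    (hWN : (ws.map (· + 1)).prod * (ws.sum + 1) ≤ N)
    (hWT : (ws.map (· + 1)).prod * (ws.sum + 1) * (3 * (g + (Nat.log 2 N + 3)) + 1) ≤
      root (A + m + 2) N ^ A)
    (S : Strategy {d : (Fin N → Bool) → Prop //
      Level g (N ^ c) m true d ∨ Level g (N ^ c) m false d} ws) :
    ¬ ∀ x, S.run (fun d x => d.1 x) x ↔ fam A m N x := by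
  intro hS
  have hn1 : 1 ≤ root (A + m + 2) N := by omega
  have hemb : Nonempty (Fin (root (A + m + 2) N ^ A) ×
      Var (root (A + m + 2) N) (root (A + m + 2) N) m ↪ Fin N) := exists_emb hn1 (by
    calc root (A + m + 2) N ^ A * (root (A + m + 2) N ^ m * root (A + m + 2) N ^ 2) =
          root (A + m + 2) N ^ (A + m + 2) := by rw [pow_add, pow_add, mul_assoc]
      _ ≤ N := hnB)
  have hcard : Fintype.card (Fin (Nat.log 2 (root (A + m + 2) N) + 1) ×
      Fin (root (A + m + 2) N / (Nat.log 2 (root (A + m + 2) N) + 1))) ≤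
      Fintype.card (Fin (root (A + m + 2) N)) := by
    rw [Fintype.card_prod, Fintype.card_fin, Fintype.card_fin, Fintype.card_fin]
    exact Nat.mul_div_le _ _
  obtain ⟨emb⟩ := Function.Embedding.nonempty_of_card_le hcard
  have hq : 1 ≤ root (A + m + 2) N / (Nat.log 2 (root (A + m + 2) N) + 1) := by
    rw [Nat.le_div_iff_mul_le (Nat.succ_pos _)]
    omega
  have hprod : 1 ≤ (ws.map (· + 1)).prod := by
    refine Nat.one_le_iff_ne_zero.2 fun h0 => ?_
    rw [List.prod_eq_zero_iff, List.mem_map] at h0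
    obtain ⟨w, _, hw⟩ := h0
    omega
  refine main_lower (T := root (A + m + 2) N ^ A) (t := root (A + m + 2) N) (g := g)
    (s := N ^ c) (K := 2 ^ (Nat.log 2 N + 3))
    (r := 3 * (g + (Nat.log 2 N + 3))) (m := m) emb emb.injective hq hL hl2 hll hp h1 h2
    threefour ?_ hr hn1 (ws := ws) ?_ ?_ hemb.some hemb.some.injective S ?_
  · calc 4 = 2 ^ 2 := by norm_num
      _ ≤ _ := Nat.pow_le_pow_right (by norm_num) (by omega)
  · have : ws.sum + 1 ≤ (ws.map (· + 1)).prod * (ws.sum + 1) := Nat.le_mul_of_pos_left _ hprod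
    omega
  · refine le_trans ?_ hWT
    rw [mul_assoc]
    refine Nat.mul_le_mul_left _ ?_
    rw [Nat.mul_succ (ws.sum + 1)]
    exact Nat.add_le_add_left (by omega) _
  · intro x
    rw [hS x]
    unfold fam
    rw [dif_pos hemb]

/-- the upper bound for one `N`, for the tree family -/
theorem fam_upper {A m N G : ℕ} (hA1 : 1 ≤ A)
    (hnB : root (A + m + 2) N ^ (A + m + 2) ≤ N)
    (h2L : 2 * (Nat.log 2 (root (A + m + 2) N) + 1) ≤ root (A + m + 2) N)
    (hg : root (A + m + 2) N ^ A * root (A + m + 2) N ^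
      (Nat.log 2 (root (A + m + 2) N) + 1) ≤ 2 ^ G)
    (hs : (Nat.log 2 (root (A + m + 2) N) + 1) * (Nat.log 2 (root (A + m + 2) N) + 1) ≤ G) :
    Level G G (m + 1) true (fam A m N) := by
  have hn1 : 1 ≤ root (A + m + 2) N := by omega
  have hemb : Nonempty (Fin (root (A + m + 2) N ^ A) ×
      Var (root (A + m + 2) N) (root (A + m + 2) N) m ↪ Fin N) := exists_emb hn1 (by
    calc root (A + m + 2) N ^ A * (root (A + m + 2) N ^ m * root (A + m + 2) N ^ 2) =
          root (A + m + 2) N ^ (A + m + 2) := by rw [pow_add, pow_add, mul_assoc]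
      _ ≤ N := hnB)
  have hk : Nat.log 2 (root (A + m + 2) N) + 1 ≤ root (A + m + 2) N := by omega
  have hup := (up (t := root (A + m + 2) N) (n := root (A + m + 2) N)
    (k := Nat.log 2 (root (A + m + 2) N) + 1) (g := G) (s := G) hn1 hk hn1 ?_ hs m
    (root (A + m + 2) N ^ A) (by positivity) hg).1
  · have h1 := hup.subst (fun w => (Sum.inr (hemb.some w) : Bool ⊕ Fin N))
    refine h1.congr fun x => ?_
    show _ ↔ fam A m N x
    unfold fam
    rw [dif_pos hemb]
    exact Iff.rfl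
  · refine (Nat.mul_le_mul_right _ ?_).trans hg
    calc root (A + m + 2) N = root (A + m + 2) N ^ 1 := (pow_one _).symm
      _ ≤ root (A + m + 2) N ^ A := Nat.pow_le_pow_right hn1 hA1

/-- **The theorem for an unbounded number of alternations.** -/
theorem unbounded :
    ∃ f : ∀ N : ℕ, (Fin N → Bool) → Prop,
      (∀ᶠ N : ℕ in atTop, Level (Nat.log 2 N ^ 3) (Nat.log 2 N ^ 3)
        (Nat.log 2 (Nat.log 2 N) + 1) true (f N)) ∧
      ∀ (c : ℕ) (ε : ℝ), 0 < ε → ∀ᶠ N : ℕ in atTop, ∀ (k g : ℕ) (l : List ℕ) (S : Strategy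
        {d : (Fin N → Bool) → Prop // Level g (N ^ c) k true d ∨ Level g (N ^ c) k false d} l),
        k ≤ Nat.log 2 (Nat.log 2 N) →
        (g : ℝ) ≤ (2 : ℝ) ^ (((Nat.log 2 N : ℕ) : ℝ) ^ (1 - ε)) →
        (((l.map (· + 1)).prod * (l.sum + 1) : ℕ) : ℝ) ≤ (N : ℝ) ^ (1 - ε) →
        ¬ ∀ x, S.run (fun d x => d.1 x) x ↔ f N x := by
  refine ⟨fun N => fam (Nat.log 2 (Nat.log 2 N) ^ 2) (Nat.log 2 (Nat.log 2 N)) N, ?_, ?_⟩
  · filter_upwards [numbers2 1 1 one_pos] with N hN
    obtain ⟨hA, ⟨h1, _, h3, _, _⟩, _, _, ⟨h4, h5⟩, _⟩ := hN _ _ _ _ _ _ _ _ rfl rfl rfl rfl rfl rfl rfl rfl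
    exact fam_upper hA h1 h3 h4 h5
  · intro c ε hε
    filter_upwards [numbers2 c ε hε] with N hN
    intro k g ws S hk hg hW hS
    obtain ⟨hA, ⟨h1, h2, h3, h4, h5⟩, ⟨h6, h7⟩, h8, _, h9⟩ := hN _ _ _ _ _ _ _ _ rfl rfl rfl rfl rfl rfl rfl rfl
    obtain ⟨hr, h10⟩ := h9 g hg
    obtain ⟨h11, h12⟩ := h10 _ hW
    let φ : {d : (Fin N → Bool) → Prop // Level g (N ^ c) k true d ∨ Level g (N ^ c) k false d} →
        {d : (Fin N → Bool) → Prop // Level g (N ^ c) (Nat.log 2 (Nat.log 2 N)) true d ∨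
          Level g (N ^ c) (Nat.log 2 (Nat.log 2 N)) false d} := fun d =>
      ⟨d.1, d.2.imp (fun h => h.lift hk) (fun h => h.lift hk)⟩
    refine fam_lower (l := 2 * (Nat.log 2 (Nat.log 2 N) ^ 2 + Nat.log 2 (Nat.log 2 N) + 2) *
      (c + 1) + 2) (a := (Nat.log 2 (Nat.log 2 N) ^ 2 + Nat.log 2 (Nat.log 2 N) + 2) * c + 1)
      (by omega) h1 h2 h3 h4 h5 h6 h7 h8 hr h11 h12 (smap φ S) fun x => ?_
    rw [run_smap φ (fun d x => d.1 x) (fun d x => d.1 x) (fun d x => Iff.rfl)]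
    exact hS x

end Pool.Agent.J6H27.MPH
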