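import Pool.Agent.J6H27.MPH.Fin

/-!
# Arthur-Merlin games with short messages of Merlin and monotone verification

`Game g s k v`: the function `v` gives, for every input `x`, the probability of acceptance of a
game with `2 k` messages in which Merlin plays optimally: Arthur sends a random message, Merlin
answers with `g` bits, and so on, `k` times; finally Arthur chooses at random (with new coins,
and depending on the whole conversation) a monotone circuit with at most `s` gates, and accepts if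
it accepts `x`.
-/

set_option autoImplicit false

namespace Pool.Agent.J6H27.MPH

open Finset Pool.Agent.H520R2 Pool.Agent.H520R2.NM

/-- `Game g s k v`: `v x` is the value, on the input `x`, of an Arthur-Merlin game with `k` rounds.
In a round, Arthur sends a random message `ω` (distributed according to any distribution `p` on a
finite set, which may depend on the earlier messages), and Merlin answers with a string `u` of `g`
bits, which he chooses such that the probability of acceptance is as large as possible. After the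
last round Arthur chooses a random monotone circuit with at most `s` gates, and accepts if it
accepts `x`. -/
def Game (g s : ℕ) {ι : Type} : ℕ → ((ι → Bool) → ℝ) → Prop
  | 0, v => ∃ (Ω : Type) (_ : Fintype Ω) (p : Ω → ℝ) (C : Ω → (ι → Bool) → Bool),
      (∀ ω, 0 ≤ p ω) ∧ ∑ ω, p ω = 1 ∧ (∀ ω, MComp (VB ι) s (C ω)) ∧
      ∀ x, v x = ∑ ω, p ω * (if C ω x = true then 1 else 0)
  | k + 1, v => ∃ (Ω : Type) (_ : Fintype Ω) (p : Ω → ℝ)
      (D : Ω → (Fin g → Bool) → (ι → Bool) → ℝ),
      (∀ ω, 0 ≤ p ω) ∧ ∑ ω, p ω = 1 ∧ (∀ ω u, Game g s k (D ω u)) ∧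
      ∀ x, v x = ∑ ω, p ω * ⨆ u, D ω u x

theorem sup_mem {U : Type} [Fintype U] [Nonempty U] (f : U → ℝ) : ∃ u, ⨆ u, f u = f u := by
  obtain ⟨u, hu⟩ := Finite.exists_max f
  exact ⟨u, le_antisymm (ciSup_le hu) (le_ciSup (Set.finite_range f).bddAbove u)⟩

theorem le_sup {U : Type} [Fintype U] (f : U → ℝ) (u : U) : f u ≤ ⨆ u, f u :=
  le_ciSup (Set.finite_range f).bddAbove u

namespace Game

variable {g s : ℕ} {ι κ : Type}

theorem range {k : ℕ} : ∀ {v : (ι → Bool) → ℝ}, Game g s k v → ∀ x, 0 ≤ v x ∧ v x ≤ 1 := by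
  induction k with
  | zero =>
    rintro v ⟨Ω, _, p, C, h0, h1, _, hv⟩ x
    rw [hv]
    constructor
    · refine sum_nonneg fun ω _ => mul_nonneg (h0 ω) ?_
      split_ifs <;> norm_num
    · rw [← h1]
      refine sum_le_sum fun ω _ => ?_
      have := h0 ω
      split_ifs <;> nlinarith
  | succ k ih =>
    rintro v ⟨Ω, _, p, D, h0, h1, hD, hv⟩ x
    rw [hv]
    constructor
    · refine sum_nonneg fun ω _ => mul_nonneg (h0 ω) ?_
      obtain ⟨u, hu⟩ := sup_mem (fun u => D ω u x)
      rw [hu]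
      exact (ih (hD ω u) x).1
    · rw [← h1]
      refine sum_le_sum fun ω _ => ?_
      obtain ⟨u, hu⟩ := sup_mem (fun u => D ω u x)
      rw [hu]
      exact mul_le_of_le_one_right (h0 ω) (ih (hD ω u) x).2

theorem mono {k : ℕ} : ∀ {v : (ι → Bool) → ℝ}, Game g s k v → ∀ x y, x ≤ y → v x ≤ v y := by
  induction k with
  | zero =>
    rintro v ⟨Ω, _, p, C, h0, h1, hC, hv⟩ x y hxy
    rw [hv, hv]
    refine sum_le_sum fun ω _ => mul_le_mul_of_nonneg_left ?_ (h0 ω)
    obtain ⟨L, hL, _, hC'⟩ := hC ω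
    have := mono_of_av hL _ hC' x y hxy
    by_cases hx : C ω x = true
    · have hy : C ω y = true := by
        rw [hx] at this
        exact top_le_iff.1 this
      rw [if_pos hx, if_pos hy]
    · rw [if_neg hx]
      split_ifs <;> norm_num
  | succ k ih =>
    rintro v ⟨Ω, _, p, D, h0, h1, hD, hv⟩ x y hxy
    rw [hv, hv]
    refine sum_le_sum fun ω _ => mul_le_mul_of_nonneg_left ?_ (h0 ω)
    obtain ⟨u, hu⟩ := sup_mem (fun u => D ω u x)
    rw [hu]
    exact (ih (hD ω u) x y hxy).trans (le_sup (fun u => D ω u y) u)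

theorem subst (σ : ι → Bool ⊕ κ) {k : ℕ} : ∀ {v : (ι → Bool) → ℝ},
    Game g s k v → Game g s k (fun z => v (sub σ z)) := by
  induction k with
  | zero =>
    rintro v ⟨Ω, i, p, C, h0, h1, hC, hv⟩
    exact ⟨Ω, i, p, fun ω z => C ω (sub σ z), h0, h1, fun ω => Level.base_sub (hC ω) σ,
      fun x => hv _⟩
  | succ k ih =>
    rintro v ⟨Ω, i, p, D, h0, h1, hD, hv⟩
    exact ⟨Ω, i, p, fun ω u z => D ω u (sub σ z), h0, h1, fun ω u => ih (hD ω u),
      fun x => hv _⟩

theorem blk {t k : ℕ} (c : Bool) (j : Fin t) {v : (Fin t × ι → Bool) → ℝ}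
    (h : Game g s k v) : Game g s k (fun z => v (blk c j z)) := by
  have := h.subst (fun v : Fin t × ι => if v.1 = j then Sum.inr v.2 else Sum.inl c)
  have h2 : (fun z => v (MPH.blk c j z)) = fun z => v (sub (fun v : Fin t × ι =>
      if v.1 = j then Sum.inr v.2 else Sum.inl c) z) := by
    funext z
    rw [blk_eq_sub]
  rw [h2]
  exact this

end Game

/-! ### averages -/

/-- the average -/
noncomputable def avg {X : Type} [Fintype X] (f : X → ℝ) : ℝ := (∑ x, f x) / Fintype.card X

section avg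

variable {X : Type} [Fintype X] [Nonempty X]

theorem card_pos' : (0 : ℝ) < Fintype.card X := by exact_mod_cast Fintype.card_pos

theorem avg_mono {f f' : X → ℝ} (h : ∀ x, f x ≤ f' x) : avg f ≤ avg f' :=
  div_le_div_of_nonneg_right (sum_le_sum fun x _ => h x) (card_pos' (X := X)).le

theorem avg_nonneg {f : X → ℝ} (h : ∀ x, 0 ≤ f x) : 0 ≤ avg f :=
  div_nonneg (sum_nonneg fun x _ => h x) (card_pos' (X := X)).le

theorem avg_le {f : X → ℝ} {c : ℝ} (h : ∀ x, f x ≤ c) : avg f ≤ c := by
  unfold avg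
  rw [div_le_iff₀ card_pos']
  calc ∑ x, f x ≤ ∑ _x : X, c := sum_le_sum fun x _ => h x
    _ = c * Fintype.card X := by rw [sum_const, card_univ, nsmul_eq_mul, mul_comm]

theorem le_avg {f : X → ℝ} {c : ℝ} (h : ∀ x, c ≤ f x) : c ≤ avg f := by
  unfold avg
  rw [le_div_iff₀ card_pos']
  calc c * Fintype.card X = ∑ _x : X, c := by
        rw [sum_const, card_univ, nsmul_eq_mul, mul_comm]
    _ ≤ ∑ x, f x := sum_le_sum fun x _ => h x

theorem avg_sum {Ω : Type} [Fintype Ω] (p : Ω → ℝ) (f : Ω → X → ℝ) :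
    avg (fun x => ∑ ω, p ω * f ω x) = ∑ ω, p ω * avg (f ω) := by
  unfold avg
  rw [sum_comm, sum_div]
  refine sum_congr rfl fun ω _ => ?_
  rw [← mul_sum, mul_div_assoc]

/-- Markov's inequality, from below -/
theorem le_avg_num {f : X → ℝ} (h0 : ∀ x, 0 ≤ f x) {θ : ℝ} :
    θ * (num (fun x => θ ≤ f x) / Fintype.card X) ≤ avg f := by
  classical
  unfold avg num
  rw [← mul_div_assoc]
  refine div_le_div_of_nonneg_right ?_ (card_pos' (X := X)).le
  calc θ * ((univ.filter fun x => θ ≤ f x).card : ℝ) =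
        ∑ _x ∈ univ.filter (fun x => θ ≤ f x), θ := by
          rw [sum_const, nsmul_eq_mul, mul_comm]
    _ ≤ ∑ x ∈ univ.filter (fun x => θ ≤ f x), f x :=
        sum_le_sum fun x hx => (mem_filter.1 hx).2
    _ ≤ ∑ x, f x := sum_le_sum_of_subset_of_nonneg (filter_subset _ _) fun x _ _ => h0 x

/-- an upper bound for the average -/
theorem avg_lt_num {f : X → ℝ} (h1 : ∀ x, f x ≤ 1) {θ ρ : ℝ} (hθ : 0 ≤ θ) (hρ : ρ < 1)
    (h : (num (fun x => θ ≤ f x) : ℝ) ≤ ρ * Fintype.card X) : avg f < ρ + θ := by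
  classical
  have hpos := card_pos' (X := X)
  unfold avg
  rw [div_lt_iff₀ hpos]
  have hsplit := sum_filter_add_sum_filter_not (univ : Finset X) (fun x => θ ≤ f x) f
  rw [← hsplit]
  have ha : ∑ x ∈ univ.filter (fun x => θ ≤ f x), f x ≤ ρ * Fintype.card X := by
    refine le_trans ?_ h
    unfold num
    calc ∑ x ∈ univ.filter (fun x => θ ≤ f x), f x ≤
          ∑ _x ∈ univ.filter (fun x => θ ≤ f x), (1 : ℝ) := sum_le_sum fun x _ => h1 x
      _ = _ := by rw [sum_const, nsmul_eq_mul, mul_one]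
  have hne : (univ.filter fun x => ¬ θ ≤ f x).Nonempty := by
    by_contra hcon
    rw [not_nonempty_iff_eq_empty, filter_eq_empty_iff] at hcon
    have h2 : num (fun x => θ ≤ f x) = Fintype.card X := by
      unfold num
      rw [filter_true_of_mem, card_univ]
      intro x hx
      exact not_not.1 (hcon hx)
    rw [h2] at h
    nlinarith
  have hb : ∑ x ∈ univ.filter (fun x => ¬ θ ≤ f x), f x < θ * Fintype.card X := by
    calc ∑ x ∈ univ.filter (fun x => ¬ θ ≤ f x), f x <
          ∑ _x ∈ univ.filter (fun x => ¬ θ ≤ f x), θ :=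
          sum_lt_sum_of_nonempty hne fun x hx => not_le.1 (mem_filter.1 hx).2
      _ = ((univ.filter fun x => ¬ θ ≤ f x).card : ℝ) * θ := by rw [sum_const, nsmul_eq_mul]
      _ ≤ Fintype.card X * θ := by
          refine mul_le_mul_of_nonneg_right ?_ hθ
          exact_mod_cast card_le_univ _
      _ = _ := mul_comm _ _
  nlinarith

end avg

theorem avg_prod {t : ℕ} {B : Type} [Fintype B] [Nonempty B] [Nonempty (Fin t)]
    (f : Fin t × B → ℝ) : avg f = avg (fun j => avg fun b => f (j, b)) := by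
  unfold avg
  rw [Fintype.sum_prod_type, Fintype.card_prod, sum_div, Nat.cast_mul]
  rw [sum_div]
  refine sum_congr rfl fun j _ => ?_
  have h1 := card_pos' (X := B)
  have h2 := card_pos' (X := Fin t)
  field_simp

end Pool.Agent.J6H27.MPH
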