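import Pool.Agent.J6H27.MPH.Game

/-!
# Conjunctions of blocks are hard for Arthur-Merlin games
-/

set_option autoImplicit false

namespace Pool.Agent.J6H27.MPH

open Finset Pool.Agent.H520R2 Pool.Agent.H520R2.NM

/-- A subset of a product all of whose projections to many coordinates are not too large is
small. -/
theorem prodR {B : Type} [Fintype B] {t r : ℕ} (R : (Fin t → B) → Prop)
    (S : Fin t → B → Prop) (hRS : ∀ b, R b → ∀ j, S j (b j)) (J : Finset (Fin t)) {c : ℝ}
    (hc0 : 0 ≤ c) (hc1 : c ≤ 1)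
    (hJ : ∀ j ∈ J, (num (S j) : ℝ) ≤ c * Fintype.card B) (hr : r ≤ J.card) :
    (num R : ℝ) ≤ c ^ r * (Fintype.card B : ℝ) ^ t := by
  classical
  have h1 : num R ≤ ∏ j, num (S j) := by
    unfold num
    rw [← Fintype.card_piFinset]
    refine card_le_card fun b hb => ?_
    rw [mem_filter] at hb
    rw [Fintype.mem_piFinset]
    intro j
    rw [mem_filter]
    exact ⟨mem_univ _, hRS b hb.2 j⟩
  have h1' : (num R : ℝ) ≤ ∏ j, (num (S j) : ℝ) := by exact_mod_cast h1
  have h2 : ∏ j, (num (S j) : ℝ) =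
      (∏ j ∈ J, (num (S j) : ℝ)) * ∏ j ∈ univ \ J, (num (S j) : ℝ) := by
    rw [mul_comm]
    exact (prod_sdiff (subset_univ J)).symm
  have h3 : ∏ j ∈ J, (num (S j) : ℝ) ≤ (c * Fintype.card B) ^ J.card := by
    rw [← prod_const]
    exact prod_le_prod (fun _ _ => Nat.cast_nonneg _) hJ
  have h4 : ∏ j ∈ univ \ J, (num (S j) : ℝ) ≤ (Fintype.card B : ℝ) ^ (t - J.card) := by
    calc ∏ j ∈ univ \ J, (num (S j) : ℝ) ≤ ∏ _j ∈ univ \ J, (Fintype.card B : ℝ) :=
          prod_le_prod (fun _ _ => Nat.cast_nonneg _) fun j _ => by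
            exact_mod_cast num_le_card _
      _ = _ := by
          rw [prod_const, card_sdiff_of_subset (subset_univ _), card_univ, Fintype.card_fin]
  have hJt : J.card ≤ t := by simpa using card_le_univ J
  calc (num R : ℝ) ≤ (c * Fintype.card B) ^ J.card * (Fintype.card B : ℝ) ^ (t - J.card) := by
        rw [h2] at h1'
        exact h1'.trans (mul_le_mul h3 h4 (prod_nonneg fun _ _ => Nat.cast_nonneg _)
          (by positivity))
    _ = c ^ J.card * (Fintype.card B : ℝ) ^ t := by
        rw [mul_pow, mul_assoc, ← pow_add]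
        congr 2
        omega
    _ ≤ c ^ r * (Fintype.card B : ℝ) ^ t :=
        mul_le_mul_of_nonneg_right (pow_le_pow_of_le_one hc0 hc1 hr) (by positivity)

theorem avg_ind {X : Type} [Fintype X] (P : X → Prop) [DecidablePred P] :
    avg (fun x => if P x then (1 : ℝ) else 0) = num P / Fintype.card X := by
  unfold avg num
  rw [sum_boole]
  congr!

theorem num_not {X : Type} [Fintype X] (P : X → Prop) :
    num P + num (fun x => ¬ P x) = Fintype.card X := by
  classical
  unfold num
  have := card_filter_add_card_filter_not (s := (univ : Finset X)) P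
  rw [card_univ] at this
  rw [← this]
  congr!

/-- most blocks are good: the average is large -/
theorem avg_blocks {t : ℕ} {B : Type} [Fintype B] [Nonempty B] [Nonempty (Fin t)]
    {f : Fin t × B → ℝ} (h0 : ∀ p, 0 ≤ f p) (J : Finset (Fin t)) {r : ℕ} (hJ : J.card ≤ r)
    {X : ℝ} (hX : 0 ≤ X) (h : ∀ j ∉ J, X ≤ avg (fun b => f (j, b))) :
    (1 - r / t) * X ≤ avg f := by
  classical
  have ht : (0 : ℝ) < t := by
    have := card_pos' (X := Fin t)
    rwa [Fintype.card_fin] at this
  rw [avg_prod]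
  unfold avg
  rw [Fintype.card_fin, le_div_iff₀ ht]
  have h1 : ∑ _j ∈ univ \ J, X ≤ ∑ j ∈ univ \ J, (∑ b, f (j, b)) / Fintype.card B := by
    refine sum_le_sum fun j hj => ?_
    rw [mem_sdiff] at hj
    exact h j hj.2
  have h2 : ∑ j ∈ univ \ J, (∑ b, f (j, b)) / Fintype.card B ≤
      ∑ j, (∑ b, f (j, b)) / Fintype.card B :=
    sum_le_sum_of_subset_of_nonneg (subset_univ _) fun j _ _ =>
      div_nonneg (sum_nonneg fun b _ => h0 _) (card_pos' (X := B)).le
  have hJt : J.card ≤ t := by simpa using card_le_univ J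
  have h3 : ∑ _j ∈ univ \ J, X = (t - J.card) * X := by
    rw [sum_const, card_sdiff_of_subset (subset_univ _), card_univ, Fintype.card_fin,
      nsmul_eq_mul, Nat.cast_sub hJt]
  have h4 : ((J.card : ℕ) : ℝ) ≤ r := by exact_mod_cast hJ
  calc (1 - r / t) * X * t = (t - r) * X := by field_simp
    _ ≤ (t - J.card) * X := mul_le_mul_of_nonneg_right (by linarith) hX
    _ ≤ _ := by rw [← h3]; exact h1.trans h2

/-- on average, no function of the class tells the positive tests from the negative tests -/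
def Lin {A B ι : Type} [Fintype A] [Fintype B] (p : ((ι → Bool) → ℝ) → Prop)
    (pos : A → ι → Bool) (neg : B → ι → Bool) (γ η : ℝ) : Prop :=
  ∀ v, p v → (1 - γ) * avg (fun a => v (pos a)) - η ≤ avg (fun b => v (neg b))

theorem mix {A B Ω : Type} [Fintype A] [Fintype B] [Nonempty A] [Nonempty B] [Fintype Ω]
    {p : Ω → ℝ} (h0 : ∀ ω, 0 ≤ p ω) (h1 : ∑ ω, p ω = 1) {F : Ω → A → ℝ} {G : Ω → B → ℝ}
    {γ η : ℝ} (h : ∀ ω, (1 - γ) * avg (F ω) - η ≤ avg (G ω)) :
    (1 - γ) * avg (fun a => ∑ ω, p ω * F ω a) - η ≤ avg (fun b => ∑ ω, p ω * G ω b) := by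
  rw [avg_sum, avg_sum]
  have h2 : ∑ ω, p ω * ((1 - γ) * avg (F ω) - η) ≤ ∑ ω, p ω * avg (G ω) :=
    sum_le_sum fun ω _ => mul_le_mul_of_nonneg_left (h ω) (h0 ω)
  refine le_trans (le_of_eq ?_) h2
  calc (1 - γ) * ∑ ω, p ω * avg (F ω) - η =
        (1 - γ) * ∑ ω, p ω * avg (F ω) - (∑ ω, p ω) * η := by rw [h1, one_mul]
    _ = _ := by
        rw [mul_sum, sum_mul, ← sum_sub_distrib]
        exact sum_congr rfl fun ω _ => by ring

section

variable {A B ι : Type} [Fintype A] [Fintype B] [Nonempty A] [Nonempty B]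
  {pos : A → ι → Bool} {neg : B → ι → Bool} {g s K t r : ℕ}

theorem blk_le {t : ℕ} {ι A : Type} (pos : A → ι → Bool) (a : Fin t → A) (j : Fin t) :
    (fun v : Fin t × ι => pos (a v.1) v.2) ≤ blk true j (pos (a j)) := by
  rintro ⟨i, v⟩
  unfold blk
  split_ifs with hij
  · simp only at hij
    rw [hij]
  · exact Bool.le_true _

/-- a single circuit -/
theorem circuit_lin (h : StA (Level g s 0 false) pos neg K) (hK : 0 < K) (ht : 0 < t) {γ η : ℝ}
    (hγ : (r : ℝ) / t + 1 / K ≤ γ) (hη : (3 / 4 : ℝ) ^ r ≤ η)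
    {C : (Fin t × ι → Bool) → Bool} (hC : MComp (VB (Fin t × ι)) s C) :
    (1 - γ) * avg (fun a : Fin t → A =>
        if C (fun v => pos (a v.1) v.2) = true then (1 : ℝ) else 0) - η ≤
      avg (fun p : Fin t × B => if C (blk true p.1 (neg p.2)) = true then (1 : ℝ) else 0) := by
  classical
  have hne : Nonempty (Fin t) := ⟨⟨0, ht⟩⟩
  have ht0 : (0 : ℝ) < t := by exact_mod_cast ht
  have hK0 : (0 : ℝ) < K := by exact_mod_cast hK
  have hK1 : (1 : ℝ) ≤ K := by exact_mod_cast hK
  have hγ0 : 0 ≤ γ := le_trans (by positivity) hγ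
  have hη0 : 0 ≤ η := le_trans (by positivity) hη
  obtain ⟨α, hα⟩ : ∃ α, α = avg (fun a : Fin t → A =>
    if C (fun v => pos (a v.1) v.2) = true then (1 : ℝ) else 0) := ⟨_, rfl⟩
  have hα0 : 0 ≤ α := by
    rw [hα]
    refine avg_nonneg fun a => ?_
    split_ifs <;> norm_num
  have hα1 : α ≤ 1 := by
    rw [hα]
    refine avg_le fun a => ?_
    split_ifs <;> norm_num
  have hN0 : 0 ≤ avg (fun p : Fin t × B =>
      if C (blk true p.1 (neg p.2)) = true then (1 : ℝ) else 0) := by
    refine avg_nonneg fun a => ?_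
    split_ifs <;> norm_num
  rw [← hα]
  have hlev : Level g s 0 false (fun x => C x = true) := ⟨C, hC, fun x => Iff.rfl⟩
  by_cases hJ : r ≤ (univ.filter fun j : Fin t =>
      ¬ K * num (fun b => ¬ C (blk true j (neg b)) = true) ≤ Fintype.card B).card
  · have h2 := prodR (r := r) (fun a : Fin t → A => C (fun v => pos (a v.1) v.2) = true)
      (fun j a => C (blk true j (pos a)) = true) (by
        intro a ha j
        exact hlev.mono _ _ (blk_le pos a j) ha) _ (c := 3 / 4) (by norm_num) (by norm_num) (by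
        intro j hj
        rw [mem_filter] at hj
        rcases h _ (level_blk true j hlev) with h3 | h3
        · exact absurd h3 hj.2
        · have h4 : ((4 * num (fun a => C (blk true j (pos a)) = true) : ℕ) : ℝ) ≤
              ((3 * Fintype.card A : ℕ) : ℝ) := by exact_mod_cast h3
          push_cast at h4
          linarith) hJ
    have h3 : α ≤ η := by
      rw [hα, avg_ind, div_le_iff₀ card_pos', Fintype.card_fun, Fintype.card_fin]
      refine h2.trans ?_
      push_cast
      exact mul_le_mul_of_nonneg_right hη (by positivity)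
    nlinarith
  · rw [not_le] at hJ
    have h2 := avg_blocks (f := fun p : Fin t × B =>
      if C (blk true p.1 (neg p.2)) = true then (1 : ℝ) else 0) (by
        intro p
        split_ifs <;> norm_num) _ hJ.le (X := 1 - 1 / K) (by
        have : 1 / (K : ℝ) ≤ 1 := (div_le_one hK0).2 hK1
        linarith) (by
        intro j hj
        rw [mem_filter, not_and, not_not] at hj
        have h3 := hj (mem_univ _)
        dsimp only
        rw [avg_ind]
        have h4 := num_not (fun b => C (blk true j (neg b)) = true)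
        have h5 : ((K * num (fun b => ¬ C (blk true j (neg b)) = true) : ℕ) : ℝ) ≤
            ((Fintype.card B : ℕ) : ℝ) := by exact_mod_cast h3
        have h6 : ((num (fun b => C (blk true j (neg b)) = true) : ℕ) : ℝ) =
            (Fintype.card B : ℝ) - num (fun b => ¬ C (blk true j (neg b)) = true) := by
          rw [← h4]
          push_cast
          ring
        rw [h6, le_div_iff₀ card_pos', sub_mul, one_mul]
        refine sub_le_sub_left ?_ _
        rw [div_mul_eq_mul_div, one_mul, le_div_iff₀ hK0]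
        push_cast at h5
        linarith)
    have h3 : 0 ≤ (r : ℝ) / t := by positivity
    have h4 : 0 ≤ 1 / (K : ℝ) := by positivity
    have h5 : 1 - γ ≤ (1 - r / t) * (1 - 1 / K) := by nlinarith
    rcases le_total (1 - γ) 0 with h6 | h6
    · nlinarith
    · nlinarith

theorem base_lin (h : StA (Level g s 0 false) pos neg K) (hK : 0 < K) (ht : 0 < t) {γ η : ℝ}
    (hγ : (r : ℝ) / t + 1 / K ≤ γ) (hη : (3 / 4 : ℝ) ^ r ≤ η) :
    Lin (Game g s 0) (fun (a : Fin t → A) (v : Fin t × ι) => pos (a v.1) v.2)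
      (fun p : Fin t × B => blk true p.1 (neg p.2)) γ η := by
  have hne : Nonempty (Fin t) := ⟨⟨0, ht⟩⟩
  rintro v ⟨Ω, iΩ, p, C, h0, h1, hC, hv⟩
  simp only [hv]
  exact mix h0 h1 fun ω => circuit_lin h hK ht hγ hη (hC ω)

/-- a single message -/
theorem max_lin {k : ℕ} {γ η γ1 ρ : ℝ} (h : Lin (Game g s k) pos neg γ η) (hγ0 : 0 ≤ γ)
    (hη0 : 0 ≤ η) (hγ1 : 0 ≤ γ1) (hγ1' : γ1 ≤ 1) (ht : 0 < t) (hrt : r ≤ t)
    (hρ : 2 ^ g * (1 - γ1) ^ r ≤ ρ) (hρ1 : ρ < 1)
    {D : (Fin g → Bool) → (Fin t × ι → Bool) → ℝ} (hD : ∀ u, Game g s k (D u)) :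
    (1 - (γ + γ1 + r / t)) * avg (fun a : Fin t → A => ⨆ u, D u fun v => pos (a v.1) v.2) -
        (η + ρ) ≤ avg (fun p : Fin t × B => ⨆ u, D u (blk true p.1 (neg p.2))) := by
  classical
  have hne : Nonempty (Fin t) := ⟨⟨0, ht⟩⟩
  have ht0 : (0 : ℝ) < t := by exact_mod_cast ht
  have hrt0 : 0 ≤ (r : ℝ) / t := by positivity
  have hrt1 : (r : ℝ) / t ≤ 1 := by
    rw [div_le_one ht0]
    exact_mod_cast hrt
  have hρ0 : 0 ≤ ρ := le_trans (mul_nonneg (by positivity) (pow_nonneg (by linarith) _)) hρ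
  obtain ⟨M, hM⟩ : ∃ M : (Fin t × ι → Bool) → ℝ, M = fun x => ⨆ u, D u x := ⟨_, rfl⟩
  have hM1 : ∀ x, 0 ≤ M x ∧ M x ≤ 1 := by
    intro x
    rw [hM]
    obtain ⟨u, hu⟩ := sup_mem (fun u => D u x)
    simp only [hu]
    exact (hD u).range x
  obtain ⟨α, hα⟩ : ∃ α, α = avg (fun a : Fin t → A => M fun v => pos (a v.1) v.2) := ⟨_, rfl⟩
  have hα0 : 0 ≤ α := by rw [hα]; exact avg_nonneg fun a => (hM1 _).1
  have hN0 : 0 ≤ avg (fun p : Fin t × B => M (blk true p.1 (neg p.2))) :=
    avg_nonneg fun a => (hM1 _).1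
  have hα' : avg (fun a : Fin t → A => ⨆ u, D u fun v => pos (a v.1) v.2) = α := by
    rw [hα, hM]
  have hN' : avg (fun p : Fin t × B => ⨆ u, D u (blk true p.1 (neg p.2))) =
      avg (fun p : Fin t × B => M (blk true p.1 (neg p.2))) := by
    rw [hM]
  rw [hα', hN']
  rcases le_total α ρ with hαρ | hαρ
  · nlinarith
  -- many positive tests have a large value
  have h2 : ρ * (Fintype.card (Fin t → A) : ℝ) <
      (num (fun a : Fin t → A => α - ρ ≤ M fun v => pos (a v.1) v.2) : ℝ) := by
    by_contra hcon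
    rw [not_lt] at hcon
    have := avg_lt_num (f := fun a : Fin t → A => M fun v => pos (a v.1) v.2)
      (fun a => (hM1 _).2) (θ := α - ρ) (by linarith) hρ1 hcon
    rw [← hα] at this
    linarith
  -- a message which is good for many of them
  obtain ⟨u, hu⟩ : ∃ u, ρ * (Fintype.card (Fin t → A) : ℝ) < 2 ^ g *
      (num (fun a : Fin t → A => α - ρ ≤ D u fun v => pos (a v.1) v.2) : ℝ) := by
    by_contra hcon
    push Not at hcon
    have h3 : num (fun a : Fin t → A => α - ρ ≤ M fun v => pos (a v.1) v.2) ≤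
        ∑ u, num (fun a : Fin t → A => α - ρ ≤ D u fun v => pos (a v.1) v.2) := by
      refine (num_mono fun a ha => ?_).trans (num_exists _)
      obtain ⟨u, hu⟩ := sup_mem (fun u => D u fun v => pos (a v.1) v.2)
      refine ⟨u, ?_⟩
      rw [← hu]
      rw [hM] at ha
      exact ha
    have h4 : (num (fun a : Fin t → A => α - ρ ≤ M fun v => pos (a v.1) v.2) : ℝ) ≤
        ∑ u : Fin g → Bool,
          (num (fun a : Fin t → A => α - ρ ≤ D u fun v => pos (a v.1) v.2) : ℝ) := by
      exact_mod_cast h3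
    have h5 : (2 : ℝ) ^ g * ∑ u : Fin g → Bool,
        (num (fun a : Fin t → A => α - ρ ≤ D u fun v => pos (a v.1) v.2) : ℝ) ≤
        2 ^ g * (ρ * (Fintype.card (Fin t → A) : ℝ)) := by
      rw [mul_sum]
      refine (sum_le_sum fun u _ => hcon u).trans (le_of_eq ?_)
      rw [sum_const, card_univ, Fintype.card_fun, Fintype.card_fin, Fintype.card_bool,
        nsmul_eq_mul]
      push_cast
      ring
    have h6 := le_of_mul_le_mul_left h5 (by positivity)
    linarith
  have h3 : (1 - (γ + γ1 + r / t)) * (α - ρ) - η ≤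
      avg (fun p : Fin t × B => D u (blk true p.1 (neg p.2))) := by
    have hθ : 0 ≤ α - ρ := by linarith
    have hD0 : 0 ≤ avg (fun p : Fin t × B => D u (blk true p.1 (neg p.2))) :=
      avg_nonneg fun a => ((hD u).range _).1
    obtain ⟨y, hy⟩ : ∃ y, y = (r : ℝ) / t := ⟨_, rfl⟩
    rw [← hy] at hrt0 hrt1 ⊢
    rcases le_total (1 - γ) 0 with hγ' | hγ'
    · refine le_trans ?_ hD0
      have : 1 - (γ + γ1 + y) ≤ 0 := by linarith
      nlinarith
    by_cases hJ : r ≤ (univ.filter fun j : Fin t =>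
      (num (fun a => α - ρ ≤ D u (blk true j (pos a))) : ℝ) ≤
        (1 - γ1) * Fintype.card A).card
    · exfalso
      have h4 := prodR (r := r) (fun a : Fin t → A => α - ρ ≤ D u fun v => pos (a v.1) v.2)
        (fun j a => α - ρ ≤ D u (blk true j (pos a))) (by
          intro a ha j
          exact ha.trans ((hD u).mono _ _ (blk_le pos a j))) _ (c := 1 - γ1) (by linarith)
          (by linarith) (by
          intro j hj
          exact (mem_filter.1 hj).2) hJ
      rw [Fintype.card_fun, Fintype.card_fin] at hu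
      push_cast at hu
      have h5 : (2 : ℝ) ^ g *
          (num (fun a : Fin t → A => α - ρ ≤ D u fun v => pos (a v.1) v.2) : ℝ) ≤
          ρ * (Fintype.card A : ℝ) ^ t := by
        calc (2 : ℝ) ^ g *
            (num (fun a : Fin t → A => α - ρ ≤ D u fun v => pos (a v.1) v.2) : ℝ) ≤
            2 ^ g * ((1 - γ1) ^ r * (Fintype.card A : ℝ) ^ t) :=
              mul_le_mul_of_nonneg_left h4 (by positivity)
          _ = (2 ^ g * (1 - γ1) ^ r) * (Fintype.card A : ℝ) ^ t := by ring
          _ ≤ _ := mul_le_mul_of_nonneg_right hρ (by positivity)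
      linarith
    · rw [not_le] at hJ
      rcases le_total ((1 - γ) * (1 - γ1) * (α - ρ) - η) 0 with hX | hX
      · refine le_trans ?_ hD0
        have : 1 - (γ + γ1 + y) ≤ (1 - γ) * (1 - γ1) := by nlinarith
        have := mul_le_mul_of_nonneg_right this hθ
        linarith
      · have h4 := avg_blocks (f := fun p : Fin t × B => D u (blk true p.1 (neg p.2)))
          (fun p => ((hD u).range _).1) _ hJ.le hX (by
          intro j hj
          rw [mem_filter, not_and, not_le] at hj
          have h5 := hj (mem_univ _)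
          have h6 := h _ ((hD u).blk true j)
          refine le_trans ?_ h6
          have h7 := le_avg_num (f := fun a => D u (blk true j (pos a)))
            (fun a => ((hD u).range _).1) (θ := α - ρ)
          have h8 : (1 - γ1) ≤
              (num (fun a => α - ρ ≤ D u (blk true j (pos a))) : ℝ) / Fintype.card A := by
            rw [le_div_iff₀ card_pos']
            exact h5.le
          have h9 : (1 - γ1) * (α - ρ) ≤ avg (fun a => D u (blk true j (pos a))) := by
            refine le_trans ?_ h7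
            rw [mul_comm]
            exact mul_le_mul_of_nonneg_left h8 hθ
          have h10 := mul_le_mul_of_nonneg_left h9 hγ'
          linarith)
        refine le_trans ?_ h4
        rw [← hy]
        have e1 : 1 - (γ + γ1 + y) ≤ (1 - y) * ((1 - γ) * (1 - γ1)) := by
          have e2 : 1 - (γ + γ1) ≤ (1 - γ) * (1 - γ1) := by nlinarith
          have e3 : (1 - γ) * (1 - γ1) ≤ 1 := by nlinarith
          nlinarith
        have e4 := mul_le_mul_of_nonneg_right e1 hθ
        have e5 : (1 - y) * η ≤ η := by nlinarith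
        calc (1 - (γ + γ1 + y)) * (α - ρ) - η ≤
              (1 - y) * ((1 - γ) * (1 - γ1)) * (α - ρ) - (1 - y) * η := by linarith
          _ = _ := by ring
  have h4 : avg (fun p : Fin t × B => D u (blk true p.1 (neg p.2))) ≤
      avg (fun p : Fin t × B => M (blk true p.1 (neg p.2))) := by
    refine avg_mono fun p => ?_
    rw [hM]
    exact le_sup (fun u => D u (blk true p.1 (neg p.2))) u
  have h5 : 0 ≤ γ + γ1 + r / t := by linarith
  nlinarith

theorem game_step {k : ℕ} {γ η γ1 ρ : ℝ} (h : Lin (Game g s k) pos neg γ η) (hγ0 : 0 ≤ γ)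
    (hη0 : 0 ≤ η) (hγ1 : 0 ≤ γ1) (hγ1' : γ1 ≤ 1) (ht : 0 < t) (hrt : r ≤ t)
    (hρ : 2 ^ g * (1 - γ1) ^ r ≤ ρ) (hρ1 : ρ < 1) :
    Lin (Game g s (k + 1)) (fun (a : Fin t → A) (v : Fin t × ι) => pos (a v.1) v.2)
      (fun p : Fin t × B => blk true p.1 (neg p.2)) (γ + γ1 + r / t) (η + ρ) := by
  have hne : Nonempty (Fin t) := ⟨⟨0, ht⟩⟩
  rintro v ⟨Ω, iΩ, p, D, h0, h1, hD, hv⟩
  simp only [hv]
  exact mix h0 h1 fun ω => max_lin h hγ0 hη0 hγ1 hγ1' ht hrt hρ hρ1 (hD ω)

end

end Pool.Agent.J6H27.MPH
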