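import Pool.Agent.J6H27.MPH.Game2

/-!
# Trees of conjunctions and Arthur-Merlin games
-/

set_option autoImplicit false

namespace Pool.Agent.J6H27.MPH

open Finset Pool.Agent.H520R2 Pool.Agent.H520R2.NM

/-- no graph in the leaves of a tree has an independent set with `k` vertices -/
def AllT (t n k : ℕ) : (m : ℕ) → (Var t n m → Bool) → Prop
  | 0, x => NoIndep n k x
  | m + 1, x => ∀ j : Fin t, AllT t n k m (fun v => x (j, v))

/-! ### the upper bound -/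

theorem allT_level {t n k g s : ℕ} (ht : 0 < t) (hk : k ≤ n) (h2 : k * k ≤ s) (m : ℕ)
    (h1 : t ^ m * n ^ k ≤ 2 ^ g) : Level g s 1 false (AllT t n k m) := by
  have key : ∀ m : ℕ, ∃ (X : Type) (_ : Fintype X) (_ : Nonempty X)
      (W : X → List (Var t n m)), Fintype.card X ≤ t ^ m * n ^ k ∧
      (∀ w, (W w).length ≤ k * k) ∧ ∀ x, AllT t n k m x ↔ ∀ w, ∃ i ∈ W w, x i = true := by
    intro m
    induction m with
    | zero =>
      have hne : Nonempty {S : Finset (Fin n) // S.card = k} := by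
        obtain ⟨S, _, hS⟩ := exists_subset_card_eq (s := (univ : Finset (Fin n))) (n := k)
          (by rw [card_univ, Fintype.card_fin]; exact hk)
        exact ⟨⟨S, hS⟩⟩
      refine ⟨{S : Finset (Fin n) // S.card = k}, inferInstance, hne, fun S => prs S.1, ?_, ?_,
        fun x => ?_⟩
      · rw [pow_zero, one_mul]
        exact card_sets n k
      · intro S
        refine (prs_length _).trans ?_
        rw [S.2]
      · constructor
        · rintro h ⟨S, hS⟩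
          obtain ⟨u, hu, v, hv, huv, h3⟩ := h S hS
          exact ⟨_, mem_prs.2 ⟨u, hu, v, hv, huv, rfl⟩, h3⟩
        · intro h S hS
          obtain ⟨i, hi, h3⟩ := h ⟨S, hS⟩
          obtain ⟨u, hu, v, hv, huv, rfl⟩ := mem_prs.1 hi
          exact ⟨u, hu, v, hv, huv, h3⟩
    | succ m ih =>
      obtain ⟨X, iX, nX, W, hX, hW, hall⟩ := ih
      have hne : Nonempty (Fin t) := ⟨⟨0, ht⟩⟩
      refine ⟨Fin t × X, inferInstance, inferInstance,
        fun p => (W p.2).map fun v => ((p.1, v) : Fin t × Var t n m), ?_, ?_, fun x => ?_⟩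
      · rw [Fintype.card_prod, Fintype.card_fin]
        calc t * Fintype.card X ≤ t * (t ^ m * n ^ k) := Nat.mul_le_mul_left _ hX
          _ = t ^ (m + 1) * n ^ k := by ring
      · intro p
        exact (List.length_map _).le.trans (hW p.2)
      · constructor
        · rintro h ⟨j, w⟩
          obtain ⟨i, hi, h3⟩ := (hall _).1 (h j) w
          exact ⟨(j, i), List.mem_map.2 ⟨i, hi, rfl⟩, h3⟩
        · intro h j
          refine (hall _).2 fun w => ?_
          obtain ⟨i, hi, h3⟩ := h (j, w)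
          obtain ⟨v, hv, rfl⟩ := List.mem_map.1 hi
          exact ⟨v, hv, h3⟩
  obtain ⟨X, iX, nX, W, hX, hW, hall⟩ := key m
  obtain ⟨e, he⟩ := exists_surj (hX.trans h1)
  refine ⟨fun u x => ∃ i ∈ W (e u), x i = true, fun u => level_or _ ((hW _).trans h2),
    fun x => ?_⟩
  rw [hall]
  constructor
  · intro h u
    exact h (e u)
  · intro h w
    obtain ⟨u, rfl⟩ := he w
    exact h u

/-! ### the lower bound -/

theorem Game.lift {g s : ℕ} {ι : Type} {v : (ι → Bool) → ℝ} {k m : ℕ} (h : Game g s k v)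
    (hkm : k ≤ m) : Game g s m v := by
  induction hkm with
  | refl => exact h
  | step _ ih =>
    refine ⟨Unit, inferInstance, fun _ => 1, fun _ _ => v, fun _ => zero_le_one, by simp,
      fun _ _ => ih, fun x => ?_⟩
    simp

theorem game_tests {n κ q t g s l p K r r0 : ℕ} (emb : Fin (κ + 1) × Fin q → Fin n)
    (hemb : Function.Injective emb) (hq : 1 ≤ q) (hκ : 1 ≤ κ)
    (hl2 : 2 ≤ l) (hl : l * (l - 1) ≤ κ) (hp : 2 ≤ p)
    (h1 : K * (s * (p ^ l * l.factorial) ^ 2) ≤ q ^ (l + 1))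
    (h2 : 4 * (s * (p ^ l * l.factorial) ^ 2) ≤ 2 ^ p)
    (h3 : K * 2 ^ g * 3 ^ r0 ≤ 4 ^ r0) (hK : 4 ≤ K) (ht : 2 * r0 ≤ t) (ht0 : 0 < t)
    (hrt : r ≤ t) {γ1 ρ : ℝ} (hγ1 : 0 ≤ γ1) (hγ1' : γ1 ≤ 1)
    (hρ : 2 ^ g * (1 - γ1) ^ r ≤ ρ) (hρ1 : ρ < 1) (hr : (3 / 4 : ℝ) ^ r ≤ ρ) (k : ℕ) :
    ∃ (A B : Type) (_ : Fintype A) (_ : Fintype B) (_ : Nonempty A) (_ : Nonempty B)
      (pos : A → Var t n (k + 1) → Bool) (neg : B → Var t n (k + 1) → Bool),
      (∀ a, AllT t n (κ + 1) (k + 1) (pos a)) ∧ (∀ b, ¬ AllT t n (κ + 1) (k + 1) (neg b)) ∧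
      Lin (Game g s k) pos neg ((r : ℝ) / t + 1 / K + k * (γ1 + r / t)) (ρ + k * ρ) := by
  have hfint : Nonempty (Fin t) := ⟨⟨0, ht0⟩⟩
  have hρ0 : 0 ≤ ρ := le_trans (mul_nonneg (by positivity) (pow_nonneg (by linarith) _)) hρ
  induction k with
  | zero =>
    obtain ⟨-, ⟨A, B, iA, iB, nA, nB, pos, neg, hpos, hneg, hst⟩⟩ :=
      tests (t := t) (g := g) (s := s) (r := r0) emb hemb hq hκ hl2 hl hp h1 h2 h3 hK ht ht0 0
    refine ⟨Fin t → A, Fin t × B, inferInstance, inferInstance, inferInstance, inferInstance,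
      fun a v => pos (a v.1) v.2, fun p => blk true p.1 (neg p.2), ?_, ?_,
      base_lin (r := r) hst (by omega) ht0 ?_ ?_⟩
    · intro a j
      exact hpos (a j)
    · rintro ⟨j, b⟩ h
      apply hneg b
      have h5 := h j
      have h6 : (fun v => blk true j (neg b) (j, v)) = neg b := by
        funext v
        simp [blk]
      have h7 : AllT t n (κ + 1) 0 (neg b) := h6 ▸ h5
      exact h7
    · simp
    · simpa using hr
  | succ k ih =>
    obtain ⟨A, B, iA, iB, nA, nB, pos, neg, hpos, hneg, hst⟩ := ih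
    have hst' := game_step (t := t) (r := r) hst (by positivity) (by positivity) hγ1 hγ1' ht0
      hrt hρ hρ1
    refine ⟨Fin t → A, Fin t × B, inferInstance, inferInstance, inferInstance, inferInstance,
      fun a v => pos (a v.1) v.2, fun p => blk true p.1 (neg p.2), ?_, ?_, ?_⟩
    · intro a j
      exact hpos (a j)
    · rintro ⟨j, b⟩ h
      apply hneg b
      have := h j
      simpa [blk] using this
    · have e1 : (r : ℝ) / t + 1 / K + ((k + 1 : ℕ) : ℝ) * (γ1 + r / t) =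
          (r : ℝ) / t + 1 / K + k * (γ1 + r / t) + γ1 + r / t := by
        push_cast
        ring
      have e2 : ρ + ((k + 1 : ℕ) : ℝ) * ρ = ρ + k * ρ + ρ := by
        push_cast
        ring
      rw [e1, e2]
      exact hst'

theorem game_lower {n κ q t g s l p K r r0 : ℕ} (emb : Fin (κ + 1) × Fin q → Fin n)
    (hemb : Function.Injective emb) (hq : 1 ≤ q) (hκ : 1 ≤ κ)
    (hl2 : 2 ≤ l) (hl : l * (l - 1) ≤ κ) (hp : 2 ≤ p)
    (h1 : K * (s * (p ^ l * l.factorial) ^ 2) ≤ q ^ (l + 1))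
    (h2 : 4 * (s * (p ^ l * l.factorial) ^ 2) ≤ 2 ^ p)
    (h3 : K * 2 ^ g * 3 ^ r0 ≤ 4 ^ r0) (hK : 4 ≤ K) (ht : 2 * r0 ≤ t) (ht0 : 0 < t)
    (hrt : r ≤ t) {γ1 ρ : ℝ} (hγ1 : 0 ≤ γ1) (hγ1' : γ1 ≤ 1)
    (hρ : 2 ^ g * (1 - γ1) ^ r ≤ ρ) (hρ1 : ρ < 1) (hr : (3 / 4 : ℝ) ^ r ≤ ρ) {k : ℕ}
    {ι : Type} (e : Var t n (k + 1) → ι) (he : Function.Injective e) {v : (ι → Bool) → ℝ}
    (hv : Game g s k v) {α β : ℝ}
    (hyes : ∀ x, AllT t n (κ + 1) (k + 1) (fun w => x (e w)) → α + β ≤ v x)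
    (hno : ∀ x, ¬ AllT t n (κ + 1) (k + 1) (fun w => x (e w)) → v x ≤ α) :
    β ≤ (r : ℝ) / t + 1 / K + k * (γ1 + r / t) + (ρ + k * ρ) := by
  classical
  obtain ⟨A, B, iA, iB, nA, nB, pos, neg, hpos, hneg, hst⟩ :=
    game_tests (g := g) (s := s) (r := r) (r0 := r0) emb hemb hq hκ hl2 hl hp h1 h2 h3 hK ht ht0
      hrt hγ1 hγ1' hρ hρ1 hr k
  have hρ0 : 0 ≤ ρ := le_trans (mul_nonneg (by positivity) (pow_nonneg (by linarith) _)) hρ
  obtain ⟨γ, hγ⟩ : ∃ γ, γ = (r : ℝ) / t + 1 / K + k * (γ1 + r / t) := ⟨_, rfl⟩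
  obtain ⟨η, hη⟩ : ∃ η, η = ρ + k * ρ := ⟨_, rfl⟩
  have hγ0 : 0 ≤ γ := by rw [hγ]; positivity
  have hη0 : 0 ≤ η := by rw [hη]; positivity
  rw [← hγ, ← hη] at hst ⊢
  let σ : ι → Bool ⊕ Var t n (k + 1) := fun i =>
    if h : ∃ y, e y = i then Sum.inr h.choose else Sum.inl false
  have hσ : ∀ (z : Var t n (k + 1) → Bool) y, sub σ z (e y) = z y := by
    intro z y
    have hex : ∃ y', e y' = e y := ⟨y, rfl⟩
    have hc := he hex.choose_spec
    have : σ (e y) = Sum.inr y := by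
      simp only [σ]
      rw [dif_pos hex, hc]
    unfold sub
    rw [this]
  have hσ' : ∀ z : Var t n (k + 1) → Bool, (fun w => sub σ z (e w)) = z := fun z =>
    funext fun y => hσ z y
  have h4 := hst _ (hv.subst σ)
  have hp1 : α + β ≤ avg (fun a => v (sub σ (pos a))) := by
    refine le_avg fun a => hyes _ ?_
    rw [hσ']
    exact hpos a
  have hn1 : avg (fun b => v (sub σ (neg b))) ≤ α := by
    refine avg_le fun b => hno _ ?_
    rw [hσ']
    exact hneg b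
  have hp2 : α + β ≤ 1 := hp1.trans (avg_le fun a => (hv.range _).2)
  have hn2 : 0 ≤ α := le_trans (avg_nonneg fun b => (hv.range _).1) hn1
  rcases le_total γ 1 with h5 | h5
  · have h6 : (1 - γ) * (α + β) ≤ (1 - γ) * avg (fun a => v (sub σ (pos a))) :=
      mul_le_mul_of_nonneg_left hp1 (by linarith)
    nlinarith
  · linarith

/-- the bound for one `N` -/
theorem game_one {n N g c l a k m E : ℕ} (hkm : k ≤ m) (hl2 : 2 ≤ l)
    (hnN : n ≤ N) (hL : 1 ≤ Nat.log 2 n) (h2L : 2 * (Nat.log 2 n + 1) ≤ n)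
    (hll : l * (l - 1) ≤ Nat.log 2 n) (hp : 2 ≤ a * (Nat.log 2 n + 1))
    (h1 : 2 ^ (Nat.log 2 N + 3) * (N ^ c *
      ((a * (Nat.log 2 n + 1)) ^ l * l.factorial) ^ 2) ≤ (n / (Nat.log 2 n + 1)) ^ (l + 1))
    (h2 : 4 * (N ^ c * ((a * (Nat.log 2 n + 1)) ^ l * l.factorial) ^ 2) ≤
      2 ^ (a * (Nat.log 2 n + 1)))
    (hNh : N < 2 ^ (Nat.log 2 N + 3))
    (hE3 : 3 ≤ E) (hr : 2 * (3 * (E ^ 2 * (g + (Nat.log 2 N + 3)) + (Nat.log 2 N + 3))) ≤ n)
    {ι : Type} (e : Var n n (m + 1) → ι) (he : Function.Injective e) {v : (ι → Bool) → ℝ}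
    (hv : Game g (N ^ c) k v) {α β : ℝ} (hβ : (3 * m + 3 : ℝ) / E < β) :
    ¬ ((∀ x, AllT n n (Nat.log 2 n + 1) (m + 1) (fun w => x (e w)) → α + β ≤ v x) ∧
      ∀ x, ¬ AllT n n (Nat.log 2 n + 1) (m + 1) (fun w => x (e w)) → v x ≤ α) := by
  rintro ⟨hyes, hno⟩
  obtain ⟨h, hh⟩ : ∃ h, h = Nat.log 2 N + 3 := ⟨_, rfl⟩
  rw [← hh] at h1 hr hNh
  have hE0 : (0 : ℝ) < E := by exact_mod_cast (by omega : 0 < E)
  have hE1 : (3 : ℝ) ≤ E := by exact_mod_cast hE3
  have hn0 : 0 < n := by omega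
  have hn0' : (0 : ℝ) < n := by exact_mod_cast hn0
  have hcard : Fintype.card (Fin (Nat.log 2 n + 1) × Fin (n / (Nat.log 2 n + 1))) ≤
      Fintype.card (Fin n) := by
    rw [Fintype.card_prod, Fintype.card_fin, Fintype.card_fin, Fintype.card_fin]
    exact Nat.mul_div_le _ _
  obtain ⟨emb⟩ := Function.Embedding.nonempty_of_card_le hcard
  have hq : 1 ≤ n / (Nat.log 2 n + 1) := by
    rw [Nat.le_div_iff_mul_le (Nat.succ_pos _)]
    omega
  have hEE : g + h ≤ E ^ 2 * (g + h) := Nat.le_mul_of_pos_left _ (by positivity)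
  have hEr : E * (E * (g + h)) ≤ n := by
    have : E * (E * (g + h)) = E ^ 2 * (g + h) := by ring
    omega
  have hr' : E * (g + h) ≤ n := le_trans (Nat.le_mul_of_pos_left _ (by omega)) hEr
  have hEn : E ≤ n := le_trans (Nat.le_mul_of_pos_right _ (by omega)) hr'
  -- the powers
  have hpow1 : (1 - 1 / (E : ℝ)) ^ E ≤ 1 / 2 := by
    have h4 := Real.one_sub_div_pow_le_exp_neg (n := E) (t := 1) (by linarith)
    have h5 := Real.exp_neg_one_lt_d9
    linarith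
  have hE' : 1 / (E : ℝ) ≤ 1 := by
    rw [div_le_one hE0]
    linarith
  have hpow : (1 - 1 / (E : ℝ)) ^ (E * (g + h)) ≤ (1 / 2) ^ (g + h) := by
    rw [pow_mul]
    exact pow_le_pow_left₀ (pow_nonneg (by linarith) _) hpow1 _
  have hρ : 2 ^ g * (1 - 1 / (E : ℝ)) ^ (E * (g + h)) ≤ (1 / 2) ^ h := by
    calc 2 ^ g * (1 - 1 / (E : ℝ)) ^ (E * (g + h)) ≤ 2 ^ g * (1 / 2) ^ (g + h) :=
          mul_le_mul_of_nonneg_left hpow (by positivity)
      _ = (1 / 2) ^ h := by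
          rw [pow_add, ← mul_assoc, ← mul_pow]
          norm_num
  have hh0 : h ≠ 0 := by omega
  have hρ1 : (1 / 2 : ℝ) ^ h < 1 := pow_lt_one₀ (by norm_num) (by norm_num) hh0
  have h34 : (3 / 4 : ℝ) ^ (E * (g + h)) ≤ (1 / 2) ^ h := by
    calc (3 / 4 : ℝ) ^ (E * (g + h)) ≤ (3 / 4 : ℝ) ^ (3 * h) := by
          refine pow_le_pow_of_le_one (by norm_num) (by norm_num) ?_
          exact Nat.mul_le_mul hE3 (by omega)
      _ = ((3 / 4 : ℝ) ^ 3) ^ h := by rw [pow_mul]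
      _ ≤ (1 / 2) ^ h := pow_le_pow_left₀ (by norm_num) (by norm_num) _
  have hfin := game_lower (g := g) (s := N ^ c) (K := 2 ^ h) (r := E * (g + h))
    (r0 := 3 * (g + h)) (γ1 := 1 / (E : ℝ)) (ρ := (1 / 2) ^ h) (t := n) (k := m)
    emb emb.injective hq hL hl2 hll hp h1 h2 threefour (by
      calc 4 = 2 ^ 2 := by norm_num
        _ ≤ _ := Nat.pow_le_pow_right (by norm_num) (by omega))
      (by omega) hn0 hr' (by positivity) hE' hρ hρ1 h34 e he (hv.lift hkm) hyes hno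
  have e1 : ((E * (g + h) : ℕ) : ℝ) / n ≤ 1 / E := by
    rw [div_le_div_iff₀ hn0' hE0, one_mul]
    have : ((E * (E * (g + h)) : ℕ) : ℝ) ≤ n := by exact_mod_cast hEr
    push_cast at this ⊢
    linarith
  have e2 : (1 / 2 : ℝ) ^ h ≤ 1 / E := by
    rw [one_div_pow]
    refine one_div_le_one_div_of_le hE0 ?_
    have : E ≤ 2 ^ h := by omega
    exact_mod_cast this
  have e3 : 1 / (((2 ^ h : ℕ)) : ℝ) = (1 / 2) ^ h := by
    rw [one_div_pow]
    push_cast
    rfl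
  rw [e3] at hfin
  have hm : (0 : ℝ) ≤ m := Nat.cast_nonneg m
  have e4 : (m : ℝ) * (1 / (E : ℝ) + ((E * (g + h) : ℕ) : ℝ) / n) ≤ m * (1 / E + 1 / E) :=
    mul_le_mul_of_nonneg_left (by linarith) hm
  have e5 : (m : ℝ) * (1 / 2) ^ h ≤ m * (1 / E) := mul_le_mul_of_nonneg_left e2 hm
  have e6 : (3 * m + 3 : ℝ) / E = 3 * (m * (1 / E)) + 3 * (1 / E) := by
    field_simp
  rw [e6] at hβ
  nlinarith

end Pool.Agent.J6H27.MPH
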