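import Mathlib

/-!
# The counting step

A product argument: `t` independent copies, `M` tests.
-/

set_option autoImplicit false

namespace Pool.Agent.J6H27.MPH

open Finset

open Classical in
/-- the number of elements with the property `P` -/
noncomputable def num {X : Type} [Fintype X] (P : X → Prop) : ℕ := (univ.filter P).card

theorem num_mono {X : Type} [Fintype X] {P Q : X → Prop} (h : ∀ x, P x → Q x) :
    num P ≤ num Q := by
  classical
  unfold num
  refine card_le_card fun x hx => ?_
  rw [mem_filter] at hx ⊢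
  exact ⟨mem_univ _, h x hx.2⟩

theorem num_le_finset {X : Type} [Fintype X] {P : X → Prop} (F : Finset X)
    (h : ∀ x, P x → x ∈ F) : num P ≤ F.card := by
  classical
  unfold num
  refine card_le_card fun x hx => ?_
  rw [mem_filter] at hx
  exact h x hx.2

theorem num_le_card {X : Type} [Fintype X] (P : X → Prop) : num P ≤ Fintype.card X :=
  card_le_univ _

theorem num_exists {X U : Type} [Fintype X] [Fintype U] (P : U → X → Prop) :
    num (fun x => ∃ u, P u x) ≤ ∑ u, num (P u) := by
  classical
  have h : ∀ b, b ∈ (univ.filter fun x => ∃ u, P u x) →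
      b ∈ univ.biUnion fun u => univ.filter (P u) := by
    intro b hb
    obtain ⟨u, hu⟩ := (mem_filter.1 hb).2
    rw [mem_biUnion]
    exact ⟨u, mem_univ _, by rw [mem_filter]; exact ⟨mem_univ _, hu⟩⟩
  refine le_trans (le_of_eq ?_) ((card_le_card h).trans card_biUnion_le)
  unfold num
  congr

theorem num_prod {A : Type} [Fintype A] {t : ℕ} (P : Fin t × A → Prop) :
    num P ≤ ∑ j : Fin t, num (fun a => P (j, a)) := by
  classical
  unfold num
  have : (univ.filter P) ⊆ (univ.sigma (fun j : Fin t => univ.filter fun a => P (j, a))).map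
      (Equiv.sigmaEquivProd (Fin t) A).toEmbedding := by
    intro p hp
    rw [mem_filter] at hp
    rw [mem_map]
    exact ⟨⟨p.1, p.2⟩, by simpa using hp.2, rfl⟩
  refine (card_le_card this).trans ?_
  rw [card_map, card_sigma]

/-- A subset of a product all of whose projections to many coordinates are not too large is
small. -/
theorem prod_small {B : Type} [Fintype B] {t r : ℕ} (R : (Fin t → B) → Prop)
    (S : Fin t → B → Prop) (hRS : ∀ b, R b → ∀ j, S j (b j)) (J : Finset (Fin t))
    (hJ : ∀ j ∈ J, 4 * num (S j) ≤ 3 * Fintype.card B) (hr : r ≤ J.card) :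
    4 ^ r * num R ≤ 3 ^ r * Fintype.card B ^ t := by
  classical
  obtain ⟨J', hJ', hcard⟩ := exists_subset_card_eq hr
  have h1 : num R ≤ ∏ j, num (S j) := by
    unfold num
    rw [← Fintype.card_piFinset]
    refine card_le_card fun b hb => ?_
    rw [mem_filter] at hb
    rw [Fintype.mem_piFinset]
    intro j
    rw [mem_filter]
    exact ⟨mem_univ _, hRS b hb.2 j⟩
  have h2 : ∏ j, num (S j) = (∏ j ∈ J', num (S j)) * ∏ j ∈ univ \ J', num (S j) := by
    rw [mul_comm]
    exact (prod_sdiff (subset_univ J')).symm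
  have h3 : 4 ^ r * ∏ j ∈ J', num (S j) ≤ 3 ^ r * Fintype.card B ^ r := by
    calc 4 ^ r * ∏ j ∈ J', num (S j) = ∏ j ∈ J', 4 * num (S j) := by
          rw [prod_mul_distrib, prod_const, hcard]
      _ ≤ ∏ j ∈ J', 3 * Fintype.card B := prod_le_prod' fun j hj => hJ j (hJ' hj)
      _ = 3 ^ r * Fintype.card B ^ r := by
          rw [prod_const, hcard, mul_pow]
  have h4 : ∏ j ∈ univ \ J', num (S j) ≤ Fintype.card B ^ (t - r) := by
    calc ∏ j ∈ univ \ J', num (S j) ≤ ∏ _j ∈ univ \ J', Fintype.card B :=
          prod_le_prod' fun j _ => num_le_card _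
      _ = Fintype.card B ^ (t - r) := by
          rw [prod_const, card_sdiff_of_subset (subset_univ _), card_univ, Fintype.card_fin, hcard]
  have hrt : r ≤ t := by
    rw [← hcard]
    refine (card_le_univ J').trans ?_
    rw [Fintype.card_fin]
  calc 4 ^ r * num R ≤ 4 ^ r * ((∏ j ∈ J', num (S j)) * ∏ j ∈ univ \ J', num (S j)) :=
        Nat.mul_le_mul_left _ (h1.trans h2.le)
    _ = (4 ^ r * ∏ j ∈ J', num (S j)) * ∏ j ∈ univ \ J', num (S j) := by ring
    _ ≤ (3 ^ r * Fintype.card B ^ r) * Fintype.card B ^ (t - r) := Nat.mul_le_mul h3 h4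
    _ = 3 ^ r * Fintype.card B ^ t := by
        rw [mul_assoc, ← pow_add]
        congr 2
        omega

/-- **The key step.** -/
theorem key {A B U : Type} [Fintype A] [Fintype B] [Fintype U] {t r K : ℕ}
    (acc : U → Fin t → A → Prop) (rej : U → (Fin t → B) → Prop) (rejp : U → Fin t → B → Prop)
    (h1 : ∀ u b, rej u b → ∀ j, rejp u j (b j))
    (h2 : ∀ u j, K * num (acc u j) ≤ Fintype.card A ∨ 4 * num (rejp u j) ≤ 3 * Fintype.card B)
    (h3 : K * Fintype.card U * 3 ^ r ≤ 4 ^ r)
    (h4 : Fintype.card B ^ t < K * num (fun b => ∃ u, rej u b)) :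
    ∃ (u : U) (J : Finset (Fin t)), J.card < r ∧
      ∀ j ∉ J, K * num (acc u j) ≤ Fintype.card A := by
  classical
  -- one of the tests rejects many
  obtain ⟨u, hu⟩ : ∃ u : U, Fintype.card B ^ t < K * Fintype.card U * num (rej u) := by
    by_contra hcon
    push Not at hcon
    rcases Nat.eq_zero_or_pos (Fintype.card U) with h0 | h0
    · have : IsEmpty U := Fintype.card_eq_zero_iff.1 h0
      simp [num] at h4
    · have e3 : Fintype.card U * (K * num (fun b => ∃ u, rej u b)) ≤
          Fintype.card U * Fintype.card B ^ t := by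
        calc Fintype.card U * (K * num (fun b => ∃ u, rej u b)) ≤
            Fintype.card U * (K * ∑ u : U, num (rej u)) :=
              Nat.mul_le_mul_left _ (Nat.mul_le_mul_left _ (num_exists rej))
          _ = ∑ u : U, K * Fintype.card U * num (rej u) := by
              rw [mul_sum, mul_sum]
              refine sum_congr rfl fun u _ => ?_
              ring
          _ ≤ ∑ _u : U, Fintype.card B ^ t := sum_le_sum fun u _ => hcon u
          _ = _ := by rw [sum_const, smul_eq_mul, card_univ]
      have e4 := Nat.le_of_mul_le_mul_left e3 h0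
      omega
  refine ⟨u, univ.filter fun j => ¬ K * num (acc u j) ≤ Fintype.card A, ?_, ?_⟩
  · by_contra hcon
    rw [not_lt] at hcon
    have h5 := prod_small (rej u) (rejp u) (h1 u) _ (by
        intro j hj
        rw [mem_filter] at hj
        rcases h2 u j with h | h
        · exact absurd h hj.2
        · exact h) hcon
    have h6 : 4 ^ r * (K * Fintype.card U * num (rej u)) ≤ 4 ^ r * Fintype.card B ^ t := by
      calc 4 ^ r * (K * Fintype.card U * num (rej u)) =
          K * Fintype.card U * (4 ^ r * num (rej u)) := by ring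
        _ ≤ K * Fintype.card U * (3 ^ r * Fintype.card B ^ t) := Nat.mul_le_mul_left _ h5
        _ = (K * Fintype.card U * 3 ^ r) * Fintype.card B ^ t := by ring
        _ ≤ _ := Nat.mul_le_mul_right _ h3
    have h7 := Nat.le_of_mul_le_mul_left h6 (by positivity)
    omega
  · intro j hj
    rw [mem_filter, not_and, not_not] at hj
    exact hj (mem_univ _)

/-- **The step.** -/
theorem step {A B U : Type} [Fintype A] [Fintype B] [Fintype U] {t r K : ℕ}
    (acc : U → Fin t → A → Prop) (rej : U → (Fin t → B) → Prop) (rejp : U → Fin t → B → Prop)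
    (h1 : ∀ u b, rej u b → ∀ j, rejp u j (b j))
    (h2 : ∀ u j, K * num (acc u j) ≤ Fintype.card A ∨ 4 * num (rejp u j) ≤ 3 * Fintype.card B)
    (h3 : K * Fintype.card U * 3 ^ r ≤ 4 ^ r) (hK : 4 ≤ K) (ht : 2 * r ≤ t) :
    4 * num (fun p : Fin t × A => ∀ u, acc u p.1 p.2) ≤ 3 * Fintype.card (Fin t × A) ∨
      K * num (fun b => ∃ u, rej u b) ≤ Fintype.card (Fin t → B) := by
  classical
  by_contra hcon
  rw [not_or, not_le, not_le, Fintype.card_fun, Fintype.card_fin] at hcon
  obtain ⟨hc1, hc2⟩ := hcon
  obtain ⟨u, J, hJ, hj⟩ := key acc rej rejp h1 h2 h3 hc2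
  have e1 : num (fun p : Fin t × A => ∀ u, acc u p.1 p.2) ≤ ∑ j : Fin t, num (acc u j) :=
    (num_mono (Q := fun p : Fin t × A => acc u p.1 p.2) fun p hp => hp u).trans (num_prod _)
  have e2 : K * ∑ j : Fin t, num (acc u j) ≤ K * (r * Fintype.card A) + t * Fintype.card A := by
    rw [← sum_sdiff (subset_univ J), mul_add, add_comm]
    refine Nat.add_le_add ?_ ?_
    · refine Nat.mul_le_mul_left _ ?_
      calc ∑ j ∈ J, num (acc u j) ≤ ∑ _j ∈ J, Fintype.card A :=
            sum_le_sum fun j _ => num_le_card _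
        _ = J.card * Fintype.card A := by rw [sum_const, smul_eq_mul]
        _ ≤ _ := Nat.mul_le_mul_right _ hJ.le
    · rw [mul_sum]
      calc ∑ j ∈ univ \ J, K * num (acc u j) ≤ ∑ _j ∈ univ \ J, Fintype.card A := by
            refine sum_le_sum fun j hj' => hj j ?_
            rw [mem_sdiff] at hj'
            exact hj'.2
        _ = (univ \ J).card * Fintype.card A := by rw [sum_const, smul_eq_mul]
        _ ≤ _ := by
            refine Nat.mul_le_mul_right _ ((card_le_univ _).trans ?_)
            rw [Fintype.card_fin]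
  rw [Fintype.card_prod, Fintype.card_fin] at hc1
  have e3 : K * (4 * num (fun p : Fin t × A => ∀ u, acc u p.1 p.2)) ≤
      K * (3 * (t * Fintype.card A)) := by
    calc K * (4 * num (fun p : Fin t × A => ∀ u, acc u p.1 p.2)) =
          4 * (K * num (fun p : Fin t × A => ∀ u, acc u p.1 p.2)) := by ring
      _ ≤ 4 * (K * ∑ j : Fin t, num (acc u j)) := by gcongr
      _ ≤ 4 * (K * (r * Fintype.card A) + t * Fintype.card A) := Nat.mul_le_mul_left _ e2
      _ = K * (2 * ((2 * r) * Fintype.card A)) + 4 * (t * Fintype.card A) := by ring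
      _ ≤ K * (2 * (t * Fintype.card A)) + K * (t * Fintype.card A) := by gcongr
      _ = _ := by ring
  have e4 := Nat.le_of_mul_le_mul_left e3 (by omega)
  omega

end Pool.Agent.J6H27.MPH
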