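import Pool.Agent.J6H27.MPH.Game2

/-!
# Merlin-Arthur games: one block
-/

set_option autoImplicit false

namespace Pool.Agent.J6H27.MPH

open Finset Pool.Agent.H520R2 Pool.Agent.H520R2.NM

/-- a maximal subfamily of disjoint sets -/
theorem exists_disj {W : Type} [DecidableEq W] (A : Finset (Finset W)) :
    ∃ P ⊆ A, (∀ S ∈ P, ∀ T ∈ P, S ≠ T → S ∩ T ⊆ ∅) ∧
      ∀ S ∈ A, S.Nonempty → ∃ x ∈ S, x ∈ P.biUnion id := by
  classical
  obtain ⟨P, hP, hmax⟩ := exists_max_image
    (A.powerset.filter fun P => ∀ S ∈ P, ∀ T ∈ P, S ≠ T → S ∩ T ⊆ ∅) card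
    ⟨∅, by simp⟩
  rw [mem_filter, mem_powerset] at hP
  refine ⟨P, hP.1, hP.2, fun S hS hne => ?_⟩
  by_contra hcon
  push Not at hcon
  have hdis : ∀ T ∈ P, S ∩ T ⊆ ∅ := by
    intro T hT x hx
    rw [mem_inter] at hx
    exact absurd (mem_biUnion.2 ⟨T, hT, hx.2⟩) (hcon x hx.1)
  have hSP : S ∉ P := by
    intro hSP
    obtain ⟨x, hx⟩ := hne
    exact hcon x hx (mem_biUnion.2 ⟨S, hSP, hx⟩)
  have h1 := hmax (insert S P) (by
    rw [mem_filter, mem_powerset]
    refine ⟨insert_subset hS hP.1, ?_⟩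
    intro T hT T' hT' hne'
    rw [mem_insert] at hT hT'
    rcases hT with rfl | hT <;> rcases hT' with rfl | hT'
    · exact absurd rfl hne'
    · exact hdis T' hT'
    · rw [inter_comm]
      exact hdis T hT
    · exact hP.2 T hT T' hT' hne')
  rw [card_insert_of_notMem hSP] at h1
  omega

section base

variable {n κ q : ℕ} (emb : Fin (κ + 1) × Fin q → Fin n)

/-- a circuit which accepts a noticeable part of the positive tests accepts almost all negative
tests -/
theorem base_two (hemb : Function.Injective emb) {l p s K0 K1 r : ℕ} (hq : 1 ≤ q) (hκ : 1 ≤ κ)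
    (hl2 : 2 ≤ l) (hl : l * (l - 1) ≤ κ) (hp : 2 ≤ p)
    (h1 : 2 * K0 * (s * (p ^ l * l.factorial) ^ 2) ≤ q ^ (l + 1))
    (h2 : 2 * K1 * (s * (p ^ l * l.factorial) ^ 2) ≤ 2 ^ p)
    (h3 : 2 * K0 * (r * l) ≤ q) (h4 : 2 * K1 ≤ 2 ^ r)
    {C : (Sym2 (Fin n) → Bool) → Bool} (hC : MComp (VB _) s C) :
    K0 * num (fun π : Fin (κ + 1) → Fin q => C (edg (posG emb π)) = true) ≤ q ^ (κ + 1) ∨
      K1 * num (fun c : Fin n → Fin κ => ¬ C (edg (negG c)) = true) ≤ κ ^ n := by
  classical
  have hf : MComp (GB (Fin n)) s (C ∘ edg) := MComp.comp edg gb_of_vb hC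
  obtain ⟨L, hL, hs, hfL⟩ := hf
  obtain ⟨EP, EN, hEN, hEP, hall⟩ := appr_prog (κ := κ) emb hemb hq hκ hl2 hl hp L hL
  obtain ⟨A, hA1, _, hA3, hA4⟩ := hall _ hfL
  rw [Fintype.card_fin] at hEN
  have hEP2 : 2 * (K0 * EP.card) ≤ q ^ (κ + 1) := by
    have h5 : 2 * (K0 * EP.card) * q ^ (l + 1) ≤ q ^ (κ + 1) * q ^ (l + 1) := by
      calc 2 * (K0 * EP.card) * q ^ (l + 1) = 2 * K0 * (EP.card * q ^ (l + 1)) := by ring
        _ ≤ 2 * K0 * (L.length * ((p ^ l * l.factorial) ^ 2 * q ^ (κ + 1))) :=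
            Nat.mul_le_mul_left _ hEP
        _ ≤ 2 * K0 * (s * ((p ^ l * l.factorial) ^ 2 * q ^ (κ + 1))) := by gcongr
        _ = (2 * K0 * (s * (p ^ l * l.factorial) ^ 2)) * q ^ (κ + 1) := by ring
        _ ≤ q ^ (l + 1) * q ^ (κ + 1) := Nat.mul_le_mul_right _ h1
        _ = _ := by ring
    exact Nat.le_of_mul_le_mul_right h5 (by positivity)
  have hEN2 : 2 * (K1 * EN.card) ≤ κ ^ n := by
    have h5 : 2 * (K1 * EN.card) * 2 ^ p ≤ κ ^ n * 2 ^ p := by
      calc 2 * (K1 * EN.card) * 2 ^ p = 2 * K1 * (EN.card * 2 ^ p) := by ring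
        _ ≤ 2 * K1 * (L.length * ((p ^ l * l.factorial) ^ 2 * κ ^ n)) :=
            Nat.mul_le_mul_left _ hEN
        _ ≤ 2 * K1 * (s * ((p ^ l * l.factorial) ^ 2 * κ ^ n)) := by gcongr
        _ = (2 * K1 * (s * (p ^ l * l.factorial) ^ 2)) * κ ^ n := by ring
        _ ≤ 2 ^ p * κ ^ n := Nat.mul_le_mul_right _ h2
        _ = _ := by ring
    exact Nat.le_of_mul_le_mul_right h5 (by positivity)
  by_cases hempty : ∅ ∈ A
  · right
    have h5 : num (fun c : Fin n → Fin κ => ¬ C (edg (negG c)) = true) ≤ EN.card := by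
      refine num_le_finset _ fun c hc => ?_
      by_contra hcE
      exact hc (hA4 c hcE ⟨∅, hempty, by simp⟩)
    have h6 : K1 * num (fun c : Fin n → Fin κ => ¬ C (edg (negG c)) = true) ≤ K1 * EN.card :=
      Nat.mul_le_mul_left _ h5
    omega
  obtain ⟨P, hPA, hPd, hPm⟩ := exists_disj A
  by_cases hr : r ≤ P.card
  · right
    have hbad := bad_card hκ hl (∅ : Finset (Fin n)) P (fun S hS => hA1 S (hPA hS)) hPd
    rw [Fintype.card_fin] at hbad
    have hsub : num (fun c : Fin n → Fin κ => ¬ C (edg (negG c)) = true) ≤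
        (EN ∪ bad κ ∅ P).card := by
      refine num_le_finset _ fun c hc => ?_
      rw [mem_union]
      by_cases hcE : c ∈ EN
      · exact Or.inl hcE
      · right
        simp only [bad, mem_filter, mem_univ, true_and, coe_empty]
        refine ⟨Set.injOn_empty c, fun S hS hinj => ?_⟩
        exact hc (hA4 c hcE ⟨S, hPA hS, hinj⟩)
    have h5 := hsub.trans (card_union_le _ _)
    have h6 : 2 * (K1 * (bad κ ∅ P).card) ≤ κ ^ n := by
      calc 2 * (K1 * (bad κ ∅ P).card) = (bad κ ∅ P).card * (2 * K1) := by ring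
        _ ≤ (bad κ ∅ P).card * 2 ^ P.card :=
            Nat.mul_le_mul_left _ (h4.trans (Nat.pow_le_pow_right (by norm_num) hr))
        _ ≤ _ := hbad
    have h7 : K1 * num (fun c : Fin n → Fin κ => ¬ C (edg (negG c)) = true) ≤
        K1 * EN.card + K1 * (bad κ ∅ P).card := by
      rw [← mul_add]
      exact Nat.mul_le_mul_left _ h5
    omega
  · left
    rw [not_le] at hr
    have hsub : num (fun π : Fin (κ + 1) → Fin q => C (edg (posG emb π)) = true) ≤
        (EP ∪ (P.biUnion id).biUnion fun x => hit emb {x}).card := by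
      refine num_le_finset _ fun π hπ => ?_
      rw [mem_union]
      by_cases hπE : π ∈ EP
      · exact Or.inl hπE
      · right
        obtain ⟨S, hS, hS2⟩ := hA3 π hπE hπ
        obtain ⟨x, hxS, hx⟩ := hPm S hS (by
          rw [nonempty_iff_ne_empty]
          rintro rfl
          exact hempty hS)
        rw [mem_biUnion]
        refine ⟨x, hx, ?_⟩
        simp only [hit, mem_filter, mem_univ, true_and, mem_singleton, forall_eq]
        exact hS2 x hxS
    have h5 := hsub.trans (card_union_le _ _)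
    have hV : (P.biUnion id).card ≤ r * l := by
      calc (P.biUnion id).card ≤ ∑ S ∈ P, (id S).card := card_biUnion_le
        _ ≤ ∑ _S ∈ P, l := sum_le_sum fun S hS => hA1 S (hPA hS)
        _ = P.card * l := by rw [sum_const, smul_eq_mul]
        _ ≤ r * l := Nat.mul_le_mul_right _ hr.le
    have h6 : ((P.biUnion id).biUnion fun x => hit emb {x}).card * q ≤ r * l * q ^ (κ + 1) := by
      calc ((P.biUnion id).biUnion fun x => hit emb {x}).card * q ≤
          (∑ x ∈ P.biUnion id, (hit emb {x}).card) * q :=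
            Nat.mul_le_mul_right _ card_biUnion_le
        _ = ∑ x ∈ P.biUnion id, (hit emb {x}).card * q := by rw [sum_mul]
        _ ≤ ∑ _x ∈ P.biUnion id, q ^ (κ + 1) := by
            refine sum_le_sum fun x _ => ?_
            have := hit_card emb hemb {x}
            rw [card_singleton, pow_one] at this
            exact this
        _ = (P.biUnion id).card * q ^ (κ + 1) := by rw [sum_const, smul_eq_mul]
        _ ≤ _ := Nat.mul_le_mul_right _ hV
    have h7 : 2 * (K0 * ((P.biUnion id).biUnion fun x => hit emb {x}).card) ≤ q ^ (κ + 1) := by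
      have h8 : 2 * (K0 * ((P.biUnion id).biUnion fun x => hit emb {x}).card) * q ≤
          q ^ (κ + 1) * q := by
        calc 2 * (K0 * ((P.biUnion id).biUnion fun x => hit emb {x}).card) * q =
            2 * K0 * (((P.biUnion id).biUnion fun x => hit emb {x}).card * q) := by ring
          _ ≤ 2 * K0 * (r * l * q ^ (κ + 1)) := Nat.mul_le_mul_left _ h6
          _ = (2 * K0 * (r * l)) * q ^ (κ + 1) := by ring
          _ ≤ q * q ^ (κ + 1) := Nat.mul_le_mul_right _ h3
          _ = _ := mul_comm _ _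
      exact Nat.le_of_mul_le_mul_right h8 (by omega)
    have h8 : K0 * num (fun π : Fin (κ + 1) → Fin q => C (edg (posG emb π)) = true) ≤
        K0 * EP.card + K0 * ((P.biUnion id).biUnion fun x => hit emb {x}).card := by
      rw [← mul_add]
      exact Nat.mul_le_mul_left _ h5
    omega

end base

/-- a circuit accepts only a small part of the positive tests, or almost all negative tests -/
def Two {A B ι : Type} [Fintype A] [Fintype B] (s : ℕ) (pos : A → ι → Bool)
    (neg : B → ι → Bool) (K0 K1 : ℕ) : Prop :=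
  ∀ C : (ι → Bool) → Bool, MComp (VB ι) s C →
    K0 * num (fun a => C (pos a) = true) ≤ Fintype.card A ∨
      K1 * num (fun b => ¬ C (neg b) = true) ≤ Fintype.card B

theorem pow_chord {g b y : ℝ} (hg : 0 ≤ g) (hb : 0 < b) (hy0 : 0 ≤ y) (hyb : y ≤ b) (p : ℕ) :
    (g + y) ^ p ≤ g ^ p + y / b * (g + b) ^ p := by
  have hs : y / b ≤ 1 := (div_le_one hb).2 hyb
  have hs0 : 0 ≤ y / b := by positivity
  have h0 : ConvexOn ℝ (Set.Ici (0 : ℝ)) fun x : ℝ => x ^ p := convexOn_pow p
  have h1 := h0.2 (show g ∈ Set.Ici (0 : ℝ) from hg)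
    (show g + b ∈ Set.Ici (0 : ℝ) from by
      show 0 ≤ g + b
      linarith)
    (show 0 ≤ 1 - y / b by linarith) hs0 (by ring)
  have h2 : (1 - y / b) • g + (y / b) • (g + b) = g + y := by
    simp only [smul_eq_mul]
    field_simp
    ring
  rw [h2] at h1
  simp only [smul_eq_mul] at h1
  refine h1.trans ?_
  have h3 : 0 ≤ y / b := by positivity
  have h4 : 0 ≤ g ^ p := by positivity
  nlinarith

/-- **One block.** -/
theorem one_block {A B ι : Type} [Fintype A] [Fintype B] [Nonempty A] [Nonempty B] {g s : ℕ}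
    {pos : A → ι → Bool} {neg : B → ι → Bool} {K0 K1 : ℕ} (h : Two s pos neg K0 K1)
    (hK0 : 0 < K0) (hK1 : 2 ≤ K1) {w : (ι → Bool) → ℝ} (hw : Game g s 0 w) (p : ℕ) :
    avg (fun a => w (pos a) ^ p) ≤ 1 / (K0 : ℝ) * w (fun _ => true) ^ p +
      ((1 - 1 / (K1 : ℝ)) ^ p)⁻¹ * avg (fun b => w (neg b) ^ p) := by
  classical
  obtain ⟨Ω, iΩ, P, C, h0, h1, hC, hv⟩ := hw
  have hK0' : (0 : ℝ) < K0 := by exact_mod_cast hK0
  have hK1' : (2 : ℝ) ≤ K1 := by exact_mod_cast hK1
  have hA0 := card_pos' (X := A)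
  have hB0 := card_pos' (X := B)
  let bad : Finset Ω := univ.filter fun ω => K0 * num (fun a => C ω (pos a) = true) ≤
    Fintype.card A
  obtain ⟨G, hG⟩ : ∃ G, G = ∑ ω ∈ univ \ bad, P ω := ⟨_, rfl⟩
  obtain ⟨b, hb⟩ : ∃ b, b = ∑ ω ∈ bad, P ω * (if C ω (fun _ => true) = true then 1 else 0) :=
    ⟨_, rfl⟩
  let F : A → ℝ := fun a => ∑ ω ∈ bad, P ω * (if C ω (pos a) = true then 1 else 0)
  have hG0 : 0 ≤ G := by rw [hG]; exact sum_nonneg fun ω _ => h0 ω
  have hb0 : 0 ≤ b := by
    rw [hb]
    refine sum_nonneg fun ω _ => mul_nonneg (h0 ω) ?_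
    split_ifs <;> norm_num
  have hF0 : ∀ a, 0 ≤ F a := by
    intro a
    refine sum_nonneg fun ω _ => mul_nonneg (h0 ω) ?_
    split_ifs <;> norm_num
  have hmono : ∀ ω z z', z ≤ z' → C ω z = true → C ω z' = true := by
    intro ω z z' hz hCz
    obtain ⟨L, hL, _, hC'⟩ := hC ω
    have := mono_of_av hL _ hC' z z' hz
    rw [hCz] at this
    exact top_le_iff.1 this
  have hle1 : ∀ z : ι → Bool, z ≤ fun _ => true := fun z i => Bool.le_true _
  have hFb : ∀ a, F a ≤ b := by
    intro a
    rw [hb]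
    refine sum_le_sum fun ω _ => mul_le_mul_of_nonneg_left ?_ (h0 ω)
    by_cases hc : C ω (pos a) = true
    · rw [if_pos hc, if_pos (hmono ω _ _ (hle1 _) hc)]
    · rw [if_neg hc]
      split_ifs <;> norm_num
  have hsplit : ∀ z, w z = ∑ ω ∈ univ \ bad, P ω * (if C ω z = true then 1 else 0) +
      ∑ ω ∈ bad, P ω * (if C ω z = true then 1 else 0) := by
    intro z
    rw [hv]
    exact (sum_sdiff (subset_univ bad)).symm
  have hgood : ∀ ω ∈ univ \ bad, K1 * num (fun b => ¬ C ω (neg b) = true) ≤ Fintype.card B := by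
    intro ω hω
    rw [mem_sdiff, mem_filter, not_and] at hω
    rcases h _ (hC ω) with h2 | h2
    · exact absurd h2 (hω.2 (mem_univ _))
    · exact h2
  have hone : G + b ≤ w (fun _ => true) := by
    rw [hsplit, hb]
    refine add_le_add_left ?_ _
    rw [hG]
    refine sum_le_sum fun ω hω => ?_
    have h2 := hgood ω hω
    have h3 : C ω (fun _ => true) = true := by
      by_contra hcon
      have h4 : num (fun b => ¬ C ω (neg b) = true) = Fintype.card B := by
        have h5 := num_not (fun b => C ω (neg b) = true)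
        have h6 : num (fun b => C ω (neg b) = true) = 0 := by
          refine Nat.le_zero.1 ((num_le_finset (∅ : Finset B) fun b hb => ?_).trans (by simp))
          exact absurd (hmono ω _ _ (hle1 _) hb) hcon
        omega
      rw [h4] at h2
      have h5 : 0 < Fintype.card B := Fintype.card_pos
      nlinarith
    rw [if_pos h3, mul_one]
  have hpos : ∀ a, w (pos a) ≤ G + F a := by
    intro a
    rw [hsplit]
    refine add_le_add_left ?_ _
    rw [hG]
    refine sum_le_sum fun ω _ => ?_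
    have := h0 ω
    split_ifs <;> linarith
  have hw0 : ∀ z, 0 ≤ w z := by
    intro z
    rw [hv]
    refine sum_nonneg fun ω _ => mul_nonneg (h0 ω) ?_
    split_ifs <;> norm_num
  -- the average of `F`
  have hF1 : avg F ≤ 1 / (K0 : ℝ) * b := by
    have h2 : avg F = ∑ ω ∈ bad, P ω * avg (fun a => if C ω (pos a) = true then (1 : ℝ) else 0) := by
      unfold avg
      simp only [F]
      rw [sum_comm, sum_div]
      refine sum_congr rfl fun ω _ => ?_
      rw [← mul_sum, mul_div_assoc]
    rw [h2, hb, mul_sum]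
    refine sum_le_sum fun ω hω => ?_
    have h3 := (mem_filter.1 hω).2
    rw [avg_ind]
    have h4 : ((K0 * num (fun a => C ω (pos a) = true) : ℕ) : ℝ) ≤ Fintype.card A := by
      exact_mod_cast h3
    push_cast at h4
    have h5 : (num (fun a => C ω (pos a) = true) : ℝ) / Fintype.card A ≤
        1 / K0 * (if C ω (fun _ => true) = true then 1 else 0) := by
      by_cases hc : C ω (fun _ => true) = true
      · rw [if_pos hc, mul_one, div_le_div_iff₀ hA0 hK0']
        linarith
      · have h6 : num (fun a => C ω (pos a) = true) = 0 := by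
          refine Nat.le_zero.1 ((num_le_finset (∅ : Finset A) fun a ha => ?_).trans (by simp))
          exact absurd (hmono ω _ _ (hle1 _) ha) hc
        rw [h6, if_neg hc]
        simp
    calc P ω * ((num (fun a => C ω (pos a) = true) : ℝ) / Fintype.card A) ≤
          P ω * (1 / K0 * (if C ω (fun _ => true) = true then 1 else 0)) :=
            mul_le_mul_of_nonneg_left h5 (h0 ω)
      _ = _ := by ring
  -- the average over the negative tests
  have hneg : (1 - 1 / (K1 : ℝ)) * G ≤ avg (fun b => w (neg b)) := by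
    have h2 : ∀ b, ∑ ω ∈ univ \ bad, P ω * (if C ω (neg b) = true then 1 else 0) ≤
        w (neg b) := by
      intro b
      rw [hsplit]
      have : 0 ≤ ∑ ω ∈ bad, P ω * (if C ω (neg b) = true then (1 : ℝ) else 0) := by
        refine sum_nonneg fun ω _ => mul_nonneg (h0 ω) ?_
        split_ifs <;> norm_num
      linarith
    refine le_trans ?_ (avg_mono h2)
    have h3 : avg (fun b => ∑ ω ∈ univ \ bad, P ω * (if C ω (neg b) = true then (1 : ℝ) else 0)) =
        ∑ ω ∈ univ \ bad, P ω * avg (fun b => if C ω (neg b) = true then (1 : ℝ) else 0) := by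
      unfold avg
      rw [sum_comm, sum_div]
      refine sum_congr rfl fun ω _ => ?_
      rw [← mul_sum, mul_div_assoc]
    rw [h3, hG, mul_sum]
    refine sum_le_sum fun ω hω => ?_
    rw [mul_comm]
    refine mul_le_mul_of_nonneg_left ?_ (h0 ω)
    rw [avg_ind]
    have h4 := num_not (fun b => C ω (neg b) = true)
    have h5 : ((K1 * num (fun b => ¬ C ω (neg b) = true) : ℕ) : ℝ) ≤
        ((Fintype.card B : ℕ) : ℝ) := by exact_mod_cast hgood ω hω
    have h6 : ((num (fun b => C ω (neg b) = true) : ℕ) : ℝ) =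
        (Fintype.card B : ℝ) - num (fun b => ¬ C ω (neg b) = true) := by
      rw [← h4]
      push_cast
      ring
    rw [h6, le_div_iff₀ hB0, sub_mul, one_mul]
    refine sub_le_sub_left ?_ _
    rw [div_mul_eq_mul_div, one_mul, le_div_iff₀ (by linarith)]
    push_cast at h5
    linarith
  have hc0 : 0 < 1 - 1 / (K1 : ℝ) := by
    have : 1 / (K1 : ℝ) ≤ 1 / 2 := one_div_le_one_div_of_le (by norm_num) hK1'
    linarith
  have hjen : (avg (fun b => w (neg b))) ^ p ≤ avg (fun b => w (neg b) ^ p) := by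
    have h2 := Real.pow_arith_mean_le_arith_mean_pow (univ : Finset B)
      (fun _ => 1 / (Fintype.card B : ℝ)) (fun b => w (neg b)) (fun _ _ => by positivity) (by
        rw [sum_const, card_univ, nsmul_eq_mul]
        field_simp) (fun b _ => hw0 _) p
    have h3 : ∀ f : B → ℝ, avg f = ∑ b, 1 / (Fintype.card B : ℝ) * f b := by
      intro f
      unfold avg
      rw [← mul_sum]
      ring
    rw [h3, h3]
    exact h2
  have hGp : G ^ p ≤ ((1 - 1 / (K1 : ℝ)) ^ p)⁻¹ * avg (fun b => w (neg b) ^ p) := by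
    rw [← div_eq_inv_mul, le_div_iff₀ (by positivity)]
    calc G ^ p * (1 - 1 / (K1 : ℝ)) ^ p = ((1 - 1 / (K1 : ℝ)) * G) ^ p := by rw [mul_pow]; ring
      _ ≤ (avg (fun b => w (neg b))) ^ p :=
          pow_le_pow_left₀ (mul_nonneg hc0.le hG0) hneg p
      _ ≤ _ := hjen
  have hmain : avg (fun a => w (pos a) ^ p) ≤ G ^ p + 1 / (K0 : ℝ) * (G + b) ^ p := by
    rcases hb0.eq_or_lt with hb1 | hb1
    · have h2 : ∀ a, w (pos a) ^ p ≤ G ^ p := by
        intro a
        refine pow_le_pow_left₀ (hw0 _) ?_ p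
        have h3 := hpos a
        have h4 := hFb a
        linarith
      have h3 := avg_le h2
      have h4 : 0 ≤ 1 / (K0 : ℝ) * (G + b) ^ p := by positivity
      linarith
    · have h2 : ∀ a, w (pos a) ^ p ≤ G ^ p + F a / b * (G + b) ^ p := fun a =>
        (pow_le_pow_left₀ (hw0 _) (hpos a) p).trans (pow_chord hG0 hb1 (hF0 a) (hFb a) p)
      refine (avg_mono h2).trans ?_
      have h3 : avg (fun a => G ^ p + F a / b * (G + b) ^ p) =
          G ^ p + avg F / b * (G + b) ^ p := by
        unfold avg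
        rw [sum_add_distrib, sum_const, card_univ, nsmul_eq_mul, ← sum_mul, ← sum_div, add_div]
        congr 1
        · field_simp
        · ring
      rw [h3]
      refine add_le_add_right (mul_le_mul_of_nonneg_right ?_ (by positivity)) _
      rw [div_le_iff₀ hb1]
      exact hF1
  have hlast : 1 / (K0 : ℝ) * (G + b) ^ p ≤ 1 / (K0 : ℝ) * w (fun _ => true) ^ p :=
    mul_le_mul_of_nonneg_left (pow_le_pow_left₀ (by linarith) hone p) (by positivity)
  linarith

end Pool.Agent.J6H27.MPH
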