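import Pool.Agent.J6H27.MPH.Ma

/-!
# Merlin-Arthur games: the moments
-/

set_option autoImplicit false

namespace Pool.Agent.J6H27.MPH

open Finset Pool.Agent.H520R2 Pool.Agent.H520R2.NM

theorem avg_equiv {X Z : Type} [Fintype X] [Fintype Z] [Nonempty Z]
    (e : X × Z ≃ X × Z) (f : X → ℝ) : avg f = avg fun x => avg fun z => f (e (x, z)).1 := by
  have hZ := card_pos' (X := Z)
  unfold avg
  rw [← sum_div]
  congr 1
  rw [eq_div_iff hZ.ne']
  have h1 : ∑ x, ∑ z, f (e (x, z)).1 = ∑ p : X × Z, f (e p).1 := by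
    rw [Fintype.sum_prod_type]
  have h2 : ∑ p : X × Z, f (e p).1 = ∑ p : X × Z, f p.1 := e.sum_comp fun p => f p.1
  rw [h1, h2, Fintype.sum_prod_type]
  simp only [sum_const, card_univ, nsmul_eq_mul]
  rw [← mul_sum, mul_comm]

theorem avg_lin {X : Type} [Fintype X] (c d : ℝ) (f f' : X → ℝ) :
    avg (fun x => c * f x + d * f' x) = c * avg f + d * avg f' := by
  unfold avg
  rw [sum_add_distrib, ← mul_sum, ← mul_sum]
  ring

section

variable {A B ι : Type} {t : ℕ}

/-- an involution -/
def swapA (j : Fin t) : ((Fin t → A) × (Fin t → B)) × A ≃ ((Fin t → A) × (Fin t → B)) × A where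
  toFun p := ((Function.update p.1.1 j p.2, p.1.2), p.1.1 j)
  invFun p := ((Function.update p.1.1 j p.2, p.1.2), p.1.1 j)
  left_inv := by rintro ⟨⟨a, b⟩, x⟩; simp
  right_inv := by rintro ⟨⟨a, b⟩, x⟩; simp

/-- an involution -/
def swapB (j : Fin t) : ((Fin t → A) × (Fin t → B)) × B ≃ ((Fin t → A) × (Fin t → B)) × B where
  toFun p := ((p.1.1, Function.update p.1.2 j p.2), p.1.2 j)
  invFun p := ((p.1.1, Function.update p.1.2 j p.2), p.1.2 j)
  left_inv := by rintro ⟨⟨a, b⟩, x⟩; simp
  right_inv := by rintro ⟨⟨a, b⟩, x⟩; simp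

/-- The block `j` is a positive test if `T j = none`, constant if `T j = some true`, and a negative
test if `T j = some false`. -/
def hyb (pos : A → ι → Bool) (neg : B → ι → Bool) (T : Fin t → Option Bool) (a : Fin t → A)
    (b : Fin t → B) (v : Fin t × ι) : Bool :=
  match T v.1 with
  | none => pos (a v.1) v.2
  | some true => true
  | some false => neg (b v.1) v.2

/-- a block is replaced -/
def ins (x : Fin t × ι → Bool) (j : Fin t) (z : ι → Bool) (v : Fin t × ι) : Bool :=
  if v.1 = j then z v.2 else x v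

theorem ins_eq_sub (x : Fin t × ι → Bool) (j : Fin t) (z : ι → Bool) :
    ins x j z = sub (fun v : Fin t × ι => if v.1 = j then Sum.inr v.2 else Sum.inl (x v)) z := by
  funext v
  by_cases h : v.1 = j
  · simp [ins, sub, h]
  · simp [ins, sub, h]

theorem hyb_update {pos : A → ι → Bool} {neg : B → ι → Bool} (T T' : Fin t → Option Bool)
    (a a' : Fin t → A) (b b' : Fin t → B) (j : Fin t) (z : ι → Bool)
    (hT : ∀ i, i ≠ j → T' i = T i) (ha : ∀ i, i ≠ j → a' i = a i) (hb : ∀ i, i ≠ j → b' i = b i)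
    (hz : ∀ v, hyb pos neg T' a' b' (j, v) = z v) :
    hyb pos neg T' a' b' = ins (hyb pos neg T a b) j z := by
  funext ⟨i, v⟩
  by_cases hij : i = j
  · rw [hij, hz]
    simp [ins]
  · simp only [ins, if_neg hij]
    unfold hyb
    simp only [hT i hij, ha i hij, hb i hij]

variable [Fintype A] [Fintype B] [Nonempty A] [Nonempty B] {g s : ℕ}
  {pos : A → ι → Bool} {neg : B → ι → Bool}

/-- the moments -/
noncomputable def mom (pos : A → ι → Bool) (neg : B → ι → Bool) (D : (Fin t × ι → Bool) → ℝ)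
    (p : ℕ) (T : Fin t → Option Bool) : ℝ :=
  avg fun x : (Fin t → A) × (Fin t → B) => D (hyb pos neg T x.1 x.2) ^ p

theorem mom_step {K0 K1 : ℕ} (h : Two s pos neg K0 K1) (hK0 : 0 < K0) (hK1 : 2 ≤ K1)
    {D : (Fin t × ι → Bool) → ℝ} (hD : Game g s 0 D) (p : ℕ) (T : Fin t → Option Bool)
    (j : Fin t) (hj : T j = none) :
    mom pos neg D p T ≤ 1 / (K0 : ℝ) * mom pos neg D p (Function.update T j (some true)) +
      ((1 - 1 / (K1 : ℝ)) ^ p)⁻¹ * mom pos neg D p (Function.update T j (some false)) := by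
  unfold mom
  rw [avg_equiv (swapA j) (fun x : (Fin t → A) × (Fin t → B) => D (hyb pos neg T x.1 x.2) ^ p),
    avg_equiv (swapB j) (fun x : (Fin t → A) × (Fin t → B) =>
      D (hyb pos neg (Function.update T j (some false)) x.1 x.2) ^ p), ← avg_lin]
  refine avg_mono fun x => ?_
  have hw : Game g s 0 (fun z => D (ins (hyb pos neg T x.1 x.2) j z)) := by
    have := hD.subst (fun v : Fin t × ι => if v.1 = j then Sum.inr v.2 else
      Sum.inl (hyb pos neg T x.1 x.2 v))
    have h2 : (fun z => D (ins (hyb pos neg T x.1 x.2) j z)) = fun z => D (sub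
        (fun v : Fin t × ι => if v.1 = j then Sum.inr v.2 else
          Sum.inl (hyb pos neg T x.1 x.2 v)) z) := by
      funext z
      rw [ins_eq_sub]
    rw [h2]
    exact this
  have h1 := one_block h hK0 hK1 hw p
  have e1 : ∀ a : A, hyb pos neg T (swapA j (x, a)).1.1 (swapA j (x, a)).1.2 =
      ins (hyb pos neg T x.1 x.2) j (pos a) := by
    intro a
    refine hyb_update _ _ _ _ _ _ j _ (fun i _ => rfl) (fun i hi => ?_) (fun i _ => rfl) ?_
    · exact Function.update_of_ne hi _ _
    · intro v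
      simp [hyb, hj, swapA]
  have e2 : hyb pos neg (Function.update T j (some true)) x.1 x.2 =
      ins (hyb pos neg T x.1 x.2) j (fun _ => true) := by
    refine hyb_update _ _ _ _ _ _ j _ (fun i hi => ?_) (fun i _ => rfl) (fun i _ => rfl) ?_
    · exact Function.update_of_ne hi _ _
    · intro v
      simp [hyb]
  have e3 : ∀ b : B, hyb pos neg (Function.update T j (some false)) (swapB j (x, b)).1.1
      (swapB j (x, b)).1.2 = ins (hyb pos neg T x.1 x.2) j (neg b) := by
    intro b
    refine hyb_update _ _ _ _ _ _ j _ (fun i hi => ?_) (fun i _ => rfl) (fun i hi => ?_) ?_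
    · exact Function.update_of_ne hi _ _
    · exact Function.update_of_ne hi _ _
    · intro v
      simp [hyb, swapB]
  simp only [e1, e2, e3]
  exact h1

/-- the blocks which are constant -/
def ones (T : Fin t → Option Bool) : Finset (Fin t) := univ.filter fun j => T j = some true

/-- the blocks which are positive tests -/
def nones (T : Fin t → Option Bool) : Finset (Fin t) := univ.filter fun j => T j = none

theorem ones_true (T : Fin t → Option Bool) (j : Fin t) (hj : T j = none) :
    (ones (Function.update T j (some true))).card = (ones T).card + 1 := by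
  have h1 : ones (Function.update T j (some true)) = insert j (ones T) := by
    ext i
    simp only [ones, mem_filter, mem_univ, true_and, mem_insert]
    by_cases hij : i = j
    · simp [hij]
    · simp [hij]
  rw [h1, card_insert_of_notMem (by simp [ones, hj])]

theorem ones_false (T : Fin t → Option Bool) (j : Fin t) (hj : T j = none) :
    ones (Function.update T j (some false)) = ones T := by
  ext i
  simp only [ones, mem_filter, mem_univ, true_and]
  by_cases hij : i = j
  · simp [hij, hj]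
  · simp [hij]

theorem nones_update (T : Fin t → Option Bool) (j : Fin t) (hj : T j = none) (c : Bool) :
    (nones (Function.update T j (some c))).card + 1 = (nones T).card := by
  have h1 : nones T = insert j (nones (Function.update T j (some c))) := by
    ext i
    simp only [nones, mem_filter, mem_univ, true_and, mem_insert]
    by_cases hij : i = j
    · simp [hij, hj]
    · simp [hij]
  rw [h1, card_insert_of_notMem (by simp [nones])]

/-- **The moments.** -/
theorem mom_bound {K K1 M : ℕ} (h : Two s pos neg (K ^ 2) K1) (hK : 1 ≤ K) (hK1 : 2 ≤ K1)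
    {D : (Fin t × ι → Bool) → ℝ} (hD : Game g s 0 D) (p : ℕ) {α lam : ℝ}
    (hlam : ((1 - 1 / (K1 : ℝ)) ^ p)⁻¹ = lam)
    (hno : ∀ (T : Fin t → Option Bool) (a : Fin t → A) (b : Fin t → B), nones T = ∅ →
      (ones T).card ≤ M → D (hyb pos neg T a b) ≤ α) (r : ℕ) :
    ∀ T : Fin t → Option Bool, (nones T).card = r →
      mom pos neg D p T ≤ (lam + 1 / (K : ℝ) ^ 2) ^ r * α ^ p +
        (K : ℝ) ^ (ones T).card * (1 / (K : ℝ)) ^ (M + 1) * (lam + 1 / K) ^ r := by
  have hK0 : (1 : ℝ) ≤ K := by exact_mod_cast hK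
  have hK0' : (0 : ℝ) < K := by linarith
  have hα : 0 ≤ α := by
    obtain ⟨a⟩ := (inferInstance : Nonempty (Fin t → A))
    obtain ⟨b⟩ := (inferInstance : Nonempty (Fin t → B))
    refine le_trans ((hD.range _).1) (hno (fun _ => some false) a b ?_ ?_)
    · simp [nones]
    · simp [ones]
  have hlam0 : 0 ≤ lam := by
    have hK1' : (2 : ℝ) ≤ K1 := by exact_mod_cast hK1
    have : 1 / (K1 : ℝ) ≤ 1 / 2 := one_div_le_one_div_of_le (by norm_num) hK1'
    rw [← hlam]
    exact inv_nonneg.2 (pow_nonneg (by linarith) _)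
  induction r with
  | zero =>
    intro T hT
    rw [card_eq_zero] at hT
    rw [pow_zero, pow_zero, one_mul, mul_one]
    by_cases hM : (ones T).card ≤ M
    · have h1 : mom pos neg D p T ≤ α ^ p := by
        unfold mom
        exact avg_le fun x => pow_le_pow_left₀ (hD.range _).1 (hno T _ _ hT hM) p
      have h2 : 0 ≤ (K : ℝ) ^ (ones T).card * (1 / (K : ℝ)) ^ (M + 1) := by positivity
      linarith
    · have h1 : mom pos neg D p T ≤ 1 := by
        unfold mom
        exact avg_le fun x => pow_le_one₀ (hD.range _).1 (hD.range _).2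
      have h2 : 1 ≤ (K : ℝ) ^ (ones T).card * (1 / (K : ℝ)) ^ (M + 1) := by
        rw [one_div_pow, mul_one_div, le_div_iff₀ (by positivity), one_mul]
        exact pow_le_pow_right₀ hK0 (by omega)
      have h3 : 0 ≤ α ^ p := by positivity
      linarith
  | succ r ih =>
    intro T hT
    obtain ⟨j, hj⟩ : (nones T).Nonempty := by
      rw [← card_pos]
      omega
    have hj' : T j = none := (mem_filter.1 hj).2
    have h1 := mom_step h (by positivity) hK1 hD p T j hj'
    have h2 := ih (Function.update T j (some true)) (by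
      have := nones_update T j hj' true
      omega)
    have h3 := ih (Function.update T j (some false)) (by
      have := nones_update T j hj' false
      omega)
    rw [ones_true T j hj'] at h2
    rw [ones_false T j hj'] at h3
    rw [hlam] at h1
    refine h1.trans ?_
    have h4 : (0 : ℝ) ≤ 1 / ((K ^ 2 : ℕ) : ℝ) := by positivity
    calc 1 / ((K ^ 2 : ℕ) : ℝ) * mom pos neg D p (Function.update T j (some true)) +
          lam * mom pos neg D p (Function.update T j (some false)) ≤
          1 / ((K ^ 2 : ℕ) : ℝ) * ((lam + 1 / (K : ℝ) ^ 2) ^ r * α ^ p +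
            (K : ℝ) ^ ((ones T).card + 1) * (1 / (K : ℝ)) ^ (M + 1) * (lam + 1 / K) ^ r) +
          lam * ((lam + 1 / (K : ℝ) ^ 2) ^ r * α ^ p +
            (K : ℝ) ^ (ones T).card * (1 / (K : ℝ)) ^ (M + 1) * (lam + 1 / K) ^ r) :=
          add_le_add (mul_le_mul_of_nonneg_left h2 h4) (mul_le_mul_of_nonneg_left h3 hlam0)
      _ = _ := by
          have e1 : 1 / (K : ℝ) ^ 2 * K = 1 / K := by field_simp
          push_cast
          rw [pow_succ (K : ℝ) (ones T).card, pow_succ (lam + 1 / (K : ℝ) ^ 2) r,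
            pow_succ (lam + 1 / (K : ℝ)) r]
          generalize (lam + 1 / (K : ℝ) ^ 2) ^ r = Q
          generalize (lam + 1 / (K : ℝ)) ^ r = S
          generalize (1 / (K : ℝ)) ^ (M + 1) = W
          generalize (K : ℝ) ^ (ones T).card = Z
          linear_combination (Z * W * S) * e1

/-- the bound for a strategy of Merlin -/
theorem ma_bound {K K1 M : ℕ} (h : Two s pos neg (K ^ 2) K1) (hK : 1 ≤ K) (hK1 : 2 ≤ K1)
    {U : Type} [Fintype U] {D : U → (Fin t × ι → Bool) → ℝ} (hD : ∀ u, Game g s 0 (D u)) (p : ℕ)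
    {α θ lam : ℝ} (hlam : ((1 - 1 / (K1 : ℝ)) ^ p)⁻¹ = lam) (hlam1 : lam ≤ 1 + 1 / K)
    (htK : t ≤ K) (hθ : 0 ≤ θ)
    (hno : ∀ u (T : Fin t → Option Bool) (a : Fin t → A) (b : Fin t → B), nones T = ∅ →
      (ones T).card ≤ M → D u (hyb pos neg T a b) ≤ α)
    (hyes : ∀ a : Fin t → A, ∃ u, θ ≤ D u (fun v => pos (a v.1) v.2)) :
    θ ^ p ≤ Fintype.card U * (8 * (α ^ p + (1 / (K : ℝ)) ^ (M + 1))) := by
  have hK0 : (1 : ℝ) ≤ K := by exact_mod_cast hK
  have hK0' : (0 : ℝ) < K := by linarith
  have hα : 0 ≤ α := by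
    obtain ⟨a⟩ := (inferInstance : Nonempty (Fin t → A))
    obtain ⟨b⟩ := (inferInstance : Nonempty (Fin t → B))
    obtain ⟨u, _⟩ := hyes a
    refine le_trans (((hD u).range _).1) (hno u (fun _ => some false) a b ?_ ?_)
    · simp [nones]
    · simp [ones]
  have hlam0 : 0 ≤ lam := by
    have hK1' : (2 : ℝ) ≤ K1 := by exact_mod_cast hK1
    have : 1 / (K1 : ℝ) ≤ 1 / 2 := one_div_le_one_div_of_le (by norm_num) hK1'
    rw [← hlam]
    exact inv_nonneg.2 (pow_nonneg (by linarith) _)
  have hpow : (lam + 1 / K) ^ t ≤ 8 := by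
    calc (lam + 1 / K) ^ t ≤ (1 + 2 / (K : ℝ)) ^ K := by
          have h1 : lam + 1 / (K : ℝ) ≤ 1 + 2 / K := by
            have : (2 : ℝ) / K = 1 / K + 1 / K := by ring
            linarith
          have h2 : (1 : ℝ) ≤ 1 + 2 / K := by
            have : 0 ≤ 2 / (K : ℝ) := by positivity
            linarith
          exact (pow_le_pow_left₀ (by positivity) h1 t).trans (pow_le_pow_right₀ h2 htK)
      _ ≤ (Real.exp (2 / K)) ^ K := by
          refine pow_le_pow_left₀ (by positivity) ?_ _
          have := Real.add_one_le_exp (2 / (K : ℝ))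
          linarith
      _ = Real.exp 2 := by
          rw [← Real.exp_nat_mul]
          congr 1
          field_simp
      _ ≤ 8 := by
          have h1 : Real.exp 2 = Real.exp 1 ^ 2 := by
            rw [← Real.exp_nat_mul]
            norm_num
          rw [h1]
          have h2 := Real.exp_one_lt_d9
          have h3 := Real.exp_pos 1
          nlinarith
  have hone : ∀ u, mom pos neg (D u) p (fun _ => none) ≤ 8 * (α ^ p + (1 / (K : ℝ)) ^ (M + 1)) := by
    intro u
    have h1 := mom_bound h hK hK1 (hD u) p hlam (hno u) t (fun _ => none) (by simp [nones])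
    have h2 : (ones (fun _ : Fin t => (none : Option Bool))).card = 0 := by simp [ones]
    rw [h2, pow_zero, one_mul] at h1
    refine h1.trans ?_
    have h3 : (lam + 1 / (K : ℝ) ^ 2) ^ t ≤ (lam + 1 / K) ^ t := by
      refine pow_le_pow_left₀ (by positivity) ?_ _
      have : 1 / (K : ℝ) ^ 2 ≤ 1 / K := one_div_le_one_div_of_le hK0' (by nlinarith)
      linarith
    have h4 : 0 ≤ α ^ p := by positivity
    have h5 : 0 ≤ (1 / (K : ℝ)) ^ (M + 1) := by positivity
    have h6 := h3.trans hpow
    nlinarith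
  have hsum : θ ^ p ≤ ∑ u, mom pos neg (D u) p (fun _ => none) := by
    have h1 : ∑ u, mom pos neg (D u) p (fun _ => none) = avg fun x : (Fin t → A) × (Fin t → B) =>
        ∑ u, 1 * D u (hyb pos neg (fun _ => none) x.1 x.2) ^ p := by
      rw [avg_sum (fun _ : U => (1 : ℝ)) (fun u (x : (Fin t → A) × (Fin t → B)) =>
        D u (hyb pos neg (fun _ => none) x.1 x.2) ^ p)]
      refine sum_congr rfl fun u _ => ?_
      rw [one_mul]
      rfl
    rw [h1]
    refine le_avg fun x => ?_
    obtain ⟨u, hu⟩ := hyes x.1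
    have h2 : θ ^ p ≤ 1 * D u (hyb pos neg (fun _ => none) x.1 x.2) ^ p := by
      rw [one_mul]
      exact pow_le_pow_left₀ hθ hu p
    refine h2.trans (single_le_sum (f := fun u =>
      1 * D u (hyb pos neg (fun _ => none) x.1 x.2) ^ p) (fun u _ => ?_) (mem_univ u))
    exact mul_nonneg zero_le_one (pow_nonneg ((hD u).range _).1 _)
  refine hsum.trans ?_
  calc ∑ u, mom pos neg (D u) p (fun _ => none) ≤
        ∑ _u : U, 8 * (α ^ p + (1 / (K : ℝ)) ^ (M + 1)) := sum_le_sum fun u _ => hone u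
    _ = _ := by rw [sum_const, card_univ, nsmul_eq_mul]

end

/-- **The contradiction.** -/
theorem ma_contra {g p M K : ℕ} {α β : ℝ} (hα : 0 ≤ α) (hβ : 0 < β) (hαβ : α + β ≤ 1)
    (hK : 2 ≤ K) (hKβ : 1 ≤ K * β) (hp : (g : ℝ) + 5 ≤ p * β) (hM : p + g + 5 ≤ M)
    (h : (α + β) ^ p ≤ 2 ^ g * (8 * (α ^ p + (1 / (K : ℝ)) ^ (M + 1)))) : False := by
  have hK0 : (2 : ℝ) ≤ K := by exact_mod_cast hK
  obtain ⟨θ, hθ⟩ : ∃ θ, θ = α + β := ⟨_, rfl⟩
  rw [← hθ] at h hαβ
  have hθ0 : 0 < θ := by linarith
  have hθp : 0 < θ ^ p := by positivity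
  have h1 : α ^ p ≤ θ ^ p * (1 / 2) ^ (g + 5) := by
    have h2 : α ≤ θ * (1 - β) := by nlinarith
    have hβ1 : β ≤ 1 := by linarith
    have h3 : (1 - β) ^ p ≤ (1 / 2) ^ (g + 5) := by
      have h4 : 1 - β ≤ Real.exp (-β) := by
        have := Real.add_one_le_exp (-β)
        linarith
      calc (1 - β) ^ p ≤ Real.exp (-β) ^ p := pow_le_pow_left₀ (by linarith) h4 p
        _ = Real.exp (-(p * β)) := by
            rw [← Real.exp_nat_mul]
            congr 1
            ring
        _ ≤ Real.exp (-1 * ((g + 5 : ℕ) : ℝ)) := by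
            refine Real.exp_le_exp.2 ?_
            push_cast
            linarith
        _ = Real.exp (-1) ^ (g + 5) := by rw [Real.exp_mul, Real.rpow_natCast]
        _ ≤ (1 / 2) ^ (g + 5) := by
            refine pow_le_pow_left₀ (Real.exp_pos _).le ?_ _
            have := Real.exp_neg_one_lt_d9
            linarith
    calc α ^ p ≤ (θ * (1 - β)) ^ p := pow_le_pow_left₀ hα h2 p
      _ = θ ^ p * (1 - β) ^ p := mul_pow _ _ _
      _ ≤ _ := mul_le_mul_of_nonneg_left h3 hθp.le
  have h2 : (1 / (K : ℝ)) ^ (M + 1) ≤ θ ^ p * (1 / 2) ^ (g + 5) := by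
    have h3 : 1 / (K : ℝ) ≤ θ := by
      rw [div_le_iff₀ (by linarith)]
      nlinarith
    have h4 : 1 / (K : ℝ) ≤ 1 / 2 := one_div_le_one_div_of_le (by norm_num) hK0
    calc (1 / (K : ℝ)) ^ (M + 1) ≤ (1 / (K : ℝ)) ^ (p + (g + 5)) :=
          pow_le_pow_of_le_one (by positivity) (by linarith) (by omega)
      _ = (1 / (K : ℝ)) ^ p * (1 / (K : ℝ)) ^ (g + 5) := pow_add _ _ _
      _ ≤ θ ^ p * (1 / 2) ^ (g + 5) :=
          mul_le_mul (pow_le_pow_left₀ (by positivity) h3 p)
            (pow_le_pow_left₀ (by positivity) h4 _) (by positivity) hθp.le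
  have h3 : (2 : ℝ) ^ g * (8 * (α ^ p + (1 / (K : ℝ)) ^ (M + 1))) ≤
      2 ^ g * (8 * (θ ^ p * (1 / 2) ^ (g + 5) + θ ^ p * (1 / 2) ^ (g + 5))) :=
    mul_le_mul_of_nonneg_left (by linarith) (by positivity)
  have h4 : (2 : ℝ) ^ g * (8 * (θ ^ p * (1 / 2) ^ (g + 5) + θ ^ p * (1 / 2) ^ (g + 5))) =
      θ ^ p / 2 := by
    have h5 : (2 : ℝ) ^ g * (1 / 2) ^ g = 1 := by
      rw [← mul_pow]
      norm_num
    calc (2 : ℝ) ^ g * (8 * (θ ^ p * (1 / 2) ^ (g + 5) + θ ^ p * (1 / 2) ^ (g + 5))) =
          (2 ^ g * (1 / 2) ^ g) * (16 * (1 / 2) ^ 5 * θ ^ p) := by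
            rw [pow_add]
            ring
      _ = _ := by
          rw [h5]
          ring
  linarith

end Pool.Agent.J6H27.MPH
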