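import Pool.Agent.J6H27.MPH.Tree

/-!
# Alternation trees are hard for few questions to lower levels
-/

set_option autoImplicit false

namespace Pool.Agent.J6H27.MPH

open Finset Pool.Agent.H520R2 Pool.Agent.H520R2.NM Pool.Agent.J6H7.Chain

theorem num_or {X : Type} [Fintype X] (P Q : X → Prop) :
    num (fun x => P x ∨ Q x) ≤ num P + num Q := by
  classical
  refine (num_le_finset ((univ.filter P) ∪ (univ.filter Q)) ?_).trans (card_union_le _ _)
  intro x hx
  rw [mem_union, mem_filter, mem_filter]
  rcases hx with hx | hx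
  · exact Or.inl ⟨mem_univ _, hx⟩
  · exact Or.inr ⟨mem_univ _, hx⟩

theorem num_false {X : Type} [Fintype X] {P : X → Prop} (h : ∀ x, ¬ P x) : num P = 0 :=
  Nat.le_zero.1 ((num_le_finset (∅ : Finset X) fun x hx => absurd hx (h x)).trans (by simp))

theorem num_true {X : Type} [Fintype X] {P : X → Prop} (h : ∀ x, P x) :
    num P = Fintype.card X := by
  classical
  unfold num
  rw [filter_true_of_mem (fun x _ => h x), card_univ]

theorem num_list {X D : Type} [Fintype X] {K : ℕ} (P : D → X → Prop) (ds : List D)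
    (h : ∀ d ∈ ds, K * num (P d) ≤ Fintype.card X) :
    K * num (fun x => ∃ d ∈ ds, P d x) ≤ ds.length * Fintype.card X := by
  induction ds with
  | nil => rw [num_false (by simp)]; simp
  | cons d ds ih =>
    have h1 := ih fun d hd => h d (List.mem_cons_of_mem _ hd)
    have h2 := h d List.mem_cons_self
    have h3 : num (fun x => ∃ d' ∈ d :: ds, P d' x) ≤
        num (P d) + num (fun x => ∃ d ∈ ds, P d x) := by
      refine (num_mono ?_).trans (num_or _ _)
      rintro x ⟨d', hd', hx⟩
      rcases List.mem_cons.1 hd' with rfl | hd'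
      · exact Or.inl hx
      · exact Or.inr ⟨d', hd', hx⟩
    rw [List.length_cons]
    calc K * num (fun x => ∃ d' ∈ d :: ds, P d' x) ≤
          K * (num (P d) + num (fun x => ∃ d ∈ ds, P d x)) := Nat.mul_le_mul_left _ h3
      _ = K * num (P d) + K * num (fun x => ∃ d ∈ ds, P d x) := by ring
      _ ≤ Fintype.card X + ds.length * Fintype.card X := Nat.add_le_add h2 h1
      _ = _ := by ring

theorem list_union {D : Type} {t r : ℕ} (Q : D → Fin t → Prop) (ds : List D)
    (h : ∀ d ∈ ds, ∃ J : Finset (Fin t), J.card < r ∧ ∀ j ∉ J, Q d j) :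
    ∃ J : Finset (Fin t), J.card ≤ ds.length * r ∧ ∀ d ∈ ds, ∀ j ∉ J, Q d j := by
  classical
  induction ds with
  | nil => exact ⟨∅, by simp, by simp⟩
  | cons d ds ih =>
    obtain ⟨J, h1, h2⟩ := ih fun d hd => h d (List.mem_cons_of_mem _ hd)
    obtain ⟨J', h3, h4⟩ := h d List.mem_cons_self
    refine ⟨J' ∪ J, ?_, ?_⟩
    · refine (card_union_le _ _).trans ?_
      rw [List.length_cons, add_mul, one_mul]
      omega
    · intro d' hd' j hj
      rw [mem_union, not_or] at hj
      rcases List.mem_cons.1 hd' with rfl | hd'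
      · exact h4 j hj.1
      · exact h2 d' hd' j hj.2

/-- **A disjunction of blocks is not a disjunction of few predicates.** -/
theorem no_union {A B ι : Type} [Fintype A] [Fintype B] [Nonempty A] [Nonempty B]
    {pos : A → ι → Bool} {neg : B → ι → Bool} {g s k K r t : ℕ} (f : (ι → Bool) → Prop)
    (hpos : ∀ a, f (pos a)) (hneg : ∀ b, ¬ f (neg b)) (h : StO (Level g s k true) pos neg K)
    (h3 : K * 2 ^ g * 3 ^ r ≤ 4 ^ r) (hK : 4 ≤ K) (ds : List ((Fin t × ι → Bool) → Prop))
    (hds : ∀ D ∈ ds, Level g s (k + 1) false D) (hlen : ds.length * r < t)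
    (hKd : ds.length < K) :
    ¬ ∀ z : Fin t × ι → Bool, (∃ j, f (fun v => z (j, v))) ↔ ∃ D ∈ ds, D z := by
  classical
  intro hall
  have hB : 0 < Fintype.card B := Fintype.card_pos
  have hA : 0 < Fintype.card A := Fintype.card_pos
  obtain ⟨J, hJ1, hJ2⟩ := list_union (r := r)
    (fun (D : (Fin t × ι → Bool) → Prop) (j : Fin t) =>
      K * num (fun a => D (blk false j (pos a))) ≤ Fintype.card A) ds (by
    intro D hD
    obtain ⟨D', hD', hDD⟩ := hds D hD
    obtain ⟨u, J, hJ, hj⟩ := key (A := A) (B := B) (U := Fin g → Bool) (t := t) (r := r) (K := K)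
      (fun u j a => D' u (blk false j (pos a)))
      (fun u b => ¬ D' u (fun v => neg (b v.1) v.2))
      (fun u j b => ¬ D' u (blk false j (neg b)))
      (by
        intro u b hb j hj
        refine hb ((hD' u).mono _ _ ?_ hj)
        rintro ⟨i, v⟩
        unfold blk
        split_ifs with hij
        · simp only at hij
          rw [hij]
        · exact Bool.false_le _)
      (fun u j => h _ (level_blk false j (hD' u)))
      (by simpa using h3)
      (by
        rw [num_true, Fintype.card_fun, Fintype.card_fin]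
        · have h5 : 0 < Fintype.card B ^ t := by positivity
          nlinarith
        · intro b
          by_contra hcon
          push Not at hcon
          have h5 : D (fun v => neg (b v.1) v.2) := (hDD _).2 hcon
          obtain ⟨j, hj⟩ := (hall _).2 ⟨D, hD, h5⟩
          exact hneg (b j) hj)
    refine ⟨J, hJ, fun j hj' => ?_⟩
    refine le_trans (Nat.mul_le_mul_left K (num_mono fun a ha => ?_)) (hj j hj')
    exact (hDD _).1 ha u)
  obtain ⟨j, hj⟩ : ∃ j, j ∉ J := by
    by_contra hcon
    push Not at hcon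
    have : J = univ := eq_univ_iff_forall.2 hcon
    rw [this, card_univ, Fintype.card_fin] at hJ1
    omega
  have h5 := num_list (K := K)
    (fun (D : (Fin t × ι → Bool) → Prop) a => D (blk false j (pos a))) ds
    (fun D hD => hJ2 D hD j hj)
  rw [num_true] at h5
  · have := Nat.le_of_mul_le_mul_right h5 hA
    omega
  · intro a
    refine (hall _).1 ⟨j, ?_⟩
    have : (fun v => blk false j (pos a) (j, v)) = pos a := by
      funext v
      simp [blk]
    rw [this]
    exact hpos a

theorem tree_mono {t n k m : ℕ} : ∀ {b : Bool} {x y : Var t n m → Bool}, x ≤ y →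
    Tree t n k m b x → Tree t n k m b y := by
  induction m with
  | zero =>
    intro b x y hxy h
    have hle : ∀ e, x e = true → y e = true := by
      intro e he
      have := hxy e
      rw [he] at this
      exact top_le_iff.1 this
    cases b with
    | false =>
      obtain ⟨S, hS, h2⟩ := h
      exact ⟨S, hS, fun u hu v hv huv => hle _ (h2 u hu v hv huv)⟩
    | true =>
      intro S hS
      obtain ⟨u, hu, v, hv, huv, h2⟩ := h S hS
      exact ⟨u, hu, v, hv, huv, hle _ h2⟩
  | succ m ih =>
    intro b x y hxy h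
    cases b with
    | true =>
      obtain ⟨j, hj⟩ := h
      exact ⟨j, ih (fun v => hxy (j, v)) hj⟩
    | false =>
      intro j
      exact ih (fun v => hxy (j, v)) (h j)

/-- the devices: predicates of the levels `∃ ∀ …` and `∀ ∃ …` with `m` quantifiers -/
abbrev Dev (g s m : ℕ) (ι : Type) : Type :=
  {d : (ι → Bool) → Prop // Level g s m true d ∨ Level g s m false d}

/-- The function: one of the `T` trees is true. -/
def Top (T t n k m : ℕ) (x : Fin T × Var t n m → Bool) : Prop :=
  ∃ i : Fin T, Tree t n k m false (fun v => x (i, v))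

theorem run_sub {ι κ : Type} {D : Type} (acc : D → (ι → Bool) → Prop) (σ : ι → Bool ⊕ κ) :
    ∀ {l : List ℕ} (S : Strategy D l) (x : κ → Bool),
      S.run (fun d x => acc d (sub σ x)) x ↔ S.run acc (sub σ x) := by
  intro l S
  induction S with
  | answer d => intro x; rfl
  | ask q next ih => intro x; exact ih _ x

theorem main_lower {n κ q T t g s l p K r m : ℕ} (emb : Fin (κ + 1) × Fin q → Fin n)
    (hemb : Function.Injective emb) (hq : 1 ≤ q) (hκ : 1 ≤ κ)
    (hl2 : 2 ≤ l) (hl : l * (l - 1) ≤ κ) (hp : 2 ≤ p)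
    (h1 : K * (s * (p ^ l * l.factorial) ^ 2) ≤ q ^ (l + 1))
    (h2 : 4 * (s * (p ^ l * l.factorial) ^ 2) ≤ 2 ^ p)
    (h3 : K * 2 ^ g * 3 ^ r ≤ 4 ^ r) (hK : 4 ≤ K) (ht : 2 * r ≤ t) (ht0 : 0 < t)
    {ws : List ℕ} (hKW : ws.sum + 1 < K)
    (hT : (ws.map (· + 1)).prod * ((ws.sum + 1) * r + 1) ≤ T)
    {ι : Type} (e : Fin T × Var t n m → ι) (he : Function.Injective e)
    (S : Strategy (Dev g s m ι) ws) :
    ¬ ∀ x, S.run (fun d x => d.1 x) x ↔ Top T t n (κ + 1) m (fun v => x (e v)) := by
  classical
  intro hS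
  obtain ⟨⟨A, B, iA, iB, nA, nB, pos, neg, hpos, hneg, hst⟩, -⟩ :=
    tests (m := m) (g := g) (s := s) (r := r) emb hemb hq hκ hl2 hl hp h1 h2 h3 hK ht ht0
  set P := (ws.map (· + 1)).prod with hP
  set t1 := (ws.sum + 1) * r + 1 with ht1
  -- the indices
  have hcard : Fintype.card (Fin P × Fin t1) ≤ Fintype.card (Fin T) := by
    rw [Fintype.card_prod, Fintype.card_fin, Fintype.card_fin, Fintype.card_fin]
    exact hT
  obtain ⟨idx⟩ := Function.Embedding.nonempty_of_card_le hcard
  have hfalse : ¬ Tree t n (κ + 1) m false (fun _ => false) := by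
    intro h
    obtain ⟨b⟩ := nB
    exact hneg b (tree_mono (fun v => Bool.false_le _) h)
  let φ : Fin P × (Fin t1 × Var t n m) → Fin T × Var t n m := fun y => (idx (y.1, y.2.1), y.2.2)
  have hφ : Function.Injective φ := by
    rintro ⟨p1, j1, v1⟩ ⟨p2, j2, v2⟩ h
    simp only [φ, Prod.mk.injEq] at h
    have h4 := idx.injective h.1
    rw [Prod.mk.injEq] at h4
    simp [h4.1, h4.2, h.2]
  let σ : ι → Bool ⊕ (Fin P × (Fin t1 × Var t n m)) := fun i =>
    if h : ∃ y, e (φ y) = i then Sum.inr h.choose else Sum.inl false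
  have hσ1 : ∀ (z : Fin P × (Fin t1 × Var t n m) → Bool) y, sub σ z (e (φ y)) = z y := by
    intro z y
    have hex : ∃ y', e (φ y') = e (φ y) := ⟨y, rfl⟩
    have hc := hφ (he hex.choose_spec)
    have : σ (e (φ y)) = Sum.inr y := by
      simp only [σ]
      rw [dif_pos hex, hc]
    unfold sub
    rw [this]
  have hσ2 : ∀ (z : Fin P × (Fin t1 × Var t n m) → Bool) w, (∀ y, φ y ≠ w) →
      sub σ z (e w) = false := by
    intro z w hw
    have hex : ¬ ∃ y', e (φ y') = e w := by
      rintro ⟨y', hy'⟩
      exact hw y' (he hy')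
    have : σ (e w) = Sum.inl false := by
      simp only [σ]
      rw [dif_neg hex]
    unfold sub
    rw [this]
  let f : (Fin t1 × Var t n m → Bool) → Prop := fun y =>
    ∃ j : Fin t1, Tree t n (κ + 1) m false (fun v => y (j, v))
  have hF : ∀ z, Top T t n (κ + 1) m (fun v => sub σ z (e v)) ↔
      ∃ p : Fin P, f (fun b => z (p, b)) := by
    intro z
    constructor
    · rintro ⟨i, hi⟩
      by_cases hir : ∃ pj, idx pj = i
      · obtain ⟨⟨p', j'⟩, rfl⟩ := hir
        refine ⟨p', j', ?_⟩
        have : (fun v => sub σ z (e (idx (p', j'), v))) = fun v => z (p', (j', v)) := by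
          funext v
          exact hσ1 z (p', (j', v))
        rw [this] at hi
        exact hi
      · exfalso
        apply hfalse
        have : (fun v => sub σ z (e (i, v))) = fun _ => false := by
          funext v
          refine hσ2 z _ fun y hy => hir ⟨(y.1, y.2.1), ?_⟩
          exact (Prod.ext_iff.1 hy).1
        rw [this] at hi
        exact hi
    · rintro ⟨p', j', h⟩
      refine ⟨idx (p', j'), ?_⟩
      have : (fun v => sub σ z (e (idx (p', j'), v))) = fun v => z (p', (j', v)) := by
        funext v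
        exact hσ1 z (p', (j', v))
      rw [this]
      exact h
  have hPle : (ws.map (· + 1)).prod ≤ P := le_rfl
  obtain ⟨j, x0, ds, hlen, -, hfz⟩ := transfer (P := P)
    (fun (d : Dev g s m ι) x => d.1 (sub σ x))
    (fun d x y hxy hd => by
      rcases d.2 with h4 | h4
      · exact h4.mono _ _ (sub_mono σ hxy) hd
      · exact h4.mono _ _ (sub_mono σ hxy) hd)
    f (by
      rintro ⟨j, hj⟩
      exact hfalse hj) hPle S (p := fun _ => True) (by
        have : ∀ {l : List ℕ} (S : Strategy (Dev g s m ι) l), S.All (fun _ => True) := by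
          intro l S
          induction S with
          | answer d => trivial
          | ask q next ih => exact ⟨fun _ => trivial, ih⟩
        exact this S)
    (fun x => (run_sub (fun (d : Dev g s m ι) x => d.1 x) σ S x).trans ((hS _).trans (hF x)))
  let σ' : ι → Bool ⊕ (Fin t1 × Var t n m) := fun i =>
    match σ i with
    | Sum.inl c => Sum.inl c
    | Sum.inr y => if y.1 = j then Sum.inr y.2 else Sum.inl (x0 y)
  have hσ' : ∀ z, sub σ (put x0 j z) = sub σ' z := by
    intro z
    funext i
    unfold sub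
    simp only [σ']
    cases hi : σ i with
    | inl c => rfl
    | inr y =>
      by_cases hy : y.1 = j
      · simp [put, hy]
      · simp [put, hy]
  refine no_union (Tree t n (κ + 1) m false) hpos hneg hst h3 hK
    (ds.map fun d => fun z => d.1 (sub σ' z)) ?_ ?_ ?_ ?_
  · intro D hD
    obtain ⟨d, _, rfl⟩ := List.mem_map.1 hD
    exact (Level.toFalse d.2).subst σ'
  · rw [List.length_map, ht1]
    have := Nat.mul_le_mul_right r hlen
    omega
  · rw [List.length_map]
    omega
  · intro z
    have h4 := hfz z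
    simp only [hσ'] at h4
    rw [show (∃ j, Tree t n (κ + 1) m false fun v => z (j, v)) ↔ f z from Iff.rfl, h4]
    constructor
    · rintro ⟨d, hd, h5⟩
      exact ⟨_, List.mem_map.2 ⟨d, hd, rfl⟩, h5⟩
    · rintro ⟨D, hD, h5⟩
      obtain ⟨d, hd, rfl⟩ := List.mem_map.1 hD
      exact ⟨d, hd, h5⟩

end Pool.Agent.J6H27.MPH
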