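import Mathlib

/-!
# The numbers
-/

set_option autoImplicit false

namespace Pool.Agent.J6H27.MPH

open Filter

theorem tendsto_log : Tendsto (fun n : ℕ => Nat.log 2 n) atTop atTop := by
  refine tendsto_atTop.2 fun b => ?_
  filter_upwards [eventually_ge_atTop (2 ^ b)] with n hn
  exact (Nat.le_log_iff_pow_le (by norm_num) (by
    have : 0 < 2 ^ b := by positivity
    omega)).2 hn

/-- polylogarithms are small -/
theorem ev_log (C k : ℕ) : ∀ᶠ n : ℕ in atTop, C * (Nat.log 2 n + 1) ^ k ≤ n := by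
  have h1 : Tendsto (fun n : ℕ => (n : ℝ) ^ k / (2 : ℝ) ^ n) atTop (nhds 0) :=
    tendsto_pow_const_div_const_pow_of_one_lt k (by norm_num)
  have h2 : ∀ᶠ L : ℕ in atTop, C * (L + 1) ^ k ≤ 2 ^ L := by
    have h3 : ∀ᶠ n : ℕ in atTop, (n : ℝ) ^ k / (2 : ℝ) ^ n < 1 / (2 * (C + 1)) :=
      h1.eventually (gt_mem_nhds (by positivity))
    have h4 := (tendsto_add_atTop_nat 1).eventually h3
    filter_upwards [h4] with L hL
    rw [div_lt_div_iff₀ (by positivity) (by positivity)] at hL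
    have h5 : (2 * (C + 1)) * (L + 1) ^ k < 2 ^ (L + 1) := by
      have : (((L + 1 : ℕ) : ℝ)) ^ k * (2 * (C + 1)) < 1 * 2 ^ (L + 1) := hL
      have h6 : (((2 * (C + 1)) * (L + 1) ^ k : ℕ) : ℝ) < ((2 ^ (L + 1) : ℕ) : ℝ) := by
        push_cast at this ⊢
        linarith
      exact_mod_cast h6
    rw [pow_succ] at h5
    have h7 : 2 * (C * (L + 1) ^ k) ≤ 2 * (C + 1) * (L + 1) ^ k := by
      rw [← mul_assoc]
      exact Nat.mul_le_mul_right _ (by omega)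
    omega
  filter_upwards [tendsto_log.eventually h2, eventually_ge_atTop 1] with n hn h1
  exact hn.trans (Nat.pow_log_le_self 2 (by omega))

/-- the integral part of the root -/
def root (B N : ℕ) : ℕ := Nat.findGreatest (fun n => n ^ B ≤ N) N

theorem root_pow {B N : ℕ} (hB : 0 < B) : root B N ^ B ≤ N := by
  unfold root
  have h : (fun n => n ^ B ≤ N) 0 := by
    simp [Nat.zero_pow hB]
  exact Nat.findGreatest_spec (P := fun n => n ^ B ≤ N) (Nat.zero_le N) h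

theorem lt_root {B N : ℕ} (hB : 0 < B) : N < (root B N + 1) ^ B := by
  by_contra hcon
  rw [not_lt] at hcon
  have h1 : root B N + 1 ≤ N :=
    (Nat.le_self_pow hB.ne' _).trans hcon
  have := Nat.le_findGreatest (P := fun n => n ^ B ≤ N) h1 hcon
  unfold root at *
  omega

theorem tendsto_root {B : ℕ} (hB : 0 < B) : Tendsto (root B) atTop atTop := by
  refine tendsto_atTop.2 fun b => ?_
  filter_upwards [eventually_ge_atTop (b ^ B)] with N hN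
  by_contra hcon
  rw [not_le] at hcon
  have h1 := lt_root (B := B) (N := N) hB
  have h2 : (root B N + 1) ^ B ≤ b ^ B := Nat.pow_le_pow_left (by omega) B
  omega

/-! ### the single estimates -/

theorem est_M (a L l : ℕ) : ((a * (L + 1)) ^ l * l.factorial) ^ 2 =
    (a ^ l * l.factorial) ^ 2 * (L + 1) ^ (2 * l) := by
  rw [mul_pow a (L + 1) l, pow_mul' (L + 1) 2 l]
  ring

theorem est_q {n L : ℕ} (h1 : 4 * (L + 1) ^ 2 ≤ n) : n ≤ (n / (L + 1)) ^ 2 := by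
  have h2 : n < (n / (L + 1) + 1) * (L + 1) := by
    have := Nat.lt_mul_div_succ n (Nat.succ_pos L)
    rw [mul_comm] at this
    exact this
  have h3 : 4 * (L + 1) ≤ n / (L + 1) := by
    rw [Nat.le_div_iff_mul_le (Nat.succ_pos L)]
    calc 4 * (L + 1) * (L + 1) = 4 * (L + 1) ^ 2 := by ring
      _ ≤ n := h1
  generalize n / (L + 1) = q at h2 h3 ⊢
  calc n ≤ (q + 1) * (L + 1) := h2.le
    _ ≤ (q + q) * (L + 1) := Nat.mul_le_mul_right _ (by omega)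
    _ ≤ q * (4 * (L + 1)) := by nlinarith
    _ ≤ q * q := Nat.mul_le_mul_left _ h3
    _ = q ^ 2 := (sq q).symm

theorem est_s {B n N : ℕ} (h : N < 2 ^ B * n ^ B) (c : ℕ) :
    N ^ c ≤ 2 ^ (B * c) * n ^ (B * c) := by
  calc N ^ c ≤ (2 ^ B * n ^ B) ^ c := Nat.pow_le_pow_left h.le _
    _ = _ := by rw [mul_pow, ← pow_mul, ← pow_mul]

theorem est_K {N : ℕ} (hN : 1 ≤ N) : 2 ^ (Nat.log 2 N + 3) ≤ 8 * N := by
  have : 2 ^ (Nat.log 2 N) ≤ N := Nat.pow_log_le_self 2 (by omega)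
  rw [pow_add]
  omega

theorem est_iv {B c n N M q s K : ℕ} (hs : s ≤ 2 ^ (B * c) * n ^ (B * c))
    (hK : K ≤ 8 * N) (hN : N < 2 ^ B * n ^ B) (hM : 8 * 2 ^ (B * (c + 1)) * M ≤ n)
    (hq : n ≤ q ^ 2) (hq1 : 1 ≤ q) : K * (s * M) ≤ q ^ (2 * B * (c + 1) + 2 + 1) := by
  calc K * (s * M) ≤ (8 * (2 ^ B * n ^ B)) * ((2 ^ (B * c) * n ^ (B * c)) * M) :=
        Nat.mul_le_mul (hK.trans (Nat.mul_le_mul_left _ hN.le)) (Nat.mul_le_mul_right _ hs)
    _ = (8 * (2 ^ B * 2 ^ (B * c)) * M) * (n ^ B * n ^ (B * c)) := by ring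
    _ = (8 * 2 ^ (B * (c + 1)) * M) * n ^ (B * (c + 1)) := by
        rw [← pow_add, ← pow_add]
        have : B + B * c = B * (c + 1) := by ring
        rw [this]
    _ ≤ n * n ^ (B * (c + 1)) := Nat.mul_le_mul_right _ hM
    _ = n ^ (B * (c + 1) + 1) := (pow_succ' _ _).symm
    _ ≤ (q ^ 2) ^ (B * (c + 1) + 1) := Nat.pow_le_pow_left hq _
    _ = q ^ (2 * (B * (c + 1) + 1)) := (pow_mul _ _ _).symm
    _ ≤ q ^ (2 * B * (c + 1) + 2 + 1) := Nat.pow_le_pow_right hq1 (by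
        have : 2 * (B * (c + 1) + 1) = 2 * B * (c + 1) + 2 := by ring
        omega)

theorem est_v {B c n M s L : ℕ} (hs : s ≤ 2 ^ (B * c) * n ^ (B * c))
    (hM : 8 * 2 ^ (B * (c + 1)) * M ≤ n) (hn : n ≤ 2 ^ (L + 1)) :
    4 * (s * M) ≤ 2 ^ ((B * c + 1) * (L + 1)) := by
  have h1 : 2 ^ (B * c) ≤ 2 ^ (B * (c + 1)) :=
    Nat.pow_le_pow_right (by norm_num) (Nat.mul_le_mul_left _ (by omega))
  calc 4 * (s * M) ≤ 8 * ((2 ^ (B * (c + 1)) * n ^ (B * c)) * M) := by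
        refine Nat.mul_le_mul (by norm_num) (Nat.mul_le_mul_right _ (hs.trans ?_))
        exact Nat.mul_le_mul_right _ h1
    _ = (8 * 2 ^ (B * (c + 1)) * M) * n ^ (B * c) := by ring
    _ ≤ n * n ^ (B * c) := Nat.mul_le_mul_right _ hM
    _ = n ^ (B * c + 1) := (pow_succ' _ _).symm
    _ ≤ (2 ^ (L + 1)) ^ (B * c + 1) := Nat.pow_le_pow_left hn _
    _ = 2 ^ ((B * c + 1) * (L + 1)) := by rw [← pow_mul, mul_comm]

theorem est_logN {B n N L : ℕ} (hL : n < 2 ^ (L + 1)) (hN : N < (n + 1) ^ B) (hN1 : 1 ≤ N) :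
    Nat.log 2 N < B * (L + 1) := by
  refine (Nat.log_lt_iff_lt_pow (by norm_num) (by omega)).2 ?_
  calc N < (n + 1) ^ B := hN
    _ ≤ (2 ^ (L + 1)) ^ B := Nat.pow_le_pow_left (by omega) _
    _ = 2 ^ (B * (L + 1)) := by rw [← pow_mul, mul_comm]

theorem est_cube {A L X : ℕ} (h1 : 2 * (A + 2) + 2 ≤ L) (h2 : L ≤ X) :
    (L + 1) * (A + (L + 1)) ≤ X ^ 3 ∧ (L + 1) * (L + 1) ≤ X ^ 3 := by
  have h3 : 4 * L ^ 2 ≤ X ^ 3 := by
    calc 4 * L ^ 2 ≤ L * L ^ 2 := Nat.mul_le_mul_right _ (by omega)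
      _ = L ^ 3 := by ring
      _ ≤ _ := Nat.pow_le_pow_left h2 3
  have h4 : (L + L) * (L + L) = 4 * L ^ 2 := by ring
  constructor
  · exact (Nat.mul_le_mul (by omega) (by omega)).trans (h4.le.trans h3)
  · exact (Nat.mul_le_mul (by omega) (by omega)).trans (h4.le.trans h3)

theorem est_g {n g Y : ℕ} (hg : g ^ 4 < 2 * n) (hn : 2 * Y ^ 4 ≤ n) (hn1 : 1 ≤ n) :
    Y * g ≤ n := by
  by_contra hcon
  rw [not_le] at hcon
  have h1 : n ^ 4 < (Y * g) ^ 4 := Nat.pow_lt_pow_left hcon (by norm_num)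
  have h2 : (Y * g) ^ 4 ≤ Y ^ 4 * (2 * n) := by
    rw [mul_pow]
    exact Nat.mul_le_mul_left _ hg.le
  have h3 : Y ^ 4 * (2 * n) ≤ n * n := by
    calc Y ^ 4 * (2 * n) = (2 * Y ^ 4) * n := by ring
      _ ≤ n * n := Nat.mul_le_mul_right _ hn
  have h4 : n * n ≤ n ^ 4 := by
    calc n * n = n ^ 2 := (sq n).symm
      _ ≤ n ^ 4 := Nat.pow_le_pow_right hn1 (by norm_num)
  omega

theorem est_g4 {B g n N : ℕ} (hB : 0 < B) (hN : N < 2 ^ B * n ^ B)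
    (hg : (g : ℝ) ≤ (N : ℝ) ^ (1 / (4 * B) : ℝ)) : g ^ 4 < 2 * n := by
  have hB0 : (0 : ℝ) < B := by exact_mod_cast hB
  have h1 : (g : ℝ) ^ (4 * B) ≤ N := by
    calc (g : ℝ) ^ (4 * B) ≤ ((N : ℝ) ^ (1 / (4 * B) : ℝ)) ^ (4 * B) :=
          pow_le_pow_left₀ (Nat.cast_nonneg g) hg _
      _ = N := by
          rw [← Real.rpow_natCast, ← Real.rpow_mul (Nat.cast_nonneg N)]
          have : (1 / (4 * B) : ℝ) * ((4 * B : ℕ) : ℝ) = 1 := by
            push_cast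
            field_simp
          rw [this, Real.rpow_one]
  have h2 : g ^ (4 * B) ≤ N := by exact_mod_cast h1
  have h3 : (g ^ 4) ^ B < (2 * n) ^ B := by
    rw [← pow_mul, mul_pow]
    exact lt_of_le_of_lt h2 hN
  exact lt_of_pow_lt_pow_left₀ _ (Nat.zero_le _) h3

theorem est_r {B L g h n : ℕ} (hh : h ≤ (B + 3) * (L + 1))
    (e4 : 2 ^ (B + 3) * (3 * (B + 3) + 1) * (L + 1) ≤ n) (hg : 2 ^ (B + 1) * 6 * g ≤ n) :
    2 ^ B * (3 * (g + h) + 1) ≤ n := by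
  have h1 : 3 * h + 1 ≤ (3 * (B + 3) + 1) * (L + 1) := by nlinarith
  have h2 : 2 ^ B * (3 * h + 1) * 8 ≤ n := by
    calc 2 ^ B * (3 * h + 1) * 8 = 2 ^ (B + 3) * (3 * h + 1) := by rw [pow_add]; ring
      _ ≤ 2 ^ (B + 3) * ((3 * (B + 3) + 1) * (L + 1)) := Nat.mul_le_mul_left _ h1
      _ = 2 ^ (B + 3) * (3 * (B + 3) + 1) * (L + 1) := by rw [mul_assoc]
      _ ≤ n := e4
  have h3 : 2 ^ B * (3 * g) * 4 ≤ n := by
    calc 2 ^ B * (3 * g) * 4 = 2 ^ (B + 1) * 6 * g := by rw [pow_succ]; ring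
      _ ≤ n := hg
  have h4 : 2 ^ B * (3 * (g + h) + 1) = 2 ^ B * (3 * g) + 2 ^ B * (3 * h + 1) := by ring
  omega

theorem est_W {A B m n N W : ℕ} {ε : ℝ} (hε0 : 0 ≤ ε) (hε1 : ε ≤ 1) (hA : 1 ≤ A)
    (hB : B = A + m + 2) (hAε : (m : ℝ) + 3 ≤ A * ε) (hN : N < 2 ^ B * n ^ B)
    (hn1 : 1 ≤ n) (hN1 : 1 ≤ N)
    (hW : (W : ℝ) ≤ (N : ℝ) ^ (1 - ε)) : W ≤ N ∧ W ≤ 2 ^ B * n ^ (A - 1) := by
  have hN1' : (1 : ℝ) ≤ N := by exact_mod_cast hN1
  have hn1' : (1 : ℝ) ≤ n := by exact_mod_cast hn1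
  have hBpos : (0 : ℝ) ≤ B := Nat.cast_nonneg _
  constructor
  · have h1 : (W : ℝ) ≤ (N : ℝ) ^ (1 : ℝ) :=
      hW.trans (Real.rpow_le_rpow_of_exponent_le hN1' (by linarith))
    rw [Real.rpow_one] at h1
    exact_mod_cast h1
  · have h2 : (N : ℝ) ≤ (2 * (n : ℝ)) ^ ((B : ℕ) : ℝ) := by
      rw [Real.rpow_natCast, mul_pow]
      exact_mod_cast hN.le
    have h3 : (0 : ℝ) ≤ 1 - ε := by linarith
    have hBε : (B : ℝ) * (1 - ε) ≤ ((A - 1 : ℕ) : ℝ) := by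
      rw [Nat.cast_sub hA, hB]
      push_cast
      have h5 : (0 : ℝ) ≤ (m + 2) * ε := by positivity
      nlinarith
    have hB1 : (B : ℝ) * (1 - ε) ≤ ((B : ℕ) : ℝ) := by nlinarith
    have h1 : (W : ℝ) ≤ 2 ^ B * (n : ℝ) ^ (A - 1 : ℕ) := by
      calc (W : ℝ) ≤ (N : ℝ) ^ (1 - ε) := hW
        _ ≤ ((2 * (n : ℝ)) ^ ((B : ℕ) : ℝ)) ^ (1 - ε) :=
            Real.rpow_le_rpow (by linarith) h2 h3
        _ = (2 * (n : ℝ)) ^ ((B : ℝ) * (1 - ε)) := by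
            rw [← Real.rpow_mul (by positivity)]
        _ = (2 : ℝ) ^ ((B : ℝ) * (1 - ε)) * (n : ℝ) ^ ((B : ℝ) * (1 - ε)) :=
            Real.mul_rpow (by norm_num) (by positivity)
        _ ≤ (2 : ℝ) ^ ((B : ℕ) : ℝ) * (n : ℝ) ^ ((A - 1 : ℕ) : ℝ) :=
            mul_le_mul (Real.rpow_le_rpow_of_exponent_le (by norm_num) hB1)
              (Real.rpow_le_rpow_of_exponent_le hn1' hBε) (by positivity) (by positivity)
        _ = _ := by rw [Real.rpow_natCast, Real.rpow_natCast]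
    exact_mod_cast h1

end Pool.Agent.J6H27.MPH
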