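import Pool.Agent.J6H27.MPH.Defs
import Pool.Agent.J6H27.MPH.Key
import Pool.Agent.H520R2.Raz2

/-!
# Alternation trees over cliques
-/

set_option autoImplicit false

namespace Pool.Agent.J6H27.MPH

open Finset Pool.Agent.H520R2 Pool.Agent.H520R2.NM

/-- The graph on `n` vertices whose edges are the pairs `e` with `x e = true` has a clique with
`k` vertices. -/
def HasClique (n k : ℕ) (x : Sym2 (Fin n) → Bool) : Prop :=
  ∃ S : Finset (Fin n), S.card = k ∧ ∀ u ∈ S, ∀ v ∈ S, u ≠ v → x s(u, v) = true

/-- The graph on `n` vertices whose edges are the pairs `e` with `x e = true` has no independent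
set with `k` vertices. -/
def NoIndep (n k : ℕ) (x : Sym2 (Fin n) → Bool) : Prop :=
  ∀ S : Finset (Fin n), S.card = k → ∃ u ∈ S, ∃ v ∈ S, u ≠ v ∧ x s(u, v) = true

/-- the variables of a tree of depth `m` and degree `t` of graphs on `n` vertices -/
def Var (t n : ℕ) : ℕ → Type
  | 0 => Sym2 (Fin n)
  | m + 1 => Fin t × Var t n m

/-- `m` alternating quantifiers over branches of a tree, in front of a clique problem -/
def Tree (t n k : ℕ) : (m : ℕ) → Bool → (Var t n m → Bool) → Prop
  | 0, false, x => HasClique n k x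
  | 0, true, x => NoIndep n k x
  | m + 1, true, x => ∃ j : Fin t, Tree t n k m false (fun v => x (j, v))
  | m + 1, false, x => ∀ j : Fin t, Tree t n k m true (fun v => x (j, v))

/-! ### the dual of a monotone circuit -/

/-- the dual function -/
def dual {ι : Type} (f : (ι → Bool) → Bool) : (ι → Bool) → Bool := fun x => !(f fun i => !(x i))

theorem dual_vb {ι : Type} {f : (ι → Bool) → Bool} (hf : f ∈ VB ι) : dual f ∈ VB ι := by
  rcases hf with ⟨b, rfl⟩ | ⟨i, rfl⟩
  · exact Or.inl ⟨!b, rfl⟩
  · right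
    refine ⟨i, ?_⟩
    funext x
    simp [dual]

theorem dual_prog {ι : Type} {L : List ((ι → Bool) → Bool)} (h : MProg (VB ι) L) :
    MProg (VB ι) (L.map dual) := by
  have key : ∀ {L : List ((ι → Bool) → Bool)} {f : (ι → Bool) → Bool}, (f ∈ VB ι ∨ f ∈ L) →
      (dual f ∈ VB ι ∨ dual f ∈ L.map dual) := by
    intro L f hf
    rcases hf with hf | hf
    · exact Or.inl (dual_vb hf)
    · exact Or.inr (List.mem_map.2 ⟨f, hf, rfl⟩)
  induction h with
  | nil => exact MProg.nil
  | @and L f g _ hf hg ih =>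
    have h1 := MProg.or ih (key hf) (key hg)
    have h2 : dual (fun x => f x && g x) = fun x => dual f x || dual g x := by
      funext x
      simp [dual, Bool.not_and]
    rw [List.map_cons, h2]
    exact h1
  | @or L f g _ hf hg ih =>
    have h1 := MProg.and ih (key hf) (key hg)
    have h2 : dual (fun x => f x || g x) = fun x => dual f x && dual g x := by
      funext x
      simp [dual, Bool.not_or]
    rw [List.map_cons, h2]
    exact h1

theorem dual_comp {ι : Type} {s : ℕ} {f : (ι → Bool) → Bool} (h : MComp (VB ι) s f) :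
    MComp (VB ι) s (dual f) := by
  obtain ⟨L, hL, hs, hf⟩ := h
  refine ⟨_, dual_prog hL, by simpa using hs, ?_⟩
  rcases hf with hf | hf
  · exact Or.inl (dual_vb hf)
  · exact Or.inr (List.mem_map.2 ⟨f, hf, rfl⟩)

/-! ### the tests for cliques -/

section base

variable {n κ q : ℕ} (emb : Fin (κ + 1) × Fin q → Fin n)

open Classical in
/-- the edges of a graph -/
noncomputable def edg (G : SimpleGraph (Fin n)) : Sym2 (Fin n) → Bool :=
  fun e => decide (e ∈ G.edgeSet)

theorem edg_mk (G : SimpleGraph (Fin n)) (u v : Fin n) : edg G s(u, v) = true ↔ G.Adj u v := by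
  simp [edg]

theorem gb_of_vb : ∀ b ∈ VB (Sym2 (Fin n)), b ∘ edg ∈ GB (Fin n) := by
  rintro b (⟨c, rfl⟩ | ⟨e, rfl⟩)
  · exact Or.inl ⟨c, rfl⟩
  · right
    induction e using Sym2.ind with
    | _ u v =>
      refine ⟨u, v, ?_⟩
      funext G
      simp [adjFn, edg]

theorem base_fool (hemb : Function.Injective emb) {l p s K : ℕ} (hq : 1 ≤ q) (hκ : 1 ≤ κ)
    (hl2 : 2 ≤ l) (hl : l * (l - 1) ≤ κ) (hp : 2 ≤ p)
    (h1 : K * (s * (p ^ l * l.factorial) ^ 2) ≤ q ^ (l + 1))
    (h2 : 4 * (s * (p ^ l * l.factorial) ^ 2) ≤ 2 ^ p)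
    {C : (Sym2 (Fin n) → Bool) → Bool} (hC : MComp (VB _) s C) :
    K * num (fun π : Fin (κ + 1) → Fin q => C (edg (posG emb π)) = true) ≤ q ^ (κ + 1) ∨
      4 * num (fun c : Fin n → Fin κ => ¬ C (edg (negG c)) = true) ≤ 3 * κ ^ n := by
  classical
  have hf : MComp (GB (Fin n)) s (C ∘ edg) := MComp.comp edg gb_of_vb hC
  obtain ⟨L, hL, hs, hfL⟩ := hf
  obtain ⟨EP, EN, hEN, hEP, hall⟩ := appr_prog (κ := κ) emb hemb hq hκ hl2 hl hp L hL
  obtain ⟨A, hA1, _, hA3, hA4⟩ := hall _ hfL
  rw [Fintype.card_fin] at hEN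
  rcases A.eq_empty_or_nonempty with hA | ⟨S, hS⟩
  · left
    have hsub : num (fun π : Fin (κ + 1) → Fin q => C (edg (posG emb π)) = true) ≤ EP.card := by
      refine num_le_finset _ fun π hπ => ?_
      by_contra hcon
      obtain ⟨S, hS, _⟩ := hA3 π hcon hπ
      rw [hA] at hS
      simp at hS
    refine (Nat.mul_le_mul_left K hsub).trans ?_
    have h3 : K * EP.card * q ^ (l + 1) ≤ q ^ (κ + 1) * q ^ (l + 1) := by
      calc K * EP.card * q ^ (l + 1) = K * (EP.card * q ^ (l + 1)) := by ring
        _ ≤ K * (L.length * ((p ^ l * l.factorial) ^ 2 * q ^ (κ + 1))) :=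
            Nat.mul_le_mul_left _ hEP
        _ ≤ K * (s * ((p ^ l * l.factorial) ^ 2 * q ^ (κ + 1))) := by gcongr
        _ = (K * (s * (p ^ l * l.factorial) ^ 2)) * q ^ (κ + 1) := by ring
        _ ≤ q ^ (l + 1) * q ^ (κ + 1) := Nat.mul_le_mul_right _ h1
        _ = _ := by ring
    exact Nat.le_of_mul_le_mul_right h3 (by positivity)
  · right
    have hbad := bad_card hκ hl (∅ : Finset (Fin n)) {S} (by
      intro T hT; rw [mem_singleton] at hT; rw [hT]; exact hA1 S hS) (by
      intro T hT T' hT' hne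
      rw [mem_singleton] at hT hT'
      exact absurd (hT.trans hT'.symm) hne)
    rw [card_singleton, pow_one, Fintype.card_fin] at hbad
    have hsub : num (fun c : Fin n → Fin κ => ¬ C (edg (negG c)) = true) ≤
        (EN ∪ bad κ ∅ {S}).card := by
      refine num_le_finset _ fun c hc => ?_
      rw [mem_union]
      by_cases hcE : c ∈ EN
      · exact Or.inl hcE
      · right
        simp only [bad, mem_filter, mem_univ, true_and, mem_singleton, forall_eq, coe_empty]
        refine ⟨Set.injOn_empty c, fun hinj => ?_⟩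
        exact hc (hA4 c hcE ⟨S, hS, hinj⟩)
    have h3 := hsub.trans (card_union_le _ _)
    have h4 : 4 * EN.card ≤ κ ^ n := by
      have h5 : 4 * EN.card * 2 ^ p ≤ κ ^ n * 2 ^ p := by
        calc 4 * EN.card * 2 ^ p = 4 * (EN.card * 2 ^ p) := by ring
          _ ≤ 4 * (L.length * ((p ^ l * l.factorial) ^ 2 * κ ^ n)) :=
              Nat.mul_le_mul_left _ hEN
          _ ≤ 4 * (s * ((p ^ l * l.factorial) ^ 2 * κ ^ n)) := by gcongr
          _ = (4 * (s * (p ^ l * l.factorial) ^ 2)) * κ ^ n := by ring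
          _ ≤ 2 ^ p * κ ^ n := Nat.mul_le_mul_right _ h2
          _ = _ := by ring
      exact Nat.le_of_mul_le_mul_right h5 (by positivity)
    omega

theorem hasClique_pos (hemb : Function.Injective emb) (π : Fin (κ + 1) → Fin q) :
    HasClique n (κ + 1) (edg (posG emb π)) := by
  classical
  have hinj : Function.Injective fun i : Fin (κ + 1) => emb (i, π i) := by
    intro i j hij
    have := hemb hij
    exact (Prod.ext_iff.1 this).1
  refine ⟨univ.image fun i => emb (i, π i), ?_, ?_⟩
  · rw [card_image_of_injective _ hinj, card_univ, Fintype.card_fin]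
  · intro u hu v hv huv
    rw [mem_image] at hu hv
    obtain ⟨i, _, hi⟩ := hu
    obtain ⟨j, _, hj⟩ := hv
    rw [edg_mk]
    exact ⟨huv, ⟨i, hi.symm⟩, ⟨j, hj.symm⟩⟩

theorem exists_same {S : Finset (Fin n)} (hS : S.card = κ + 1) (c : Fin n → Fin κ) :
    ∃ u ∈ S, ∃ v ∈ S, u ≠ v ∧ c u = c v := by
  have h : (univ : Finset (Fin κ)).card < S.card := by
    rw [hS, card_univ, Fintype.card_fin]
    exact Nat.lt_succ_self _
  obtain ⟨u, hu, v, hv, huv, h2⟩ := exists_ne_map_eq_of_card_lt_of_maps_to h
    (f := c) (fun a _ => mem_univ _)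
  exact ⟨u, hu, v, hv, huv, h2⟩

theorem not_hasClique_neg (c : Fin n → Fin κ) : ¬ HasClique n (κ + 1) (edg (negG c)) := by
  rintro ⟨S, hS, h⟩
  obtain ⟨u, hu, v, hv, huv, hc⟩ := exists_same hS c
  have := h u hu v hv huv
  rw [edg_mk] at this
  exact this hc

theorem noIndep_pos (c : Fin n → Fin κ) : NoIndep n (κ + 1) (fun e => !(edg (negG c) e)) := by
  intro S hS
  obtain ⟨u, hu, v, hv, huv, hc⟩ := exists_same hS c
  refine ⟨u, hu, v, hv, huv, ?_⟩
  have h : edg (negG c) s(u, v) = false := by
    rw [← Bool.not_eq_true, edg_mk]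
    simp [negG, hc]
  simp [h]

theorem not_noIndep_neg (hemb : Function.Injective emb) (π : Fin (κ + 1) → Fin q) :
    ¬ NoIndep n (κ + 1) (fun e => !(edg (posG emb π) e)) := by
  intro h
  obtain ⟨S, hS, h2⟩ := hasClique_pos emb hemb π
  obtain ⟨u, hu, v, hv, huv, h3⟩ := h S hS
  simp [h2 u hu v hv huv] at h3

end base

/-! ### classes which do not separate the tests -/

/-- no predicate of the class accepts a noticeable part of the positive tests and rejects almost
all negative tests -/
def StO {A B ι : Type} [Fintype A] [Fintype B] (p : ((ι → Bool) → Prop) → Prop)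
    (pos : A → ι → Bool) (neg : B → ι → Bool) (K : ℕ) : Prop :=
  ∀ D, p D → K * num (fun a => D (pos a)) ≤ Fintype.card A ∨
    4 * num (fun b => ¬ D (neg b)) ≤ 3 * Fintype.card B

/-- no predicate of the class rejects a noticeable part of the negative tests and accepts almost
all positive tests -/
def StA {A B ι : Type} [Fintype A] [Fintype B] (p : ((ι → Bool) → Prop) → Prop)
    (pos : A → ι → Bool) (neg : B → ι → Bool) (K : ℕ) : Prop :=
  ∀ D, p D → K * num (fun b => ¬ D (neg b)) ≤ Fintype.card B ∨
    4 * num (fun a => D (pos a)) ≤ 3 * Fintype.card A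

/-- a block, the other variables are the constant `c` -/
def blk {t : ℕ} {ι : Type} (c : Bool) (j : Fin t) (z : ι → Bool) : Fin t × ι → Bool :=
  fun v => if v.1 = j then z v.2 else c

theorem blk_eq_sub {t : ℕ} {ι : Type} (c : Bool) (j : Fin t) (z : ι → Bool) :
    blk c j z = sub (fun v : Fin t × ι => if v.1 = j then Sum.inr v.2 else Sum.inl c) z := by
  funext v
  by_cases h : v.1 = j
  · simp [blk, sub, h]
  · simp [blk, sub, h]

theorem level_blk {g s k t : ℕ} {b : Bool} {ι : Type} (c : Bool) (j : Fin t)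
    {D : (Fin t × ι → Bool) → Prop} (h : Level g s k b D) :
    Level g s k b (fun z => D (blk c j z)) := by
  have := h.subst (fun v : Fin t × ι => if v.1 = j then Sum.inr v.2 else Sum.inl c)
  refine this.congr fun z => ?_
  rw [blk_eq_sub]

section steps

variable {A B ι : Type} [Fintype A] [Fintype B] {pos : A → ι → Bool} {neg : B → ι → Bool}
  {g s k K t r : ℕ}

theorem or_step (h : StO (Level g s k true) pos neg K) (h3 : K * 2 ^ g * 3 ^ r ≤ 4 ^ r)
    (hK : 4 ≤ K) (ht : 2 * r ≤ t) :
    StA (Level g s (k + 1) false) (fun p : Fin t × A => blk false p.1 (pos p.2))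
      (fun (b : Fin t → B) (v : Fin t × ι) => neg (b v.1) v.2) K := by
  rintro D ⟨D', hD', hD⟩
  have hs := step (A := A) (B := B) (U := Fin g → Bool) (t := t) (r := r) (K := K)
    (fun u j a => D' u (blk false j (pos a)))
    (fun u b => ¬ D' u (fun v => neg (b v.1) v.2))
    (fun u j b => ¬ D' u (blk false j (neg b)))
    (by
      intro u b hb j hj
      refine hb ((hD' u).mono _ _ ?_ hj)
      rintro ⟨i, v⟩
      unfold blk
      split_ifs with hij
      · simp only at hij
        rw [hij]
      · exact Bool.false_le _)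
    (fun u j => h _ (level_blk false j (hD' u)))
    (by simpa using h3) hK ht
  rcases hs with hs | hs
  · right
    refine le_trans (Nat.mul_le_mul_left 4 (num_mono ?_)) hs
    intro p hp
    exact (hD _).1 hp
  · left
    refine le_trans (Nat.mul_le_mul_left K (num_mono ?_)) hs
    intro b hb
    rw [hD] at hb
    push Not at hb
    exact hb

theorem and_step (h : StA (Level g s k false) pos neg K) (h3 : K * 2 ^ g * 3 ^ r ≤ 4 ^ r)
    (hK : 4 ≤ K) (ht : 2 * r ≤ t) :
    StO (Level g s (k + 1) true) (fun (a : Fin t → A) (v : Fin t × ι) => pos (a v.1) v.2)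
      (fun p : Fin t × B => blk true p.1 (neg p.2)) K := by
  rintro D ⟨D', hD', hD⟩
  have hs := step (A := B) (B := A) (U := Fin g → Bool) (t := t) (r := r) (K := K)
    (fun u j b => ¬ D' u (blk true j (neg b)))
    (fun u a => D' u (fun v => pos (a v.1) v.2))
    (fun u j a => D' u (blk true j (pos a)))
    (by
      intro u a ha j
      refine (hD' u).mono _ _ ?_ ha
      rintro ⟨i, v⟩
      unfold blk
      split_ifs with hij
      · simp only at hij
        rw [hij]
      · exact Bool.le_true _)
    (fun u j => h _ (level_blk true j (hD' u)))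
    (by simpa using h3) hK ht
  rcases hs with hs | hs
  · right
    refine le_trans (Nat.mul_le_mul_left 4 (num_mono ?_)) hs
    intro p hp u hu
    exact hp ((hD _).2 ⟨u, hu⟩)
  · left
    refine le_trans (Nat.mul_le_mul_left K (num_mono ?_)) hs
    intro a ha
    exact (hD _).1 ha

end steps

/-- **The tests.** -/
theorem tests {n κ q t g s l p K r : ℕ} (emb : Fin (κ + 1) × Fin q → Fin n)
    (hemb : Function.Injective emb) (hq : 1 ≤ q) (hκ : 1 ≤ κ)
    (hl2 : 2 ≤ l) (hl : l * (l - 1) ≤ κ) (hp : 2 ≤ p)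
    (h1 : K * (s * (p ^ l * l.factorial) ^ 2) ≤ q ^ (l + 1))
    (h2 : 4 * (s * (p ^ l * l.factorial) ^ 2) ≤ 2 ^ p)
    (h3 : K * 2 ^ g * 3 ^ r ≤ 4 ^ r) (hK : 4 ≤ K) (ht : 2 * r ≤ t) (ht0 : 0 < t) (m : ℕ) :
    (∃ (A B : Type) (_ : Fintype A) (_ : Fintype B) (_ : Nonempty A) (_ : Nonempty B)
      (pos : A → Var t n m → Bool) (neg : B → Var t n m → Bool),
      (∀ a, Tree t n (κ + 1) m false (pos a)) ∧ (∀ b, ¬ Tree t n (κ + 1) m false (neg b)) ∧
      StO (Level g s m true) pos neg K) ∧
    (∃ (A B : Type) (_ : Fintype A) (_ : Fintype B) (_ : Nonempty A) (_ : Nonempty B)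
      (pos : A → Var t n m → Bool) (neg : B → Var t n m → Bool),
      (∀ a, Tree t n (κ + 1) m true (pos a)) ∧ (∀ b, ¬ Tree t n (κ + 1) m true (neg b)) ∧
      StA (Level g s m false) pos neg K) := by
  have hfinq : Nonempty (Fin q) := ⟨⟨0, hq⟩⟩
  have hfinκ : Nonempty (Fin κ) := ⟨⟨0, hκ⟩⟩
  have hfint : Nonempty (Fin t) := ⟨⟨0, ht0⟩⟩
  induction m with
  | zero =>
    constructor
    · refine ⟨Fin (κ + 1) → Fin q, Fin n → Fin κ, inferInstance, inferInstance, inferInstance,
        inferInstance, fun π => edg (posG emb π), fun c => edg (negG c),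
        hasClique_pos emb hemb, not_hasClique_neg, ?_⟩
      rintro D ⟨C, hC, hD⟩
      have := base_fool emb hemb hq hκ hl2 hl hp h1 h2 hC
      rw [Fintype.card_fun, Fintype.card_fun, Fintype.card_fin, Fintype.card_fin,
        Fintype.card_fin, Fintype.card_fin]
      rcases this with h | h
      · left
        refine le_trans (Nat.mul_le_mul_left K (num_mono ?_)) h
        intro π hπ
        exact (hD _).1 hπ
      · right
        refine le_trans (Nat.mul_le_mul_left 4 (num_mono ?_)) h
        intro c hc hc'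
        exact hc ((hD _).2 hc')
    · refine ⟨Fin n → Fin κ, Fin (κ + 1) → Fin q, inferInstance, inferInstance, inferInstance,
        inferInstance, fun c e => !(edg (negG c) e), fun π e => !(edg (posG emb π) e),
        noIndep_pos, not_noIndep_neg emb hemb, ?_⟩
      rintro D ⟨C, hC, hD⟩
      have := base_fool emb hemb hq hκ hl2 hl hp h1 h2 (dual_comp hC)
      rw [Fintype.card_fun, Fintype.card_fun, Fintype.card_fin, Fintype.card_fin,
        Fintype.card_fin, Fintype.card_fin]
      rcases this with h | h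
      · left
        refine le_trans (Nat.mul_le_mul_left K (num_mono ?_)) h
        intro π hπ
        rw [hD] at hπ
        unfold dual
        rw [Bool.not_eq_true'] 
        exact Bool.eq_false_of_not_eq_true hπ
      · right
        refine le_trans (Nat.mul_le_mul_left 4 (num_mono ?_)) h
        intro c hc hc'
        rw [hD] at hc
        unfold dual at hc'
        rw [Bool.not_eq_true'] at hc'
        exact absurd (hc.symm.trans hc') (by decide)
  | succ m ih =>
    obtain ⟨⟨A, B, iA, iB, nA, nB, pos, neg, hpos, hneg, hst⟩,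
      ⟨A', B', iA', iB', nA', nB', pos', neg', hpos', hneg', hst'⟩⟩ := ih
    constructor
    · refine ⟨Fin t → A', Fin t × B', inferInstance, inferInstance, inferInstance, inferInstance,
        fun a v => pos' (a v.1) v.2, fun p => blk true p.1 (neg' p.2), ?_, ?_,
        and_step hst' h3 hK ht⟩
      · intro a j
        exact hpos' (a j)
      · rintro ⟨j, b⟩ h
        apply hneg' b
        have := h j
        simpa [blk] using this
    · refine ⟨Fin t × A, Fin t → B, inferInstance, inferInstance, inferInstance, inferInstance,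
        fun p => blk false p.1 (pos p.2), fun b v => neg (b v.1) v.2, ?_, ?_,
        or_step hst h3 hK ht⟩
      · rintro ⟨j, a⟩
        refine ⟨j, ?_⟩
        simpa [blk] using hpos a
      · rintro b ⟨j, h⟩
        exact hneg (b j) h

end Pool.Agent.J6H27.MPH
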