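import Pool.Agent.J6H27.MPH.Main

/-!
# Alternation trees are easy for the next level
-/

set_option autoImplicit false

namespace Pool.Agent.J6H27.MPH

open Finset Pool.Agent.H520R2 Pool.Agent.H520R2.NM

theorem exists_surj {X : Type} [Fintype X] [Nonempty X] {g : ℕ} (h : Fintype.card X ≤ 2 ^ g) :
    ∃ e : (Fin g → Bool) → X, Function.Surjective e := by
  have h2 : Fintype.card X ≤ Fintype.card (Fin g → Bool) := by simpa using h
  obtain ⟨i⟩ := Function.Embedding.nonempty_of_card_le h2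
  exact ⟨Function.invFun i, Function.invFun_surjective i.injective⟩

theorem level_or {ι : Type} {g s : ℕ} {b : Bool} (is : List ι) (h : is.length ≤ s) :
    Level g s 0 b (fun x : ι → Bool => ∃ i ∈ is, x i = true) := by
  obtain ⟨L', h1, h2, h3⟩ := or_prog (MProg.nil (B := VB ι)) (fun _ => false)
    (Or.inl (Or.inl ⟨false, rfl⟩)) (is.map fun i => fun x : ι → Bool => x i) (by
      intro f hf
      obtain ⟨i, _, rfl⟩ := List.mem_map.1 hf
      exact Or.inl (Or.inr ⟨i, rfl⟩))
  refine ⟨_, ⟨_, h1, ?_, h3⟩, ?_⟩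
  · rw [List.length_map] at h2
    simp only [List.append_nil]
    omega
  · intro x
    simp

theorem level_and {ι : Type} {g s : ℕ} {b : Bool} (is : List ι) (h : is.length ≤ s) :
    Level g s 0 b (fun x : ι → Bool => ∀ i ∈ is, x i = true) := by
  obtain ⟨C, hC, h2⟩ := level_or (g := g) (b := b) is h
  refine ⟨_, dual_comp hC, fun x => ?_⟩
  have h3 : (∃ i ∈ is, (!(x i)) = true) ↔ C (fun i => !(x i)) = true := h2 (fun i => !(x i))
  unfold dual
  constructor
  · intro h4
    rw [Bool.not_eq_true', ← Bool.not_eq_true]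
    intro h5
    rw [← h3] at h5
    obtain ⟨i, hi, h6⟩ := h5
    rw [h4 i hi] at h6
    exact absurd h6 (by decide)
  · intro h4 i hi
    by_contra h5
    rw [Bool.not_eq_true] at h5
    have h6 : ∃ i ∈ is, (!(x i)) = true := ⟨i, hi, by simp [h5]⟩
    rw [h3] at h6
    rw [h6] at h4
    exact absurd h4 (by decide)

open Classical in
/-- the pairs of different elements of `S` -/
noncomputable def prs {n : ℕ} (S : Finset (Fin n)) : List (Sym2 (Fin n)) :=
  ((S ×ˢ S).filter fun p => p.1 ≠ p.2).toList.map fun p => s(p.1, p.2)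

theorem prs_length {n : ℕ} (S : Finset (Fin n)) : (prs S).length ≤ S.card * S.card := by
  classical
  unfold prs
  rw [List.length_map, length_toList, ← card_product]
  exact card_filter_le _ _

theorem mem_prs {n : ℕ} {S : Finset (Fin n)} {e : Sym2 (Fin n)} :
    e ∈ prs S ↔ ∃ u ∈ S, ∃ v ∈ S, u ≠ v ∧ s(u, v) = e := by
  classical
  unfold prs
  simp only [List.mem_map, mem_toList, mem_filter, mem_product]
  constructor
  · rintro ⟨⟨u, v⟩, ⟨⟨hu, hv⟩, huv⟩, rfl⟩
    exact ⟨u, hu, v, hv, huv, rfl⟩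
  · rintro ⟨u, hu, v, hv, huv, rfl⟩
    exact ⟨(u, v), ⟨⟨hu, hv⟩, huv⟩, rfl⟩

theorem level_row {T : ℕ} {ι : Type} {g s k : ℕ} {b : Bool} {f : (ι → Bool) → Prop}
    (h : Level g s k b f) (i : Fin T) :
    Level g s k b (fun x : Fin T × ι → Bool => f (fun v => x (i, v))) := by
  have := h.subst (fun v : ι => (Sum.inr (i, v) : Bool ⊕ (Fin T × ι)))
  exact this.congr fun x => Iff.rfl

theorem card_sets (n k : ℕ) : Fintype.card {S : Finset (Fin n) // S.card = k} ≤ n ^ k := by
  rw [Fintype.card_finset_len, Fintype.card_fin]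
  exact Nat.choose_le_pow n k

section

variable {T t n k g s : ℕ}

theorem up_base_or (hT : 0 < T) (hk : k ≤ n) (h1 : T * n ^ k ≤ 2 ^ g) (h2 : k * k ≤ s) :
    Level g s 1 true (fun x : Fin T × Sym2 (Fin n) → Bool =>
      ∃ i : Fin T, HasClique n k (fun v => x (i, v))) := by
  have hne1 : Nonempty (Fin T) := ⟨⟨0, hT⟩⟩
  have hne2 : Nonempty {S : Finset (Fin n) // S.card = k} := by
    obtain ⟨S, _, hS⟩ := exists_subset_card_eq (s := (univ : Finset (Fin n))) (n := k)
      (by rw [card_univ, Fintype.card_fin]; exact hk)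
    exact ⟨⟨S, hS⟩⟩
  obtain ⟨e, he⟩ := exists_surj (X := Fin T × {S : Finset (Fin n) // S.card = k}) (g := g) (by
    rw [Fintype.card_prod, Fintype.card_fin]
    exact (Nat.mul_le_mul_left _ (card_sets n k)).trans h1)
  refine ⟨fun u x => ∀ p ∈ prs (e u).2.1, x ((e u).1, p) = true, fun u => ?_, fun x => ?_⟩
  · have := level_and (g := g) (s := s) (b := false) (prs (e u).2.1) (by
      refine (prs_length _).trans ?_
      rw [(e u).2.2]
      exact h2)
    exact level_row this (e u).1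
  · constructor
    · rintro ⟨i, S, hS, h⟩
      obtain ⟨u, hu⟩ := he (i, ⟨S, hS⟩)
      refine ⟨u, ?_⟩
      show ∀ p ∈ prs (e u).2.1, x ((e u).1, p) = true
      rw [hu]
      intro p hp
      obtain ⟨a, ha, b, hb, hab, rfl⟩ := mem_prs.1 hp
      exact h a ha b hb hab
    · rintro ⟨u, hu⟩
      refine ⟨(e u).1, (e u).2.1, (e u).2.2, fun a ha b hb hab => ?_⟩
      exact hu _ (mem_prs.2 ⟨a, ha, b, hb, hab, rfl⟩)

theorem up_base_and (hT : 0 < T) (hk : k ≤ n) (h1 : T * n ^ k ≤ 2 ^ g) (h2 : k * k ≤ s) :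
    Level g s 1 false (fun x : Fin T × Sym2 (Fin n) → Bool =>
      ∀ i : Fin T, NoIndep n k (fun v => x (i, v))) := by
  have hne1 : Nonempty (Fin T) := ⟨⟨0, hT⟩⟩
  have hne2 : Nonempty {S : Finset (Fin n) // S.card = k} := by
    obtain ⟨S, _, hS⟩ := exists_subset_card_eq (s := (univ : Finset (Fin n))) (n := k)
      (by rw [card_univ, Fintype.card_fin]; exact hk)
    exact ⟨⟨S, hS⟩⟩
  obtain ⟨e, he⟩ := exists_surj (X := Fin T × {S : Finset (Fin n) // S.card = k}) (g := g) (by
    rw [Fintype.card_prod, Fintype.card_fin]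
    exact (Nat.mul_le_mul_left _ (card_sets n k)).trans h1)
  refine ⟨fun u x => ∃ p ∈ prs (e u).2.1, x ((e u).1, p) = true, fun u => ?_, fun x => ?_⟩
  · have := level_or (g := g) (s := s) (b := true) (prs (e u).2.1) (by
      refine (prs_length _).trans ?_
      rw [(e u).2.2]
      exact h2)
    exact level_row this (e u).1
  · constructor
    · intro h u
      obtain ⟨a, ha, b, hb, hab, h3⟩ := h (e u).1 (e u).2.1 (e u).2.2
      exact ⟨_, mem_prs.2 ⟨a, ha, b, hb, hab, rfl⟩, h3⟩
    · intro h i S hS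
      obtain ⟨u, hu⟩ := he (i, ⟨S, hS⟩)
      have h3 : ∃ p ∈ prs (e u).2.1, x ((e u).1, p) = true := h u
      rw [hu] at h3
      obtain ⟨p, hp, h4⟩ := h3
      obtain ⟨a, ha, b, hb, hab, rfl⟩ := mem_prs.1 hp
      exact ⟨a, ha, b, hb, hab, h4⟩

theorem up (ht : 0 < t) (hk : k ≤ n) (hn : 0 < n) (h1 : t * n ^ k ≤ 2 ^ g) (h2 : k * k ≤ s)
    (m : ℕ) : ∀ T : ℕ, 0 < T → T * n ^ k ≤ 2 ^ g →
    Level g s (m + 1) true (fun x : Fin T × Var t n m → Bool =>
      ∃ i : Fin T, Tree t n k m false (fun v => x (i, v))) ∧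
    Level g s (m + 1) false (fun x : Fin T × Var t n m → Bool =>
      ∀ i : Fin T, Tree t n k m true (fun v => x (i, v))) := by
  induction m with
  | zero =>
    intro T hT hT2
    exact ⟨up_base_or hT hk hT2 h2, up_base_and hT hk hT2 h2⟩
  | succ m ih =>
    intro T hT hT2
    obtain ⟨ih1, ih2⟩ := ih t ht h1
    have hne1 : Nonempty (Fin T) := ⟨⟨0, hT⟩⟩
    obtain ⟨e, he⟩ := exists_surj (X := Fin T) (g := g) (by
      rw [Fintype.card_fin]
      exact (Nat.le_mul_of_pos_right T (by positivity)).trans hT2)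
    constructor
    · refine ⟨fun u x => Tree t n k (m + 1) false (fun v => x (e u, v)),
        fun u => level_row (T := T) (ι := Var t n (m + 1)) ih2 (e u), fun x => ?_⟩
      constructor
      · rintro ⟨i, hi⟩
        obtain ⟨u, rfl⟩ := he i
        exact ⟨u, hi⟩
      · rintro ⟨u, hu⟩
        exact ⟨e u, hu⟩
    · refine ⟨fun u x => Tree t n k (m + 1) true (fun v => x (e u, v)),
        fun u => level_row (T := T) (ι := Var t n (m + 1)) ih1 (e u), fun x => ?_⟩
      constructor
      · intro h u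
        exact h (e u)
      · intro h i
        obtain ⟨u, rfl⟩ := he i
        exact h u

end

end Pool.Agent.J6H27.MPH
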